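import Pool.Agent.LHR.Stmts

/-!
Squad LHR, module AFE: affine invariance of `ExtP`.
-/

namespace LHR

open Pool.Agent.LHT

theorem afe_proof (hAFF : Stmt_AFF) : Stmt_AFE := by
  classical
  intro e v0 p q p' q' hp hq h S' A' hS' hA' ω hω
  -- the inverse affine map
  set g : V3 → V3 := fun v => e.symm (v - v0) with hg
  have hge : ∀ v, g (e v + v0) = v := by
    intro v
    rw [hg]
    simp only [add_sub_cancel_right]
    exact e.symm_apply_apply v
  have heg : ∀ v, e (g v) + v0 = v := by
    intro v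
    rw [hg]
    simp only [AddEquiv.apply_symm_apply, sub_add_cancel]
  have hS : ∀ v, v ∈ S'.image g ↔ e v + v0 ∈ S' := by
    intro v
    rw [Finset.mem_image]
    constructor
    · rintro ⟨w, hw, rfl⟩
      rw [heg]
      exact hw
    · intro hv
      exact ⟨e v + v0, hv, hge v⟩
  have hA : ∀ v, v ∈ A'.image g ↔ e v + v0 ∈ A' := by
    intro v
    rw [Finset.mem_image]
    constructor
    · rintro ⟨w, hw, rfl⟩
      rw [heg]
      exact hw
    · intro hv
      exact ⟨e v + v0, hv, hge v⟩
  have hpS : ∀ v, v ∈ S'.image g ↔ p v := fun v => by rw [hS, hS', hp]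
  have hqA : ∀ v, v ∈ A'.image g ↔ q v := fun v => by rw [hA, hA', hq]
  obtain ⟨ω₁, h1, h2⟩ := h (S'.image g) (A'.image g) hpS hqA (fun v => ω (e v + v0))
    ((hAFF V3 V3 e v0 (A'.image g) A' ω (fun v => (hA v).symm)).1.1 hω)
  refine ⟨fun v => ω₁ (g v), ?_, ?_⟩
  · refine (hAFF V3 V3 e v0 (S'.image g) S' (fun v => ω₁ (g v)) (fun v => (hS v).symm)).2.2 ?_
    have : (fun v => (fun v => ω₁ (g v)) (e v + v0)) = ω₁ := by
      funext v
      simp only [hge]
    rw [this]
    exact h1
  · intro v hv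
    have := h2 (g v) (by rw [hA, heg]; exact hv)
    simp only [heg] at this
    exact this

end LHR
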