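import Pool.Agent.LHR.Stmts

/-!
Affine invariance of `RF` and `RLw` (squad LHR, module AFF).
-/

namespace LHR

open Pool.Agent.LHT

namespace AFF_

variable {Λ Λ' : Type} [AddCommGroup Λ] [AddCommGroup Λ']

theorem con_iff (e : Λ ≃+ Λ') (v0 : Λ') {S : Finset Λ} {S' : Finset Λ'}
    (h : ∀ v, e v + v0 ∈ S' ↔ v ∈ S) (ω : Λ → ℝ) (φ : Λ' →+ ℝ) (b : ℝ) (w : Λ') :
    w ∈ contact S' (fun w => ω (e.symm (w - v0))) φ b ↔
      e.symm (w - v0) ∈ contact S ω (φ.comp e.toAddMonoidHom) (φ v0 + b) := by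
  have hinv : e (e.symm (w - v0)) + v0 = w := by simp
  rw [mem_contact, mem_contact]
  have h1 : w ∈ S' ↔ e.symm (w - v0) ∈ S := by
    rw [← h, hinv]
  have h2 : (φ.comp e.toAddMonoidHom) (e.symm (w - v0)) + (φ v0 + b) = φ w + b := by
    have h3 : φ (e (e.symm (w - v0)) + v0) = φ w := by rw [hinv]
    rw [map_add] at h3
    show φ (e (e.symm (w - v0))) + (φ v0 + b) = φ w + b
    linarith
  rw [h1, h2]

theorem le_tr (e : Λ ≃+ Λ') (v0 : Λ') {S : Finset Λ} {S' : Finset Λ'}
    (h : ∀ v, e v + v0 ∈ S' ↔ v ∈ S) (ω : Λ → ℝ) (φ : Λ' →+ ℝ) (b : ℝ)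
    (h1 : ∀ v ∈ S', φ v + b ≤ ω (e.symm (v - v0))) :
    ∀ v ∈ S, (φ.comp e.toAddMonoidHom) v + (φ v0 + b) ≤ ω v := by
  intro v hv
  have hinv2 : e.symm (e v + v0 - v0) = v := by simp
  have h4 := h1 (e v + v0) ((h v).mpr hv)
  rw [hinv2, map_add] at h4
  show φ (e v) + (φ v0 + b) ≤ ω v
  linarith

theorem rf_push (e : Λ ≃+ Λ') (v0 : Λ') {S : Finset Λ} {S' : Finset Λ'}
    (h : ∀ v, e v + v0 ∈ S' ↔ v ∈ S) (ω : Λ → ℝ) (hω : RF S ω) :
    RF S' (fun w => ω (e.symm (w - v0))) := by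
  intro φ b h1 h2
  have hcon := con_iff e v0 h ω φ b
  have h3 := le_tr e v0 h ω φ b h1
  have h4 : RSp (contact S ω (φ.comp e.toAddMonoidHom) (φ v0 + b)) S := by
    intro χ d hχ v hv
    have h5 := h2 (χ.comp e.symm.toAddMonoidHom) (d - χ (e.symm v0)) (by
      intro w hw
      have h7 := hχ _ ((hcon w).mp hw)
      rw [map_sub, map_sub] at h7
      show χ (e.symm w) + (d - χ (e.symm v0)) = 0
      linarith) (e v + v0) ((h v).mpr hv)
    have h6 : (χ.comp e.symm.toAddMonoidHom) (e v + v0) = χ v + χ (e.symm v0) := by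
      show χ (e.symm (e v + v0)) = _
      rw [map_add, map_add, e.symm_apply_apply]
    rw [h6] at h5
    linarith
  have h5 := hω _ _ h3 h4
  intro p hp
  obtain ⟨ψ, c, g1, g2⟩ := h5 _ ((hcon p).mp hp)
  have key : ∀ u : Λ', (ψ.comp e.symm.toAddMonoidHom) u + (c - ψ (e.symm v0))
      = ψ (e.symm (u - v0)) + c := by
    intro u
    show ψ (e.symm u) + (c - ψ (e.symm v0)) = _
    rw [map_sub e.symm u v0, map_sub ψ]
    ring
  refine ⟨ψ.comp e.symm.toAddMonoidHom, c - ψ (e.symm v0), ?_, ?_⟩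
  · rw [key]; exact g1
  · intro q hq hqp
    rw [key]
    apply g2 _ ((hcon q).mp hq)
    intro h8
    apply hqp
    have h9 := e.symm.injective h8
    exact sub_left_injective h9

theorem rlw_push (e : Λ ≃+ Λ') (v0 : Λ') {S : Finset Λ} {S' : Finset Λ'}
    (h : ∀ v, e v + v0 ∈ S' ↔ v ∈ S) (ω : Λ → ℝ) (hω : RLw S ω) :
    RLw S' (fun w => ω (e.symm (w - v0))) := by
  classical
  intro φ b h1 h2
  have hmem := con_iff e v0 h ω φ b
  have h3 := le_tr e v0 h ω φ b h1
  have hinv2 : ∀ v : Λ, e.symm (e v + v0 - v0) = v := by intro v; simp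
  have h4 : Spans (contact S ω (φ.comp e.toAddMonoidHom) (φ v0 + b)) := by
    intro χ d hχ
    have h5 := h2 (χ.comp e.symm.toAddMonoidHom) (d - χ (e.symm v0)) (by
      intro w hw
      have h7 := hχ _ ((hmem w).mp hw)
      rw [map_sub, map_sub] at h7
      show χ (e.symm w) + (d - χ (e.symm v0)) = 0
      linarith)
    have h8 : χ = 0 := by
      ext v
      have := congrArg (fun f => f (e v)) h5.1
      simpa using this
    refine ⟨h8, ?_⟩
    have h9 := h5.2
    rw [h8] at h9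
    simpa using h9
  obtain ⟨ψ, c, g1, g2, g3⟩ := hω _ _ h3 h4
  set C := contact S ω (φ.comp e.toAddMonoidHom) (φ v0 + b) with hC
  set C' := contact S' (fun w => ω (e.symm (w - v0))) φ b with hC'
  let ψ' : Λ' → Λ' →+ ℤ := fun w => (ψ (e.symm (w - v0))).comp e.symm.toAddMonoidHom
  let c' : Λ' → ℤ := fun w => c (e.symm (w - v0)) - ψ (e.symm (w - v0)) (e.symm v0)
  have hval : ∀ w u : Λ', ψ' w u + c' w
      = ψ (e.symm (w - v0)) (e.symm (u - v0)) + c (e.symm (w - v0)) := by
    intro w u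
    show ψ (e.symm (w - v0)) (e.symm u) + (c (e.symm (w - v0))
      - ψ (e.symm (w - v0)) (e.symm v0)) = _
    rw [map_sub e.symm u v0, map_sub (ψ (e.symm (w - v0)))]
    ring
  have hsum : ∀ {M : Type} [AddCommMonoid M] (F : Λ → M),
      ∑ p ∈ C', F (e.symm (p - v0)) = ∑ p ∈ C, F p := by
    intro M _ F
    apply Finset.sum_bij (fun w _ => e.symm (w - v0))
    · intro w hw; exact (hmem w).mp hw
    · intro w _ w' _ hww
      have := e.symm.injective hww
      exact sub_left_injective this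
    · intro v hv
      refine ⟨e v + v0, ?_, hinv2 v⟩
      rw [hmem, hinv2]
      exact hv
    · intro w _; rfl
  refine ⟨ψ', c', ?_, ?_, ?_⟩
  · intro p hp q hq
    rw [hval, g1 _ ((hmem p).mp hp) _ ((hmem q).mp hq)]
    by_cases hpq : p = q
    · rw [if_pos hpq, if_pos (by rw [hpq])]
    · rw [if_neg hpq, if_neg]
      intro h5
      exact hpq (sub_left_injective (e.symm.injective h5))
  · intro v
    have h5 : ∀ p ∈ C', ψ' p v + c' p = (fun q => ψ q (e.symm (v - v0)) + c q) (e.symm (p - v0)) :=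
      fun p _ => hval p v
    rw [Finset.sum_congr rfl h5, hsum (fun q => ψ q (e.symm (v - v0)) + c q)]
    exact g2 _
  · intro v
    have h5 : ∀ p ∈ C', (ψ' p v + c' p) • p
        = (fun q => (ψ q (e.symm (v - v0)) + c q) • (e q + v0)) (e.symm (p - v0)) := by
      intro p _
      show (ψ' p v + c' p) • p
        = (ψ (e.symm (p - v0)) (e.symm (v - v0)) + c (e.symm (p - v0)))
          • (e (e.symm (p - v0)) + v0)
      rw [hval]
      congr 1
      simp
    rw [Finset.sum_congr rfl h5, hsum (fun q => (ψ q (e.symm (v - v0)) + c q) • (e q + v0))]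
    show ∑ p ∈ C, (ψ p (e.symm (v - v0)) + c p) • (e p + v0) = v
    have h6 : ∀ p ∈ C, (ψ p (e.symm (v - v0)) + c p) • (e p + v0)
        = e ((ψ p (e.symm (v - v0)) + c p) • p) + (ψ p (e.symm (v - v0)) + c p) • v0 := by
      intro p _
      rw [smul_add, map_zsmul]
    rw [Finset.sum_congr rfl h6, Finset.sum_add_distrib, ← map_sum, g3, ← Finset.sum_smul, g2]
    simp

end AFF_

theorem aff_proof : Stmt_AFF := by
  intro Λ Λ' _ _ e v0 A A' ω h
  have hinv : ∀ w : Λ', e (e.symm (w - v0)) + v0 = w := by intro w; simp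
  have h' : ∀ w : Λ', e.symm w + -(e.symm v0) ∈ A ↔ w ∈ A' := by
    intro w
    have h1 : e.symm w + -(e.symm v0) = e.symm (w - v0) := by
      rw [map_sub, sub_eq_add_neg]
    rw [h1, ← h, hinv]
  have h2 : (fun w : Λ' => (fun v => ω (e v + v0)) (e.symm (w - v0))) = ω := by
    funext w
    show ω (e (e.symm (w - v0)) + v0) = ω w
    rw [hinv]
  have h3 : (fun v : Λ => ω (e.symm.symm (v - -(e.symm v0)))) = fun v => ω (e v + v0) := by
    funext v
    have : e.symm.symm (v - -(e.symm v0)) = e v + v0 := by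
      show e (v - -(e.symm v0)) = _
      rw [sub_neg_eq_add, map_add, e.apply_symm_apply]
    rw [this]
  constructor
  · constructor
    · intro h4
      have h5 := AFF_.rf_push e.symm (-(e.symm v0)) h' ω h4
      rw [h3] at h5
      exact h5
    · intro h4
      have h5 := AFF_.rf_push e v0 h (fun v => ω (e v + v0)) h4
      rw [h2] at h5
      exact h5
  · constructor
    · intro h4
      have h5 := AFF_.rlw_push e.symm (-(e.symm v0)) h' ω h4
      rw [h3] at h5
      exact h5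
    · intro h4
      have h5 := AFF_.rlw_push e v0 h (fun v => ω (e v + v0)) h4
      rw [h2] at h5
      exact h5

end LHR
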