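import Pool.Agent.LHR.Stmts

/-!
Squad LHR (MP_74b890_co), module COA: a subdivision given by a convex piecewise affine function,
refined on its cells.
-/

namespace LHR

open Pool.Agent.LHT

theorem coa_proof : Stmt_COA := by
  classical
  intro Λ _ n S T φ b ω₀ ω₁ hle hT hcov hR
  refine refinement S ω₀ ω₁ ?_
  intro φ' b' hle' hs
  have hne : (contact S ω₀ φ' b').Nonempty := by
    by_contra hne
    rw [Finset.not_nonempty_iff_eq_empty] at hne
    rw [hne] at hs
    have h1 := (hs 0 1 (fun v hv => absurd hv (Finset.notMem_empty v))).2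
    exact one_ne_zero h1
  obtain ⟨i, hi⟩ := hcov _ contact_subset hne
  have h1 : ∑ v ∈ contact S ω₀ φ' b', ((φ' - φ i) v + (b' - b i)) ≤ 0 := by
    apply hi
    intro v hv
    obtain ⟨hvS, hv2⟩ := (hT i v).mp hv
    have h2 := hle' v hvS
    have h3 : (φ' - φ i) v = φ' v - φ i v := rfl
    rw [h3]
    linarith
  have h2 : ∀ v ∈ contact S ω₀ φ' b', 0 ≤ (φ' - φ i) v + (b' - b i) := by
    intro v hv
    obtain ⟨hvS, hv2⟩ := mem_contact.mp hv
    have h3 : (φ' - φ i) v = φ' v - φ i v := rfl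
    have h4 := hle i v hvS
    rw [h3]
    linarith
  have h3 : ∀ v ∈ contact S ω₀ φ' b', (φ' - φ i) v + (b' - b i) = 0 :=
    (Finset.sum_eq_zero_iff_of_nonneg h2).mp (le_antisymm h1 (Finset.sum_nonneg h2))
  obtain ⟨h4, h5⟩ := hs _ _ h3
  have h6 : contact S ω₀ φ' b' = T i := by
    ext v
    rw [mem_contact, hT i v, sub_eq_zero.mp h4, sub_eq_zero.mp h5]
  rw [h6]
  exact hR i

end LHR
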