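import Pool.Agent.LHR.Stmts

/-!
Squad LHR, module CUT: cutting along a hyperplane whose section is a lattice triangle.
-/

namespace LHR

open Pool.Agent.LHT

theorem cut_proof (hFAC : Stmt_FAC) : Stmt_CUT := by
  intro Λ _ S A S₁ S₂ W f c V g e D hS₁ hS₂ hW hV hg hD hid hA hneg hE₁ hE₂ ω hω
  classical
  obtain ⟨v₀, hv₀S, hv₀⟩ := hneg
  have hWS₁ : ∀ v, v ∈ W → v ∈ S₁ := by
    intro v hv
    rw [hW] at hv
    rw [hS₁]
    exact ⟨hv.1, hv.2.le⟩
  -- (a)
  have key : ∀ (χ : Λ →+ ℝ) (d : ℝ), (∀ v ∈ W, χ v + d = 0) →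
      ∃ r : ℝ, ∀ v, χ v + d = r * ((f v + c : ℤ) : ℝ) := by
    intro χ d hχ
    obtain ⟨r, hr⟩ := hid χ d
    refine ⟨r, fun v => ?_⟩
    rw [hr v]
    have : ∑ j, ((g j v + e j : ℤ) : ℝ) / (D j : ℝ) * (χ (V j) + d) = 0 := by
      apply Finset.sum_eq_zero
      intro j _
      rw [hχ _ (hV j), mul_zero]
    rw [this, zero_add]
  have hspan : Spans S₁ := by
    intro χ d hχ
    obtain ⟨r, hr⟩ := key χ d (fun v hv => hχ v (hWS₁ v hv))
    have h1 := hχ v₀ (by rw [hS₁]; exact ⟨hv₀S, hv₀.le⟩)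
    rw [hr v₀] at h1
    have h2 : ((f v₀ + c : ℤ) : ℝ) ≠ 0 := by
      exact_mod_cast hv₀.ne
    have h3 : r = 0 := (mul_eq_zero.mp h1).resolve_right h2
    have h4 : ∀ v, χ v + d = 0 := by
      intro v
      rw [hr v, h3, zero_mul]
    have h5 : d = 0 := by
      have := h4 0
      rw [map_zero, zero_add] at this
      exact this
    refine ⟨?_, h5⟩
    ext v
    have := h4 v
    rw [h5, add_zero] at this
    rw [this]
    rfl
  -- (b)
  obtain ⟨ω₁, hω₁, hω₁A⟩ := hE₁ ω hω
  have hRF₁ : RF S₁ ω₁ := RF_of_RLw hω₁ hspan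
  have hRFW : RF W ω₁ := by
    refine hFAC Λ S₁ W (-f) (-c) ω₁ ?_ ?_ ?_ ?_ hRF₁
    · intro v hv
      rw [hS₁] at hv
      show 0 ≤ -(f v) + -c
      have := hv.2
      omega
    · intro v
      rw [hW, hS₁]
      show _ ↔ _ ∧ -(f v) + -c = 0
      constructor
      · rintro ⟨h1, h2⟩
        exact ⟨⟨h1, h2.le⟩, by omega⟩
      · rintro ⟨⟨h1, h2⟩, h3⟩
        exact ⟨h1, by omega⟩
    · refine ⟨v₀, ?_, ?_⟩
      · rw [hS₁]
        exact ⟨hv₀S, hv₀.le⟩
      · show 0 < -(f v₀) + -c
        omega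
    · intro χ d hχ
      obtain ⟨r, hr⟩ := key χ d hχ
      refine ⟨-r, fun v _ => ?_⟩
      rw [hr v]
      show _ = -r * ((-(f v) + -c : ℤ) : ℝ)
      push_cast
      ring
  obtain ⟨ω₂, hω₂, hω₂W⟩ := hE₂ ω₁ hRFW
  set ω₁₂ : Λ → ℝ := fun v => if f v + c ≤ 0 then ω₁ v else ω₂ v with hω₁₂
  have hR1 : RLw S₁ ω₁₂ := by
    apply hω₁.congr
    intro v hv
    rw [hS₁] at hv
    show _ = (if f v + c ≤ 0 then ω₁ v else ω₂ v)
    rw [if_pos hv.2]
  have hR2 : RLw S₂ ω₁₂ := by
    apply hω₂.congr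
    intro v hv
    rw [hS₂] at hv
    show _ = (if f v + c ≤ 0 then ω₁ v else ω₂ v)
    by_cases h : f v + c ≤ 0
    · rw [if_pos h]
      apply hω₂W
      rw [hW]
      exact ⟨hv.1, le_antisymm h hv.2⟩
    · rw [if_neg h]
  -- (c)
  set ω₀ : Λ → ℝ := fun v => max 0 ((f v + c : ℤ) : ℝ) with hω₀
  have hω₀neg : ∀ v, f v + c ≤ 0 → ω₀ v = 0 := by
    intro v hv
    show max 0 ((f v + c : ℤ) : ℝ) = 0
    apply max_eq_left
    exact_mod_cast hv
  have hω₀pos : ∀ v, 0 ≤ f v + c → ω₀ v = ((f v + c : ℤ) : ℝ) := by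
    intro v hv
    show max 0 ((f v + c : ℤ) : ℝ) = _
    apply max_eq_right
    exact_mod_cast hv
  obtain ⟨M₀, hM₀⟩ := refinement S ω₀ ω₁₂ (by
    intro φ b hle hs
    by_cases c1 : ∀ v ∈ contact S ω₀ φ b, f v + c ≤ 0
    · have h1 := hs φ b (by
        intro v hv
        rw [(mem_contact.mp hv).2]
        exact hω₀neg v (c1 v hv))
      have h2 : contact S ω₀ φ b = S₁ := by
        ext v
        rw [mem_contact, hS₁, h1.1, h1.2]
        constructor
        · rintro ⟨h3, h4⟩
          refine ⟨h3, ?_⟩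
          by_contra h5
          push Not at h5
          rw [hω₀pos v h5.le] at h4
          have h6 : (0 : ℝ) + 0 = ((f v + c : ℤ) : ℝ) := h4
          rw [add_zero] at h6
          have h7 : (0 : ℤ) = f v + c := by exact_mod_cast h6
          omega
        · rintro ⟨h3, h4⟩
          refine ⟨h3, ?_⟩
          rw [hω₀neg v h4]
          show (0 : ℝ) + 0 = 0
          rw [add_zero]
      rw [h2]
      exact hR1
    · by_cases c2 : ∀ v ∈ contact S ω₀ φ b, 0 ≤ f v + c
      · have h1 := hs (φ - toR f) (b - c) (by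
          intro v hv
          have h3 := (mem_contact.mp hv).2
          rw [hω₀pos v (c2 v hv)] at h3
          show φ v - ((f v : ℤ) : ℝ) + (b - c) = 0
          push_cast at h3
          linarith)
        have h2 : contact S ω₀ φ b = S₂ := by
          ext v
          have h5 : φ v + b = ((f v + c : ℤ) : ℝ) := by
            have h6 : φ v - ((f v : ℤ) : ℝ) = 0 := by
              have := congrArg (fun F : Λ →+ ℝ => F v) h1.1
              exact this
            push_cast
            linarith [h1.2]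
          rw [mem_contact, hS₂, h5]
          constructor
          · rintro ⟨h3, h4⟩
            refine ⟨h3, ?_⟩
            by_contra h7
            push Not at h7
            rw [hω₀neg v h7.le] at h4
            have h8 : f v + c = 0 := by exact_mod_cast h4
            omega
          · rintro ⟨h3, h4⟩
            exact ⟨h3, (hω₀pos v h4).symm⟩
        rw [h2]
        exact hR2
      · exfalso
        push Not at c1 c2
        obtain ⟨q, hq, hq'⟩ := c1
        obtain ⟨p, hp, hp'⟩ := c2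
        rw [mem_contact] at hq hp
        have e1 := hq.2
        have e2 := hp.2
        rw [hω₀pos q hq'.le] at e1
        rw [hω₀neg p hp'.le] at e2
        obtain ⟨r, hr⟩ := hid φ b
        have hp'' : ((f p + c : ℤ) : ℝ) < 0 := by exact_mod_cast hp'
        have hq'' : (0 : ℝ) < ((f q + c : ℤ) : ℝ) := by exact_mod_cast hq'
        set P : ℝ := ((f p + c : ℤ) : ℝ) with hP
        set Q : ℝ := ((f q + c : ℤ) : ℝ) with hQ
        have h1 : Q * (φ p + b) - P * (φ q + b) =
            ∑ j, (Q * ((g j p + e j : ℤ) : ℝ) - P * ((g j q + e j : ℤ) : ℝ)) / (D j : ℝ)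
              * (φ (V j) + b) := by
          have e3 := hr p
          have e4 := hr q
          rw [e3, e4]
          have e5 : ∑ j, (Q * ((g j p + e j : ℤ) : ℝ) - P * ((g j q + e j : ℤ) : ℝ)) / (D j : ℝ)
              * (φ (V j) + b) = Q * ∑ j, ((g j p + e j : ℤ) : ℝ) / (D j : ℝ) * (φ (V j) + b)
              - P * ∑ j, ((g j q + e j : ℤ) : ℝ) / (D j : ℝ) * (φ (V j) + b) := by
            rw [Finset.mul_sum, Finset.mul_sum, ← Finset.sum_sub_distrib]
            apply Finset.sum_congr rfl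
            intro j _
            ring
          rw [e5]
          ring
        have h2 : ∑ j, (Q * ((g j p + e j : ℤ) : ℝ) - P * ((g j q + e j : ℤ) : ℝ)) / (D j : ℝ)
              * (φ (V j) + b) ≤ 0 := by
          apply Finset.sum_nonpos
          intro j _
          apply mul_nonpos_of_nonneg_of_nonpos
          · apply div_nonneg
            · have g1 : (0 : ℝ) ≤ ((g j p + e j : ℤ) : ℝ) := by exact_mod_cast hg j p hp.1
              have g2 : (0 : ℝ) ≤ ((g j q + e j : ℤ) : ℝ) := by exact_mod_cast hg j q hq.1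
              have g3 := mul_nonneg hq''.le g1
              have g4 := mul_nonneg (neg_nonneg.mpr hp''.le) g2
              linarith
            · exact_mod_cast (hD j).le
          · have g5 := (hW (V j)).mp (hV j)
            have g6 := hle (V j) g5.1
            rw [hω₀neg (V j) g5.2.le] at g6
            exact g6
        rw [e1, e2, mul_zero, zero_sub] at h1
        have h3 : 0 < -(P * Q) := by
          have := mul_pos (neg_pos.mpr hp'') hq''
          linarith
        linarith)
  -- (d)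
  refine ⟨fun v => M₀ * ω₀ v + ω₁₂ v, hM₀ M₀ le_rfl, ?_⟩
  intro v hv
  have h1 := hA hv
  rw [hS₁] at h1
  show M₀ * ω₀ v + (if f v + c ≤ 0 then ω₁ v else ω₂ v) = ω v
  rw [hω₀neg v h1.2, if_pos h1.2, mul_zero, zero_add]
  exact hω₁A v hv

end LHR
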