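import Pool.Agent.LHR.Stmts

set_option autoImplicit false

namespace LHR

open Pool.Agent.LHT

/-- cover lemma for the polytope of `UQL` -/
theorem cvu_proof : Stmt_CVU := by
  intro h U C hh h0 h1 h2 h3 h4 hR hRP hPn hPQ hsum ψ d hψ
  have hh' : (1 : ℝ) ≤ (h : ℝ) := by exact_mod_cast hh
  have hpos : (0 : ℝ) < (h : ℝ) := by linarith
  set α := ψ ((1, 0), 0) with hα
  set β := ψ ((0, 1), 0) with hβ
  set γ := ψ ((0, 0), 1) with hγ
  have f0 := hψ _ h0
  have f1 := hψ _ h1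
  have f2 := hψ _ h2
  have f3 := hψ _ h3
  have f4 := hψ _ h4
  rw [hom3, ← hα, ← hβ, ← hγ] at f0 f1 f2 f3 f4
  push_cast at f0 f1 f2 f3 f4
  set P : ℝ := ((∑ v ∈ C, v.1.1 : ℤ) : ℝ) with hP
  set Q : ℝ := ((∑ v ∈ C, v.1.2 : ℤ) : ℝ) with hQ
  set R : ℝ := ((∑ v ∈ C, v.2 : ℤ) : ℝ) with hRd
  set n : ℝ := ((C.card : ℤ) : ℝ) with hn
  have g1 : 0 ≤ R := by rw [hRd]; exact_mod_cast hR
  have g2 : R ≤ h * P := by rw [hRd, hP]; exact_mod_cast hRP
  have g3 : P ≤ n := by rw [hP, hn]; exact_mod_cast hPn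
  have g4 : P ≤ Q := by rw [hP, hQ]; exact_mod_cast hPQ
  have g5 : P + Q + R ≤ (h + 2) * n := by rw [hP, hQ, hRd, hn]; exact_mod_cast hsum
  have hS : ∑ v ∈ C, (ψ v + d) = α * P + β * Q + γ * R + d * n := by
    have e1 : ∀ v ∈ C, ψ v + d = (v.1.1 : ℝ) * α + (v.1.2 : ℝ) * β + (v.2 : ℝ) * γ + d := by
      intro v _; rw [hom3, ← hα, ← hβ, ← hγ]
    rw [Finset.sum_congr rfl e1, Finset.sum_add_distrib, Finset.sum_add_distrib,
      Finset.sum_add_distrib, ← Finset.sum_mul, ← Finset.sum_mul, ← Finset.sum_mul,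
      Finset.sum_const, nsmul_eq_mul, hP, hQ, hRd, hn]
    push_cast
    ring
  rw [hS]
  set ρ := R / h with hρ
  have hρ1 : ρ * h = R := by rw [hρ]; field_simp
  have hρ0 : 0 ≤ ρ := div_nonneg g1 hpos.le
  have hρP : ρ ≤ P := by rw [hρ, div_le_iff₀ hpos]; linarith
  have k4 := mul_nonneg hρ0 (neg_nonneg.2 f4)
  have k2 := mul_nonneg (sub_nonneg.2 hρP) (neg_nonneg.2 f2)
  have k3 := mul_nonneg (sub_nonneg.2 hρP) (neg_nonneg.2 f3)
  have k0 := mul_nonneg (sub_nonneg.2 g3) (neg_nonneg.2 f0)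
  have k1 := mul_nonneg (sub_nonneg.2 g3) (neg_nonneg.2 f1)
  have hA : α * P + β * P + γ * R + d * n ≤ 0 := by
    have e : α * P + β * P + γ * R + d * n =
      ρ * (α + β + h * γ + d) + (P - ρ) * (α + β + d) + (n - P) * d := by
      rw [← hρ1]; ring
    rw [e]
    nlinarith
  have hB : α * P + β * ((h + 2) * n - P - R) + γ * R + d * n ≤ 0 := by
    have e : α * P + β * ((h + 2) * n - P - R) + γ * R + d * n =
      ρ * (α + β + h * γ + d) + (P - ρ) * (α + (h + 1) * β + d) +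
        (n - P) * ((h + 2) * β + d) := by
      rw [← hρ1]; ring
    rw [e]
    nlinarith
  rcases le_total 0 β with hb | hb
  · have : β * Q ≤ β * ((h + 2) * n - P - R) := mul_le_mul_of_nonneg_left (by linarith) hb
    linarith
  · have : β * Q ≤ β * P := mul_le_mul_of_nonpos_left g4 hb
    linarith

end LHR
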