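import Pool.Agent.LHR.Stmts

set_option autoImplicit false

/-!
Module D2L: lecture hall triangles have regular unimodular triangulations (by Euclid's algorithm
from the rules of LHT).
-/

namespace LHR

open Pool.Agent.LHT

namespace D2L_

theorem pos1 {b : ℕ} (hb : 0 < b) : ∀ i : Fin 1, 0 < (![b] : Fin 1 → ℕ) i := by
  intro i
  have hi : i = 0 := Subsingleton.elim _ _
  rw [hi]
  exact hb

theorem one (b : ℕ) : RL (LH (![b] : Fin 1 → ℕ)) := by
  have h := RL_insert (0 : Fin 1) (fun i : Fin 0 => i.elim0) (fun i => i.elim0) b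
    (RL_zero _)
  have e : insS (0 : Fin 1) (b * Nat.lcm (lft (fun i : Fin 0 => i.elim0) (0 : Fin 1))
      (rgt (fun i : Fin 0 => i.elim0) (0 : Fin 1))) (fun i : Fin 0 => i.elim0)
      = (![b] : Fin 1 → ℕ) := by
    funext i
    have hi : i = 0 := Subsingleton.elim (α := Fin 1) _ _
    rw [hi, insS_same]
    have h1 : lft (fun i : Fin 0 => i.elim0) (0 : Fin 1) = 1 := by
      unfold lft
      rw [dif_neg (by simp)]
    have h2 : rgt (fun i : Fin 0 => i.elim0) (0 : Fin 1) = 1 := by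
      unfold rgt
      rw [dif_neg (by simp)]
    rw [h1, h2]
    simp
  rw [e] at h
  exact h

theorem ins0 (m b : ℕ) : insS (0 : Fin 2) m (![b] : Fin 1 → ℕ) = ![m, b] := by
  funext i
  refine Fin.succAboveCases (0 : Fin 2) ?_ (fun i => ?_) i
  · rw [insS_same]
    rfl
  · rw [insS_succ]
    have hi : i = 0 := Subsingleton.elim _ _
    rw [hi]
    rfl

theorem ins1 (m b : ℕ) : insS (1 : Fin 2) m (![b] : Fin 1 → ℕ) = ![b, m] := by
  funext i
  refine Fin.succAboveCases (1 : Fin 2) ?_ (fun i => ?_) i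
  · rw [insS_same]
    rfl
  · rw [insS_succ]
    have hi : i = 0 := Subsingleton.elim _ _
    rw [hi]
    rfl

theorem lft0 (b : ℕ) : lft (![b] : Fin 1 → ℕ) 0 = 1 := by
  unfold lft
  rw [dif_neg (by simp)]

theorem rgt0 (b : ℕ) : rgt (![b] : Fin 1 → ℕ) 0 = b := by
  unfold rgt
  rw [dif_pos (by simp)]
  rfl

theorem lft1 (b : ℕ) : lft (![b] : Fin 1 → ℕ) 1 = b := by
  unfold lft
  rw [dif_pos (by simp)]
  rfl

theorem rgt1 (b : ℕ) : rgt (![b] : Fin 1 → ℕ) 1 = 1 := by
  unfold rgt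
  rw [dif_neg (by simp)]

theorem diag {b : ℕ} (hb : 0 < b) : RL (LH (![b, b] : Fin 2 → ℕ)) := by
  have h := RL_insert (1 : Fin 2) (![b] : Fin 1 → ℕ) (pos1 hb) 1 (one b)
  rw [lft1, rgt1, Nat.lcm_one_right, one_mul, ins1] at h
  exact h

theorem step {m b : ℕ} (hm : 0 < m) (hb : 0 < b) (h : RL (LH (![m, b] : Fin 2 → ℕ))) :
    RL (LH (![m + b, b] : Fin 2 → ℕ)) := by
  rw [← ins0] at h
  have h1 := RL_increase (0 : Fin 2) (![b] : Fin 1 → ℕ) (pos1 hb) m 1 hm
    (by rw [lft0]; exact one_dvd _) h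
  rw [lft0, rgt0, Nat.lcm_one_left, one_mul, ins0] at h1
  exact h1

theorem swap {a b : ℕ} (h : RL (LH (![a, b] : Fin 2 → ℕ))) : RL (LH (![b, a] : Fin 2 → ℕ)) := by
  have h1 := RL_rev _ h
  have e : (fun i : Fin 2 => (![a, b] : Fin 2 → ℕ) i.rev) = ![b, a] := by
    funext i
    fin_cases i <;> rfl
  rw [e] at h1
  exact h1

theorem main : ∀ (N a b : ℕ), a + b ≤ N → 0 < a → 0 < b → RL (LH (![a, b] : Fin 2 → ℕ)) := by
  intro N
  induction N with
  | zero => intro a b h1 h2 h3; omega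
  | succ N ih =>
    have key : ∀ a b : ℕ, a + b ≤ N + 1 → 0 < a → 0 < b → b < a →
        RL (LH (![a, b] : Fin 2 → ℕ)) := by
      intro a b h1 h2 h3 h4
      have h5 := step (m := a - b) (by omega) h3 (ih (a - b) b (by omega) (by omega) h3)
      rw [Nat.sub_add_cancel h4.le] at h5
      exact h5
    intro a b h1 h2 h3
    rcases Nat.lt_trichotomy a b with h4 | h4 | h4
    · exact swap (key b a (by omega) h3 h2 h4)
    · rw [h4]
      exact diag h3
    · exact key a b h1 h2 h3 h4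

/-- coordinates of the plane -/
def crd : (Fin 2 → ℤ) ≃+ ℤ × ℤ where
  toFun x := (x 0, x 1)
  invFun v := ![v.1, v.2]
  left_inv x := by
    funext i
    fin_cases i <;> rfl
  right_inv v := rfl
  map_add' x y := rfl

end D2L_

theorem d2l_proof : Stmt_D2L := by
  intro a b B ha hb hB
  obtain ⟨a, rfl⟩ := Int.eq_ofNat_of_zero_le (by omega : 0 ≤ a)
  obtain ⟨b, rfl⟩ := Int.eq_ofNat_of_zero_le (by omega : 0 ≤ b)
  have h := D2L_.main (a + b) a b le_rfl (by omega) (by omega)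
  refine RL_affine D2L_.crd 0 ?_ h
  intro v
  rw [add_zero, hB, mem_LH]
  have e1 : (D2L_.crd v).1 = v 0 := rfl
  have e2 : (D2L_.crd v).2 = v 1 := rfl
  rw [e1, e2]
  constructor
  · rintro ⟨h1, h2, h3⟩
    have h4 : 0 ≤ v 1 := by
      have h5 : 0 ≤ (a : ℤ) * v 1 := le_trans (mul_nonneg (by omega) h1) h2
      exact nonneg_of_mul_nonneg_right h5 (by omega)
    have h6 : v 0 ≤ a := by
      have h7 : (b : ℤ) * v 0 ≤ (b : ℤ) * a := by nlinarith
      exact le_of_mul_le_mul_left h7 (by omega)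
    constructor
    · intro i
      fin_cases i
      · exact ⟨h1, h6⟩
      · exact ⟨h4, h3⟩
    · intro i j hij
      fin_cases i <;> fin_cases j
      · exact absurd hij (lt_irrefl _)
      · show v 0 * (b : ℤ) ≤ v 1 * (a : ℤ)
        linarith
      · exact absurd hij (by decide)
      · exact absurd hij (lt_irrefl _)
  · rintro ⟨h1, h2⟩
    have h3 := h1 0
    have h4 := h1 1
    have h5 : v 0 * (b : ℤ) ≤ v 1 * (a : ℤ) := h2 0 1 (by decide)
    have h6 : v 1 ≤ (b : ℤ) := h4.2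
    exact ⟨h3.1, by linarith, h6⟩

end LHR
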