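import Pool.Agent.LHR.Stmts

set_option autoImplicit false

namespace LHR

open Pool.Agent.LHT

namespace EXC_

section
variable {Y : Type} [AddCommGroup Y]

/-- the reflected shear `(y, t) ↦ (y, γ y - t)` -/
def refl (γ : Y →+ ℤ) : (Y × ℤ) ≃+ (Y × ℤ) where
  toFun v := (v.1, γ v.1 - v.2)
  invFun v := (v.1, γ v.1 - v.2)
  left_inv v := by
    apply Prod.ext
    · rfl
    · show γ v.1 - (γ v.1 - v.2) = v.2
      ring
  right_inv v := by
    apply Prod.ext
    · rfl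
    · show γ v.1 - (γ v.1 - v.2) = v.2
      ring
  map_add' v w := by
    apply Prod.ext
    · rfl
    · show γ (v.1 + w.1) - (v.2 + w.2) = γ v.1 - v.2 + (γ w.1 - w.2)
      rw [map_add]
      ring

theorem refl_add (γ : Y →+ ℤ) (g : ℤ) (v : Y × ℤ) :
    refl γ v + (0, g) = (v.1, γ v.1 + g - v.2) := by
  apply Prod.ext
  · show v.1 + 0 = v.1
    rw [add_zero]
  · show γ v.1 - v.2 + g = γ v.1 + g - v.2
    ring

end

end EXC_

open EXC_ in
theorem exc_proof (hGRF : Stmt_GRF) (hAFF : Stmt_AFF) : Stmt_EXC := by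
  classical
  intro Y _ hsep B S A lo hi l0 h0 hB hlohi hS hA
  intro ω hω
  have hωB : RLw B (fun y => ω (y, lo y + l0)) := hGRF Y hsep B A lo l0 ω hB hA hω
  obtain ⟨δ, hδ0, hδ⟩ := exists_delta B
  set S' : Finset (Y × ℤ) := S.image (fun v => (v.1, lo v.1 + l0 - v.2)) with hS'
  have hS'mem : ∀ v, v ∈ S' ↔ v.1 ∈ B ∧ -((hi - lo) v.1 + (h0 - l0)) ≤ v.2 ∧ v.2 ≤ 0 := by
    intro v
    have e0 : (hi - lo) v.1 = hi v.1 - lo v.1 := rfl
    rw [hS', Finset.mem_image, e0]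
    constructor
    · rintro ⟨w, hw, rfl⟩
      obtain ⟨h1, h2, h3⟩ := (hS w).mp hw
      refine ⟨h1, ?_, ?_⟩
      · dsimp only
        linarith
      · dsimp only
        linarith
    · rintro ⟨h1, h2, h3⟩
      refine ⟨(v.1, lo v.1 + l0 - v.2), ?_, ?_⟩
      · rw [hS]
        refine ⟨h1, ?_, ?_⟩
        · dsimp only
          linarith
        · dsimp only
          linarith
      · apply Prod.ext
        · rfl
        · dsimp only
          ring
  obtain ⟨M₀, hM⟩ := low B (fun y => ω (y, lo y + l0)) hωB (hi - lo) (h0 - l0) (by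
    intro y hy
    have h1 := hlohi y hy
    have e0 : (hi - lo) y = hi y - lo y := rfl
    rw [e0]
    linarith) δ hδ0 hδ S' hS'mem
  set M : ℝ := max M₀ 1 with hMdef
  have hMpos : 0 < M := lt_of_lt_of_le one_pos (le_max_right _ _)
  have hlow := (hM M (le_max_left _ _)).scale (inv_pos.mpr hMpos)
  set ω' : Y × ℤ → ℝ := fun v =>
    M⁻¹ * (M * ω (v.1, lo v.1 + l0) + ((v.2 : ℝ) ^ 2 + δ v.1 * v.2)) with hω'
  have hlow' : RLw S' ω' := hlow
  have hT : ∀ v, refl lo v + (0, l0) ∈ S' ↔ v ∈ S := by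
    intro v
    have e0 : (hi - lo) v.1 = hi v.1 - lo v.1 := rfl
    rw [refl_add, hS'mem, hS]
    dsimp only
    rw [e0]
    constructor
    · rintro ⟨h1, h2, h3⟩
      exact ⟨h1, by linarith, by linarith⟩
    · rintro ⟨h1, h2, h3⟩
      exact ⟨h1, by linarith, by linarith⟩
  have h5 := (hAFF (Y × ℤ) (Y × ℤ) (refl lo) (0, l0) S S' ω' hT).2.mp hlow'
  refine ⟨_, h5, ?_⟩
  intro v hv
  obtain ⟨h1, h2⟩ := (hA v).mp hv
  rw [refl_add, h2]
  have e1 : v = (v.1, lo v.1 + l0) := Prod.ext rfl h2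
  have e2 : ω v = ω (v.1, lo v.1 + l0) := congrArg ω e1
  rw [e2, hω']
  dsimp only
  rw [sub_self]
  push_cast
  rw [zero_pow two_ne_zero, mul_zero, add_zero, add_zero, inv_mul_cancel_left₀ hMpos.ne']

end LHR
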