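import Pool.Agent.LHR.Stmts

/-!
Module F31 of squad LHR: chimney over the last facet.
-/

namespace LHR

open Pool.Agent.LHT

namespace F31_

/-- the shear `((x,y),z) ↦ ((x,y),z+y)` -/
def sh : V3 ≃+ V3 where
  toFun v := (v.1, v.2 + v.1.2)
  invFun v := (v.1, v.2 - v.1.2)
  left_inv := by
    rintro ⟨⟨x, y⟩, z⟩
    simp
  right_inv := by
    rintro ⟨⟨x, y⟩, z⟩
    simp
  map_add' := by
    rintro ⟨⟨x, y⟩, z⟩ ⟨⟨x', y'⟩, z'⟩
    ext <;> simp
    ring

theorem sh_apply (v : V3) : sh v = (v.1, v.2 + v.1.2) := rfl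

theorem le_b {a b c x y z : ℤ} (_ha : 1 ≤ a) (hb : 1 ≤ b) (hc : 1 ≤ c)
    (h : PP a b c ((x, y), z)) : y ≤ b := by
  obtain ⟨-, -, h3, h4⟩ := h
  simp only at h3 h4
  have h5 : c * y ≤ c * b := by nlinarith
  exact le_of_mul_le_mul_left h5 (by omega)

/-- the base of the chimney -/
theorem mem_B {a b c : ℤ} (ha : 1 ≤ a) (hb : 1 ≤ b) (hc : 1 ≤ c) (S : Finset V3)
    (hS : ∀ v, v ∈ S ↔ PP a b c v) (w : ℤ × ℤ) :
    w ∈ S.image Prod.fst ↔ 0 ≤ w.1 ∧ b * w.1 ≤ a * w.2 ∧ w.2 ≤ b := by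
  rw [Finset.mem_image]
  constructor
  · rintro ⟨⟨⟨x, y⟩, z⟩, hv, rfl⟩
    rw [hS] at hv
    have hy := le_b ha hb hc hv
    obtain ⟨h1, h2, h3, h4⟩ := hv
    exact ⟨h1, h2, hy⟩
  · rintro ⟨h1, h2, h3⟩
    refine ⟨(w, c), ?_, rfl⟩
    rw [hS]
    refine ⟨h1, h2, ?_, le_refl _⟩
    show c * w.2 ≤ b * c
    nlinarith

theorem spans_B {a b : ℤ} (ha : 1 ≤ a) (hb : 1 ≤ b) (B : Finset (ℤ × ℤ))
    (hB : ∀ w, w ∈ B ↔ 0 ≤ w.1 ∧ b * w.1 ≤ a * w.2 ∧ w.2 ≤ b) : Spans B := by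
  intro φ d hφ
  have e1 := hφ (0, 0) ((hB _).2 ⟨le_refl _, by simp, by simpa using (by omega : (0 : ℤ) ≤ b)⟩)
  have e2 := hφ (0, b) ((hB _).2 ⟨le_refl _, by
    show b * 0 ≤ a * b
    nlinarith, le_refl _⟩)
  have e3 := hφ (a, b) ((hB _).2 ⟨by
    show 0 ≤ a
    omega, by
    show b * a ≤ a * b
    rw [mul_comm], le_refl _⟩)
  rw [hom2] at e1 e2 e3
  simp only at e1 e2 e3
  push_cast at e1 e2 e3
  have hd : d = 0 := by linarith
  have hb' : (b : ℝ) ≠ 0 := by
    have : b ≠ 0 := by omega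
    exact_mod_cast this
  have ha' : (a : ℝ) ≠ 0 := by
    have : a ≠ 0 := by omega
    exact_mod_cast this
  have h2 : φ (0, 1) = 0 := by
    have : (b : ℝ) * φ (0, 1) = 0 := by linarith
    exact (mul_eq_zero.mp this).resolve_left hb'
  have h1 : φ (1, 0) = 0 := by
    have : (a : ℝ) * φ (1, 0) = 0 := by
      rw [h2] at e3
      linarith
    exact (mul_eq_zero.mp this).resolve_left ha'
  refine ⟨?_, hd⟩
  ext1 x
  rw [hom2, h1, h2]
  simp

end F31_

open F31_ in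
theorem f31_proof (hCUT : Stmt_CUT) (hEXC : Stmt_EXC) (hAFE : Stmt_AFE) : Stmt_F31 := by
  classical
  intro a b c q ha hb hbc hq hE S A hS hA
  have hc : 1 ≤ c := by omega
  have haR : (a : ℝ) ≠ 0 := by
    have : a ≠ 0 := by omega
    exact_mod_cast this
  have hbR : (b : ℝ) ≠ 0 := by
    have : b ≠ 0 := by omega
    exact_mod_cast this
  have hf : ∀ v : V3, lin 0 (-1) 1 v + -(c - b) = v.2 - v.1.2 - (c - b) := by
    intro v
    rw [lin_apply]
    ring
  have key : ∀ v : V3, q (v.1, v.2 - v.1.2) → v ∈ S ∧ lin 0 (-1) 1 v + -(c - b) ≤ 0 := by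
    rintro ⟨⟨x, y⟩, z⟩ hv
    have h := hq _ hv
    have hy := le_b ha hb (by omega) h
    obtain ⟨h1, h2, h3, h4⟩ := h
    simp only at h1 h2 h3 h4
    refine ⟨(hS _).2 ⟨h1, h2, ?_, ?_⟩, ?_⟩
    · show c * y ≤ b * z
      nlinarith
    · show z ≤ c
      omega
    · rw [hf]
      show z - y - (c - b) ≤ 0
      omega
  refine hCUT V3 S A (S.filter (fun v => lin 0 (-1) 1 v + -(c - b) ≤ 0))
    (S.filter (fun v => 0 ≤ lin 0 (-1) 1 v + -(c - b)))
    (S.filter (fun v => lin 0 (-1) 1 v + -(c - b) = 0)) (lin 0 (-1) 1) (-(c - b))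
    ![((0, 0), c - b), ((0, b), c), ((a, b), c)]
    ![lin 0 (-1) 0, lin (-b) a 0, lin 1 0 0] ![b, 0, 0] ![b, a * b, a]
    (fun v => by rw [Finset.mem_filter]) (fun v => by rw [Finset.mem_filter])
    (fun v => by rw [Finset.mem_filter]) ?_ ?_ ?_ ?_ ?_ ?_ ?_ ?_
  · -- the vertices lie in the wall
    intro j
    fin_cases j
    · show ((0, 0), c - b) ∈ _
      rw [Finset.mem_filter, hS, hf]
      refine ⟨⟨le_refl _, ?_, ?_, ?_⟩, ?_⟩
      · simp
      · show c * 0 ≤ b * (c - b)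
        nlinarith
      · show c - b ≤ c
        omega
      · show c - b - 0 - (c - b) = 0
        ring
    · show ((0, b), c) ∈ _
      rw [Finset.mem_filter, hS, hf]
      refine ⟨⟨le_refl _, ?_, ?_, le_refl _⟩, ?_⟩
      · show b * 0 ≤ a * b
        nlinarith
      · show c * b ≤ b * c
        rw [mul_comm]
      · show c - b - (c - b) = 0
        ring
    · show ((a, b), c) ∈ _
      rw [Finset.mem_filter, hS, hf]
      refine ⟨⟨?_, ?_, ?_, le_refl _⟩, ?_⟩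
      · show 0 ≤ a
        omega
      · show b * a ≤ a * b
        rw [mul_comm]
      · show c * b ≤ b * c
        rw [mul_comm]
      · show c - b - (c - b) = 0
        ring
  · -- the barycentric functions are nonnegative
    intro j v hv
    obtain ⟨⟨x, y⟩, z⟩ := v
    rw [hS] at hv
    have hy := le_b ha hb hc hv
    obtain ⟨h1, h2, h3, h4⟩ := hv
    simp only at h1 h2 h3 h4
    fin_cases j
    · show 0 ≤ lin 0 (-1) 0 ((x, y), z) + b
      rw [lin_apply]
      show 0 ≤ 0 * x + -1 * y + 0 * z + b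
      linarith
    · show 0 ≤ lin (-b) a 0 ((x, y), z) + 0
      rw [lin_apply]
      show 0 ≤ -b * x + a * y + 0 * z + 0
      linarith
    · show 0 ≤ lin 1 0 0 ((x, y), z) + 0
      rw [lin_apply]
      show 0 ≤ 1 * x + 0 * y + 0 * z + 0
      linarith
  · intro j
    fin_cases j
    · show 0 < b
      omega
    · show 0 < a * b
      positivity
    · show 0 < a
      omega
  · -- the identity
    intro ψ d
    refine ⟨ψ ((0, 0), 1), fun v => ?_⟩
    obtain ⟨⟨x, y⟩, z⟩ := v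
    rw [Fin.sum_univ_three, hf]
    show ψ ((x, y), z) + d =
      ((lin 0 (-1) 0 ((x, y), z) + b : ℤ) : ℝ) / (b : ℝ) * (ψ ((0, 0), c - b) + d)
      + ((lin (-b) a 0 ((x, y), z) + 0 : ℤ) : ℝ) / ((a * b : ℤ) : ℝ) * (ψ ((0, b), c) + d)
      + ((lin 1 0 0 ((x, y), z) + 0 : ℤ) : ℝ) / (a : ℝ) * (ψ ((a, b), c) + d)
      + ψ ((0, 0), 1) * ((z - y - (c - b) : ℤ) : ℝ)
    rw [lin_apply, lin_apply, lin_apply, hom3 ψ ((x, y), z), hom3 ψ ((0, 0), c - b),
      hom3 ψ ((0, b), c), hom3 ψ ((a, b), c)]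
    simp only
    push_cast
    field_simp
    ring
  · intro v hv
    rw [hA] at hv
    rw [Finset.mem_filter]
    exact key v hv
  · refine ⟨0, ?_, ?_⟩
    · rw [hS]
      refine ⟨le_refl _, ?_, ?_, ?_⟩
      · show b * 0 ≤ a * 0
        simp
      · show c * 0 ≤ b * 0
        simp
      · show 0 ≤ c
        omega
    · rw [hf]
      show (0 : ℤ) - 0 - (c - b) < 0
      omega
  · -- the small simplex
    have h1 := hAFE sh 0 (PP a b (c - b)) q
      (fun v => PP a b c v ∧ lin 0 (-1) 1 v + -(c - b) ≤ 0) (fun v => q (v.1, v.2 - v.1.2))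
      ?_ ?_ hE
    · refine h1 _ _ ?_ hA
      intro v
      rw [Finset.mem_filter, hS]
    · intro v
      rw [add_zero, sh_apply, hf]
      obtain ⟨⟨x, y⟩, z⟩ := v
      constructor
      · rintro ⟨⟨h1, h2, h3, h4⟩, h5⟩
        simp only at h1 h2 h3 h4 h5
        refine ⟨h1, h2, ?_, ?_⟩
        · show (c - b) * y ≤ b * z
          nlinarith
        · show z ≤ c - b
          omega
      · intro h
        have hy := le_b ha hb (by omega) h
        obtain ⟨h1, h2, h3, h4⟩ := h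
        simp only at h1 h2 h3 h4
        refine ⟨⟨h1, h2, ?_, ?_⟩, ?_⟩
        · show c * y ≤ b * (z + y)
          nlinarith
        · show z + y ≤ c
          omega
        · show z + y - y - (c - b) ≤ 0
          omega
    · intro v
      rw [add_zero, sh_apply]
      show q (v.1, v.2 + v.1.2 - v.1.2) ↔ q v
      rw [add_sub_cancel_right]
  · -- the chimney
    have hB := mem_B ha hb hc S hS
    refine hEXC (ℤ × ℤ) sep_V2 (S.image Prod.fst) _ _ (AddMonoidHom.snd ℤ ℤ) 0 (c - b) c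
      (spans_B ha hb _ hB) ?_ ?_ ?_
    · intro y hy
      rw [hB] at hy
      show y.2 + (c - b) ≤ 0 + c
      omega
    · rintro ⟨⟨x, y⟩, z⟩
      rw [Finset.mem_filter, hS, hB, hf]
      show PP a b c ((x, y), z) ∧ 0 ≤ z - y - (c - b) ↔
        (0 ≤ x ∧ b * x ≤ a * y ∧ y ≤ b) ∧ y + (c - b) ≤ z ∧ z ≤ 0 + c
      constructor
      · rintro ⟨h, h5⟩
        have hy := le_b ha hb hc h
        obtain ⟨h1, h2, h3, h4⟩ := h
        simp only at h1 h2 h3 h4
        exact ⟨⟨h1, h2, hy⟩, by omega, by omega⟩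
      · rintro ⟨⟨h1, h2, h3⟩, h4, h5⟩
        refine ⟨⟨h1, h2, ?_, ?_⟩, by omega⟩
        · show c * y ≤ b * z
          nlinarith
        · show z ≤ c
          omega
    · rintro ⟨⟨x, y⟩, z⟩
      rw [Finset.mem_filter, hS, hB, hf]
      show PP a b c ((x, y), z) ∧ z - y - (c - b) = 0 ↔
        (0 ≤ x ∧ b * x ≤ a * y ∧ y ≤ b) ∧ z = y + (c - b)
      constructor
      · rintro ⟨h, h5⟩
        have hy := le_b ha hb hc h
        obtain ⟨h1, h2, h3, h4⟩ := h
        simp only at h1 h2 h3 h4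
        exact ⟨⟨h1, h2, hy⟩, by omega⟩
      · rintro ⟨⟨h1, h2, h3⟩, h4⟩
        refine ⟨⟨h1, h2, ?_, ?_⟩, by omega⟩
        · show c * y ≤ b * z
          nlinarith
        · show z ≤ c
          omega

end LHR
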