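import Pool.Agent.LHR.Stmts

/-!
Module F32 of squad LHR (MP_74b890_co): the cut for `c < b`.
-/

namespace LHR

open Pool.Agent.LHT

namespace F32_

/-- shear of the second coordinate by the third -/
def e1 : V3 ≃+ V3 where
  toFun v := ((v.1.1, v.1.2 + v.2), v.2)
  invFun v := ((v.1.1, v.1.2 - v.2), v.2)
  left_inv v := by
    show ((v.1.1, v.1.2 + v.2 - v.2), v.2) = v
    rw [add_sub_cancel_right]
  right_inv v := by
    show ((v.1.1, v.1.2 - v.2 + v.2), v.2) = v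
    rw [sub_add_cancel]
  map_add' v w := by
    refine Prod.ext (Prod.ext rfl ?_) rfl
    show v.1.2 + w.1.2 + (v.2 + w.2) = v.1.2 + v.2 + (w.1.2 + w.2)
    ring

/-- shear of the third coordinate by the second -/
def e2 : V3 ≃+ V3 where
  toFun v := (v.1, v.2 + v.1.2)
  invFun v := (v.1, v.2 - v.1.2)
  left_inv v := by
    show (v.1, v.2 + v.1.2 - v.1.2) = v
    rw [add_sub_cancel_right]
  right_inv v := by
    show (v.1, v.2 - v.1.2 + v.1.2) = v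
    rw [sub_add_cancel]
  map_add' v w := by
    refine Prod.ext rfl ?_
    show v.2 + w.2 + (v.1.2 + w.1.2) = v.2 + v.1.2 + (w.2 + w.1.2)
    ring

theorem e1_apply (v : V3) : e1 v + 0 = ((v.1.1, v.1.2 + v.2), v.2) := by
  rw [add_zero]
  rfl

theorem e2_apply (v : V3) : e2 v + 0 = (v.1, v.2 + v.1.2) := by
  rw [add_zero]
  rfl

theorem low_cell {a b c x y z : ℤ} (ha : 1 ≤ a) (hc : 1 ≤ c) (hcb : c < b) :
    (0 ≤ x ∧ (b - c) * x ≤ a * (y - z) ∧ c * (y - z) ≤ (b - c) * z ∧ z ≤ c) ↔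
      ((0 ≤ x ∧ b * x ≤ a * y ∧ c * y ≤ b * z ∧ z ≤ c) ∧
        (b - c) * x + -a * y + a * z ≤ 0) := by
  constructor
  · rintro ⟨h1, h2, h3, h4⟩
    have h5 : c * y ≤ b * z := by linarith
    refine ⟨⟨h1, ?_, h5, h4⟩, by linarith⟩
    have hb : 0 < b := by linarith
    have hbc : 0 < b - c := by linarith
    have h6 : b * ((b - c) * x) ≤ b * (a * (y - z)) := mul_le_mul_of_nonneg_left h2 hb.le
    have h7 : a * (c * y) ≤ a * (b * z) := mul_le_mul_of_nonneg_left h5 (by linarith)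
    have h8 : (b - c) * (b * x) ≤ (b - c) * (a * y) := by nlinarith
    exact le_of_mul_le_mul_left h8 hbc
  · rintro ⟨⟨h1, h2, h3, h4⟩, h5⟩
    exact ⟨h1, by linarith, by linarith, h4⟩

theorem third {a b c x y z : ℤ} (ha : 1 ≤ a) (hc : 1 ≤ c) (hcb : c < b)
    (h1 : (c - b) * x ≤ a * (z - y)) (h2 : b * x ≤ a * y) : c * y ≤ b * z := by
  have hb : 0 < b := by linarith
  have hbc : 0 < b - c := by linarith
  have h6 : b * ((c - b) * x) ≤ b * (a * (z - y)) := mul_le_mul_of_nonneg_left h1 hb.le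
  have h7 : (b - c) * (b * x) ≤ (b - c) * (a * y) := mul_le_mul_of_nonneg_left h2 hbc.le
  have h8 : a * (c * y) ≤ a * (b * z) := by nlinarith
  exact le_of_mul_le_mul_left h8 (by linarith)

end F32_

open F32_ in
theorem f32_proof (hCUT : Stmt_CUT) (hAFE : Stmt_AFE) : Stmt_F32 := by
  intro a b c q ha hc hcb hq hE hG S A hS hA
  set f : V3 →+ ℤ := lin (b - c) (-a) a with hf
  have hfa : ∀ v : V3, f v + 0 = (b - c) * v.1.1 + -a * v.1.2 + a * v.2 := by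
    intro v
    rw [hf, lin_apply, add_zero]
  have hS1 : ∀ v, v ∈ S.filter (fun v => f v + 0 ≤ 0) ↔ v ∈ S ∧ f v + 0 ≤ 0 :=
    fun v => Finset.mem_filter
  have hS2 : ∀ v, v ∈ S.filter (fun v => 0 ≤ f v + 0) ↔ v ∈ S ∧ 0 ≤ f v + 0 :=
    fun v => Finset.mem_filter
  have hW : ∀ v, v ∈ S.filter (fun v => f v + 0 = 0) ↔ v ∈ S ∧ f v + 0 = 0 :=
    fun v => Finset.mem_filter
  have hS1' : ∀ v : V3, v ∈ S.filter (fun v => f v + 0 ≤ 0) ↔
      PP a (b - c) c ((v.1.1, v.1.2 - v.2), v.2) := by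
    intro v
    rw [hS1, hS, hfa]
    exact (low_cell ha hc hcb).symm
  -- the two cells
  have hExt1 : ExtP (fun v => PP a (b - c) c ((v.1.1, v.1.2 - v.2), v.2))
      (fun v => q ((v.1.1, v.1.2 - v.2), v.2)) := by
    refine hAFE e1 0 (PP a (b - c) c) q _ _ ?_ ?_ hE
    · intro v
      rw [e1_apply]
      show PP a (b - c) c ((v.1.1, v.1.2 + v.2 - v.2), v.2) ↔ PP a (b - c) c v
      rw [add_sub_cancel_right]
    · intro v
      rw [e1_apply]
      show q ((v.1.1, v.1.2 + v.2 - v.2), v.2) ↔ q v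
      rw [add_sub_cancel_right]
  have hExt2 : ExtP (fun v => GP a c (c - b) (v.1, v.2 - v.1.2))
      (fun v => GF a c (c - b) (v.1, v.2 - v.1.2)) := by
    refine hAFE e2 0 (GP a c (c - b)) (GF a c (c - b)) _ _ ?_ ?_ hG
    · intro v
      rw [e2_apply]
      show GP a c (c - b) (v.1, v.2 + v.1.2 - v.1.2) ↔ GP a c (c - b) v
      rw [add_sub_cancel_right]
    · intro v
      rw [e2_apply]
      show GF a c (c - b) (v.1, v.2 + v.1.2 - v.1.2) ↔ GF a c (c - b) v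
      rw [add_sub_cancel_right]
  have hCell2 : ∀ v : V3, v ∈ S.filter (fun v => 0 ≤ f v + 0) ↔
      GP a c (c - b) (v.1, v.2 - v.1.2) := by
    intro v
    rw [hS2, hS, hfa]
    show ((0 ≤ v.1.1 ∧ b * v.1.1 ≤ a * v.1.2 ∧ c * v.1.2 ≤ b * v.2 ∧ v.2 ≤ c) ∧
      0 ≤ (b - c) * v.1.1 + -a * v.1.2 + a * v.2) ↔
      (0 ≤ v.1.1 ∧ v.1.2 + (v.2 - v.1.2) ≤ c ∧ (c - b) * v.1.1 ≤ a * (v.2 - v.1.2) ∧
        (c - (c - b)) * v.1.1 ≤ a * v.1.2)
    constructor
    · rintro ⟨⟨h1, h2, h3, h4⟩, h5⟩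
      exact ⟨h1, by linarith, by linarith, by linarith⟩
    · rintro ⟨h1, h2, h3, h4⟩
      have h5 : b * v.1.1 ≤ a * v.1.2 := by linarith
      exact ⟨⟨h1, h5, third ha hc hcb h3 h5, by linarith⟩, by linarith⟩
  have hWall : ∀ v : V3, v ∈ S.filter (fun v => f v + 0 = 0) ↔
      GF a c (c - b) (v.1, v.2 - v.1.2) := by
    intro v
    rw [hW, hS, hfa]
    show ((0 ≤ v.1.1 ∧ b * v.1.1 ≤ a * v.1.2 ∧ c * v.1.2 ≤ b * v.2 ∧ v.2 ≤ c) ∧
      (b - c) * v.1.1 + -a * v.1.2 + a * v.2 = 0) ↔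
      (0 ≤ v.1.1 ∧ v.1.2 + (v.2 - v.1.2) ≤ c ∧ (c - b) * v.1.1 = a * (v.2 - v.1.2) ∧
        (c - (c - b)) * v.1.1 ≤ a * v.1.2)
    constructor
    · rintro ⟨⟨h1, h2, h3, h4⟩, h5⟩
      exact ⟨h1, by linarith, by linarith, by linarith⟩
    · rintro ⟨h1, h2, h3, h4⟩
      have h5 : b * v.1.1 ≤ a * v.1.2 := by linarith
      exact ⟨⟨h1, h5, third ha hc hcb h3.le h5, by linarith⟩, by linarith⟩
  have hac : 0 < a * c := mul_pos (by linarith) (by linarith)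
  have haR : (a : ℝ) ≠ 0 := by
    have : a ≠ 0 := by omega
    exact_mod_cast this
  have hcR : (c : ℝ) ≠ 0 := by
    have : c ≠ 0 := by omega
    exact_mod_cast this
  refine hCUT V3 S A _ _ _ f 0 ![((0, 0), 0), ((0, c), c), ((a, b), c)]
    ![lin 0 0 (-1), lin (-b) a 0, lin 1 0 0] ![c, 0, 0] ![c, a * c, a] hS1 hS2 hW ?_ ?_ ?_ ?_ ?_ ?_
    ?_ ?_
  · -- the vertices
    rw [Fin.forall_fin_succ]
    refine ⟨?_, ?_⟩
    · show (((0, 0), 0) : V3) ∈ _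
      rw [hW, hS, hfa]
      show (0 ≤ (0 : ℤ) ∧ b * 0 ≤ a * 0 ∧ c * 0 ≤ b * 0 ∧ 0 ≤ c) ∧
        (b - c) * 0 + -a * 0 + a * 0 = 0
      exact ⟨⟨le_rfl, by linarith, by linarith, by linarith⟩, by ring⟩
    · rw [Fin.forall_fin_two]
      refine ⟨?_, ?_⟩
      · show (((0, c), c) : V3) ∈ _
        rw [hW, hS, hfa]
        show (0 ≤ (0 : ℤ) ∧ b * 0 ≤ a * c ∧ c * c ≤ b * c ∧ c ≤ c) ∧
          (b - c) * 0 + -a * c + a * c = 0
        exact ⟨⟨le_rfl, by linarith, by nlinarith, le_rfl⟩, by ring⟩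
      · show (((a, b), c) : V3) ∈ _
        rw [hW, hS, hfa]
        show (0 ≤ a ∧ b * a ≤ a * b ∧ c * b ≤ b * c ∧ c ≤ c) ∧
          (b - c) * a + -a * b + a * c = 0
        exact ⟨⟨by linarith, by linarith, by linarith, le_rfl⟩, by ring⟩
  · -- nonnegative barycentric functions
    rw [Fin.forall_fin_succ]
    refine ⟨?_, ?_⟩
    · intro v hv
      obtain ⟨h1, h2, h3, h4⟩ := (hS v).mp hv
      show 0 ≤ lin 0 0 (-1) v + c
      rw [lin_apply]
      linarith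
    · rw [Fin.forall_fin_two]
      refine ⟨?_, ?_⟩
      · intro v hv
        obtain ⟨h1, h2, h3, h4⟩ := (hS v).mp hv
        show 0 ≤ lin (-b) a 0 v + 0
        rw [lin_apply]
        linarith
      · intro v hv
        obtain ⟨h1, h2, h3, h4⟩ := (hS v).mp hv
        show 0 ≤ lin 1 0 0 v + 0
        rw [lin_apply]
        linarith
  · -- positive denominators
    rw [Fin.forall_fin_succ]
    refine ⟨?_, ?_⟩
    · show 0 < c
      linarith
    · rw [Fin.forall_fin_two]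
      refine ⟨hac, ?_⟩
      show 0 < a
      linarith
  · -- the identity
    intro ψ d
    refine ⟨ψ ((0, 0), 1) / a + d / (a * c), ?_⟩
    intro v
    rw [Fin.sum_univ_three, hfa]
    show ψ v + d = ((lin 0 0 (-1) v + c : ℤ) : ℝ) / (c : ℝ) * (ψ ((0, 0), 0) + d)
      + ((lin (-b) a 0 v + 0 : ℤ) : ℝ) / ((a * c : ℤ) : ℝ) * (ψ ((0, c), c) + d)
      + ((lin 1 0 0 v + 0 : ℤ) : ℝ) / (a : ℝ) * (ψ ((a, b), c) + d)
      + (ψ ((0, 0), 1) / a + d / (a * c)) *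
        (((b - c) * v.1.1 + -a * v.1.2 + a * v.2 : ℤ) : ℝ)
    rw [lin_apply, lin_apply, lin_apply, hom3 ψ v, hom3 ψ ((0, 0), 0), hom3 ψ ((0, c), c),
      hom3 ψ ((a, b), c)]
    push_cast
    field_simp
    ring
  · -- the prescribed part
    intro v hv
    rw [hS1']
    exact hq _ ((hA v).mp hv)
  · refine ⟨((0, b), c), ?_, ?_⟩
    · rw [hS]
      show 0 ≤ (0 : ℤ) ∧ b * 0 ≤ a * b ∧ c * b ≤ b * c ∧ c ≤ c
      exact ⟨le_rfl, by nlinarith, by linarith, le_rfl⟩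
    · have h := hfa ((0, b), c)
      rw [add_zero] at h ⊢
      rw [h]
      show (b - c) * 0 + -a * b + a * c < 0
      nlinarith
  · exact hExt1 _ _ hS1' hA
  · exact hExt2 _ _ hCell2 hWall

end LHR
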