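import Pool.Agent.LHR.Stmts

namespace LHR

open Pool.Agent.LHT

theorem fa3_proof (hFAC : Stmt_FAC) : Stmt_FA3 := by
  classical
  intro S A l c ω u v w t hS hA hu hv hw ht hdet hRL
  have huS := ((hA u).mp hu).1
  have hvS := ((hA v).mp hv).1
  have hwS := ((hA w).mp hw).1
  have hSp : Spans S := spans_of_four u v w t huS hvS hwS ht hdet
  have hRF : RF S ω := RF_of_RLw hRL hSp
  have hfour : Spans ({u, v, w, t} : Finset V3) :=
    spans_of_four u v w t (by simp) (by simp) (by simp) (by simp) hdet
  by_cases h : 0 < l t + c
  · refine hFAC V3 S A l c ω hS hA ⟨t, ht, h⟩ ?_ hRF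
    intro χ d hχ
    have hr : ((l t + c : ℤ) : ℝ) ≠ 0 := by
      have : (0 : ℝ) < ((l t + c : ℤ) : ℝ) := by exact_mod_cast h
      exact ne_of_gt this
    set r : ℝ := (χ t + d) / ((l t + c : ℤ) : ℝ) with hrdef
    have key := hfour (χ - (AddMonoidHom.mulLeft r).comp (toR l)) (d - r * c) (by
      intro x hx
      have e1 : (χ - (AddMonoidHom.mulLeft r).comp (toR l)) x + (d - r * c)
          = χ x + d - r * ((l x + c : ℤ) : ℝ) := by
        rw [AddMonoidHom.sub_apply, AddMonoidHom.comp_apply, AddMonoidHom.coe_mulLeft, toR_apply]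
        push_cast
        ring
      rw [e1]
      simp only [Finset.mem_insert, Finset.mem_singleton] at hx
      have hz : ∀ y ∈ A, χ y + d - r * ((l y + c : ℤ) : ℝ) = 0 := by
        intro y hy
        rw [hχ y hy, ((hA y).mp hy).2]
        simp
      rcases hx with rfl | rfl | rfl | rfl
      · exact hz _ hu
      · exact hz _ hv
      · exact hz _ hw
      · rw [hrdef, div_mul_cancel₀ _ hr, sub_self])
    refine ⟨r, fun x _ => ?_⟩
    have k1 := congrArg (fun f : V3 →+ ℝ => f x) key.1
    have k2 := key.2
    simp only [AddMonoidHom.sub_apply, AddMonoidHom.comp_apply, AddMonoidHom.coe_mulLeft,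
      toR_apply, AddMonoidHom.zero_apply] at k1
    push_cast
    linarith
  · have h0 : l t + c = 0 := le_antisymm (not_lt.mp h) (hS t ht)
    have key := hfour (toR l) (c : ℝ) (by
      intro x hx
      have e1 : toR l x + (c : ℝ) = ((l x + c : ℤ) : ℝ) := by
        rw [toR_apply]; push_cast; ring
      rw [e1]
      simp only [Finset.mem_insert, Finset.mem_singleton] at hx
      have hz : l x + c = 0 := by
        rcases hx with rfl | rfl | rfl | rfl
        · exact ((hA _).mp hu).2
        · exact ((hA _).mp hv).2
        · exact ((hA _).mp hw).2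
        · exact h0
      rw [hz]
      simp)
    have hAS : A = S := by
      ext x
      rw [hA x]
      constructor
      · exact fun hx => hx.1
      · intro hx
        refine ⟨hx, ?_⟩
        have k1 := congrArg (fun f : V3 →+ ℝ => f x) key.1
        simp only [toR_apply, AddMonoidHom.zero_apply] at k1
        have k2 := key.2
        have k1' : l x = 0 := by exact_mod_cast k1
        have k2' : c = 0 := by exact_mod_cast k2
        rw [k1', k2']
        simp
    rw [hAS]
    exact hRF

end LHR
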