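import Pool.Agent.LHR.Stmts

/-!
Module FAC of squad LHR: restriction of the heights to a face.
-/

namespace LHR

open Pool.Agent.LHT

theorem fac_proof : Stmt_FAC := by
  classical
  intro Λ _ A A' l c ω hl hA' hex hfac hRF φ b hle hs
  obtain ⟨v1, hv1, hv1'⟩ := hex
  set P := A.filter (fun v => 0 < l v + c) with hP
  have hPne : P.Nonempty := ⟨v1, by rw [hP, Finset.mem_filter]; exact ⟨hv1, hv1'⟩⟩
  obtain ⟨v0, hv0, hmin⟩ := Finset.exists_min_image P
    (fun v => (ω v - φ v - b) / ((l v + c : ℤ) : ℝ)) hPne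
  rw [hP, Finset.mem_filter] at hv0
  set κ := (ω v0 - φ v0 - b) / ((l v0 + c : ℤ) : ℝ) with hκ
  have hpos0 : (0 : ℝ) < ((l v0 + c : ℤ) : ℝ) := by exact_mod_cast hv0.2
  set Φ : Λ →+ ℝ := φ + (AddMonoidHom.mulLeft κ).comp (toR l) with hΦ
  have hΦv : ∀ v, Φ v + (b + κ * c) = φ v + b + κ * ((l v + c : ℤ) : ℝ) := by
    intro v
    rw [hΦ, AddMonoidHom.add_apply]
    show φ v + κ * ((l v : ℤ) : ℝ) + (b + κ * c) = _
    push_cast
    ring
  have hle' : ∀ v ∈ A, Φ v + (b + κ * c) ≤ ω v := by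
    intro v hv
    rw [hΦv]
    rcases (hl v hv).lt_or_eq with h | h
    · have h1 := hmin v (by rw [hP, Finset.mem_filter]; exact ⟨hv, h⟩)
      have hpos : (0 : ℝ) < ((l v + c : ℤ) : ℝ) := by exact_mod_cast h
      rw [le_div_iff₀ hpos] at h1
      linarith
    · have h1 := hle v ((hA' v).2 ⟨hv, h.symm⟩)
      rw [← h]
      simpa using h1
  have hsub : contact A' ω φ b ⊆ contact A ω Φ (b + κ * c) := by
    intro v hv
    rw [mem_contact] at hv ⊢
    obtain ⟨h1, h2⟩ := hv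
    have h3 := (hA' v).1 h1
    refine ⟨h3.1, ?_⟩
    rw [hΦv, h3.2]
    simpa using h2
  have hv0c : v0 ∈ contact A ω Φ (b + κ * c) := by
    rw [mem_contact]
    refine ⟨hv0.1, ?_⟩
    rw [hΦv, hκ, div_mul_cancel₀ _ hpos0.ne']
    ring
  have hRSp : RSp (contact A ω Φ (b + κ * c)) A := by
    intro χ d hχ
    have h1 : ∀ v ∈ A', χ v + d = 0 := hs χ d fun v hv => hχ v (hsub hv)
    obtain ⟨r, hr⟩ := hfac χ d h1
    have h2 := hχ v0 hv0c
    rw [hr v0 hv0.1] at h2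
    have h3 : r = 0 := (mul_eq_zero.mp h2).resolve_right hpos0.ne'
    intro v hv
    rw [hr v hv, h3, zero_mul]
  exact (hRF Φ (b + κ * c) hle' hRSp).mono hsub

end LHR
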