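import Pool.Agent.LHR.Stmts

/-!
Squad LHR, module FIN: lecture hall simplices of dimension three.
-/

namespace LHR

open Pool.Agent.LHT

namespace FIN_

/-- coordinates -/
def eV : V3 ≃+ (Fin 3 → ℤ) where
  toFun v := ![v.1.1, v.1.2, v.2]
  invFun x := ((x 0, x 1), x 2)
  left_inv v := rfl
  right_inv x := by
    funext i
    fin_cases i <;> rfl
  map_add' v w := by
    funext i
    fin_cases i <;> rfl

theorem eV_symm (x : Fin 3 → ℤ) : eV.symm x = ((x 0, x 1), x 2) := rfl

end FIN_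

open FIN_ in
theorem fin_proof (hRL3 : Stmt_RL3) : Stmt_FIN := by
  classical
  intro s hs
  have ha : (1 : ℤ) ≤ (s 0 : ℤ) := by exact_mod_cast hs 0
  have hb : (1 : ℤ) ≤ (s 1 : ℤ) := by exact_mod_cast hs 1
  have hc : (1 : ℤ) ≤ (s 2 : ℤ) := by exact_mod_cast hs 2
  have hmem : ∀ v : V3, v ∈ (LH s).image eV.symm ↔ eV v ∈ LH s := by
    intro v
    rw [Finset.mem_image]
    constructor
    · rintro ⟨x, hx, rfl⟩
      rwa [AddEquiv.apply_symm_apply]
    · intro h
      exact ⟨eV v, h, by simp⟩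
  have hPP : ∀ v : V3, v ∈ (LH s).image eV.symm ↔ PP (s 0) (s 1) (s 2) v := by
    intro v
    rw [hmem, mem_LH]
    have e0 : eV v 0 = v.1.1 := rfl
    have e1 : eV v 1 = v.1.2 := rfl
    have e2 : eV v 2 = v.2 := rfl
    unfold PP
    constructor
    · rintro ⟨h1, h2⟩
      have g0 := h1 0
      have g2 := h1 2
      have g01 := h2 0 1 (by decide)
      have g12 := h2 1 2 (by decide)
      rw [e0] at g0
      rw [e2] at g2
      rw [e0, e1] at g01
      rw [e1, e2] at g12
      exact ⟨g0.1, by linarith, by linarith, g2.2⟩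
    · rintro ⟨h1, h2, h3, h4⟩
      have k1 : 0 ≤ v.1.2 := by
        by_contra hneg
        push Not at hneg
        have : (s 0 : ℤ) * v.1.2 < 0 := mul_neg_of_pos_of_neg (by omega) hneg
        have : 0 ≤ (s 1 : ℤ) * v.1.1 := by positivity
        omega
      have k2 : 0 ≤ v.2 := by
        by_contra hneg
        push Not at hneg
        have : (s 1 : ℤ) * v.2 < 0 := mul_neg_of_pos_of_neg (by omega) hneg
        have : 0 ≤ (s 2 : ℤ) * v.1.2 := by positivity
        omega
      have k3 : v.1.2 ≤ s 1 := by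
        have q1 : (s 1 : ℤ) * v.2 ≤ (s 1 : ℤ) * (s 2 : ℤ) :=
          mul_le_mul_of_nonneg_left h4 (by omega)
        have q2 : (s 2 : ℤ) * v.1.2 ≤ (s 2 : ℤ) * (s 1 : ℤ) := by linarith
        exact le_of_mul_le_mul_left q2 (by omega)
      have k4 : v.1.1 ≤ s 0 := by
        have q1 : (s 0 : ℤ) * v.1.2 ≤ (s 0 : ℤ) * (s 1 : ℤ) :=
          mul_le_mul_of_nonneg_left k3 (by omega)
        have q2 : (s 1 : ℤ) * v.1.1 ≤ (s 1 : ℤ) * (s 0 : ℤ) := by linarith
        exact le_of_mul_le_mul_left q2 (by omega)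
      have k5 : v.1.1 * s 2 ≤ v.2 * s 0 := by
        have q1 : (s 2 : ℤ) * ((s 1 : ℤ) * v.1.1) ≤ (s 2 : ℤ) * ((s 0 : ℤ) * v.1.2) :=
          mul_le_mul_of_nonneg_left h2 (by omega)
        have q2 : (s 0 : ℤ) * ((s 2 : ℤ) * v.1.2) ≤ (s 0 : ℤ) * ((s 1 : ℤ) * v.2) :=
          mul_le_mul_of_nonneg_left h3 (by omega)
        have q3 : (s 1 : ℤ) * (v.1.1 * s 2) ≤ (s 1 : ℤ) * (v.2 * s 0) := by linarith
        exact le_of_mul_le_mul_left q3 (by omega)
      refine ⟨?_, ?_⟩
      · intro i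
        fin_cases i
        · exact ⟨h1, k4⟩
        · exact ⟨k1, k3⟩
        · exact ⟨k2, h4⟩
      · intro i j hij
        fin_cases i <;> fin_cases j
        · exact absurd hij (by decide)
        · show v.1.1 * (s 1 : ℤ) ≤ v.1.2 * (s 0 : ℤ)
          linarith
        · exact k5
        · exact absurd hij (by decide)
        · exact absurd hij (by decide)
        · show v.1.2 * (s 2 : ℤ) ≤ v.2 * (s 1 : ℤ)
          linarith
        · exact absurd hij (by decide)
        · exact absurd hij (by decide)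
        · exact absurd hij (by decide)
  refine RL_affine eV 0 (fun v => ?_) (hRL3 _ _ _ _ ha hb hc hPP)
  rw [add_zero, hmem]

end LHR
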