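import Pool.Agent.LHR.Stmts

namespace LHR

open Pool.Agent.LHT

theorem g00_proof' (hEXC : Stmt_EXC) : Stmt_G00 := by
  classical
  intro h β hh hβ S A hS hA
  set B : Finset (ℤ × ℤ) := S.image Prod.fst with hB
  have hBm : ∀ y : ℤ × ℤ, y ∈ B ↔ 0 ≤ y.1 ∧ y.2 ≤ β ∧ β * y.1 ≤ h * y.2 := by
    intro y
    rw [hB, Finset.mem_image]
    constructor
    · rintro ⟨v, hv, rfl⟩
      obtain ⟨h1, h2, h3, h4⟩ := (hS v).mp hv
      have hz : 0 ≤ v.2 := by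
        by_contra hneg
        push Not at hneg
        nlinarith
      refine ⟨h1, by linarith, ?_⟩
      have e : (β - 0) * v.1.1 = β * v.1.1 := by ring
      rw [e] at h4
      exact h4
    · rintro ⟨h1, h2, h3⟩
      refine ⟨(y, 0), (hS _).mpr ⟨h1, ?_, ?_, ?_⟩, rfl⟩
      · show y.2 + 0 ≤ β
        linarith
      · show 0 * y.1 ≤ h * 0
        linarith
      · show (β - 0) * y.1 ≤ h * y.2
        linarith
  refine hEXC (ℤ × ℤ) sep_V2 B S A 0 (-(AddMonoidHom.snd ℤ ℤ)) 0 β ?_ ?_ ?_ ?_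
  · intro φ d hφ
    have m0 : ((0, 0) : ℤ × ℤ) ∈ B := (hBm _).mpr ⟨le_rfl, by show (0 : ℤ) ≤ β; linarith, by simp⟩
    have m1 : ((0, 1) : ℤ × ℤ) ∈ B := (hBm _).mpr ⟨le_rfl, by show (1 : ℤ) ≤ β; linarith, by
      show β * 0 ≤ h * 1
      linarith⟩
    have m2 : ((h, β) : ℤ × ℤ) ∈ B := (hBm _).mpr ⟨by show (0 : ℤ) ≤ h; linarith, le_rfl, by
      show β * h ≤ h * β
      linarith⟩
    have e0 := hφ _ m0
    have e1 := hφ _ m1
    have e2 := hφ _ m2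
    rw [hom2] at e0 e1 e2
    simp only [Int.cast_zero, zero_mul, add_zero, zero_add, Int.cast_one, one_mul] at e0 e1
    have hd : d = 0 := by linarith
    have hb : φ (0, 1) = 0 := by linarith
    rw [hb, hd] at e2
    have hh' : ((h : ℤ) : ℝ) ≠ 0 := by
      have : h ≠ 0 := by linarith
      exact_mod_cast this
    have ha : φ (1, 0) = 0 := by
      have e3 : ((h : ℤ) : ℝ) * φ (1, 0) = 0 := by
        have : (((h, β) : ℤ × ℤ).1 : ℝ) * φ (1, 0) + (((h, β) : ℤ × ℤ).2 : ℝ) * 0 + 0 = 0 := e2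
        simpa using this
      exact (mul_eq_zero.mp e3).resolve_left hh'
    refine ⟨?_, hd⟩
    ext1 v
    rw [hom2, ha, hb]
    simp
  · intro y hy
    obtain ⟨h1, h2, h3⟩ := (hBm y).mp hy
    show (0 : ℤ) + 0 ≤ -y.2 + β
    linarith
  · intro v
    rw [hS, hBm]
    show (0 ≤ v.1.1 ∧ v.1.2 + v.2 ≤ β ∧ 0 * v.1.1 ≤ h * v.2 ∧ (β - 0) * v.1.1 ≤ h * v.1.2) ↔
      (0 ≤ v.1.1 ∧ v.1.2 ≤ β ∧ β * v.1.1 ≤ h * v.1.2) ∧ (0 : ℤ) + 0 ≤ v.2 ∧ v.2 ≤ -v.1.2 + β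
    constructor
    · rintro ⟨h1, h2, h3, h4⟩
      have hz : 0 ≤ v.2 := by
        by_contra hneg
        push Not at hneg
        nlinarith
      refine ⟨⟨h1, by linarith, by linarith⟩, by linarith, by linarith⟩
    · rintro ⟨⟨h1, h2, h3⟩, h4, h5⟩
      refine ⟨h1, by linarith, ?_, by linarith⟩
      have : 0 ≤ h * v.2 := mul_nonneg (by linarith) (by linarith)
      linarith
  · intro v
    rw [hA, hBm]
    show (0 ≤ v.1.1 ∧ v.1.2 + v.2 ≤ β ∧ 0 * v.1.1 = h * v.2 ∧ (β - 0) * v.1.1 ≤ h * v.1.2) ↔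
      (0 ≤ v.1.1 ∧ v.1.2 ≤ β ∧ β * v.1.1 ≤ h * v.1.2) ∧ v.2 = (0 : ℤ) + 0
    constructor
    · rintro ⟨h1, h2, h3, h4⟩
      have hz : v.2 = 0 := by
        have e : h * v.2 = 0 := by linarith
        rcases mul_eq_zero.mp e with h5 | h5
        · linarith
        · exact h5
      refine ⟨⟨h1, by linarith, by linarith⟩, by linarith⟩
    · rintro ⟨⟨h1, h2, h3⟩, h4⟩
      have hz : v.2 = 0 := by linarith
      refine ⟨h1, by linarith, ?_, by linarith⟩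
      rw [hz]
      ring

end LHR
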