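import Pool.Agent.LHR.Stmts

/-!
Squad LHR, module G11: the case `0 < p ≤ β`.
-/

namespace LHR

open Pool.Agent.LHT

namespace G11_

/-- the map onto `PP β p h`, inverse direction -/
def e1 : V3 ≃+ V3 where
  toFun v := ((-v.2, v.1.2 - v.1.1), -v.1.2)
  invFun v := ((-v.1.2 - v.2, -v.2), -v.1.1)
  left_inv := by
    rintro ⟨⟨a, b⟩, c⟩
    refine Prod.ext (Prod.ext ?_ ?_) ?_ <;> simp
  right_inv := by
    rintro ⟨⟨a, b⟩, c⟩
    refine Prod.ext (Prod.ext ?_ ?_) ?_ <;> simp <;> ring
  map_add' := by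
    rintro ⟨⟨a, b⟩, c⟩ ⟨⟨a', b'⟩, c'⟩
    refine Prod.ext (Prod.ext ?_ ?_) ?_ <;> simp <;> ring

/-- the map onto `PP h (β - p) β`, inverse direction -/
def e2 : V3 ≃+ V3 where
  toFun v := ((v.1.1, v.1.2), v.2 - v.1.2)
  invFun v := ((v.1.1, v.1.2), v.2 + v.1.2)
  left_inv := by
    rintro ⟨⟨a, b⟩, c⟩
    refine Prod.ext (Prod.ext ?_ ?_) ?_ <;> simp
  right_inv := by
    rintro ⟨⟨a, b⟩, c⟩
    refine Prod.ext (Prod.ext ?_ ?_) ?_ <;> simp <;> ring
  map_add' := by
    rintro ⟨⟨a, b⟩, c⟩ ⟨⟨a', b'⟩, c'⟩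
    refine Prod.ext (Prod.ext ?_ ?_) ?_ <;> simp <;> ring

theorem e1_apply (h β p a b c : ℤ) :
    e1 ((a, b), c) + (((h, β - p), p) : V3) = ((h - c, β - p + b - a), p - b) := by
  show (((-c, b - a), -b) : V3) + ((h, β - p), p) = _
  simp only [Prod.mk_add_mk, Prod.mk.injEq]
  refine ⟨⟨?_, ?_⟩, ?_⟩ <;> ring

theorem e2_apply (a b c : ℤ) :
    e2 ((a, b), c) + (((0, 0), 0) : V3) = ((a, b), c - b) := by
  show (((a, b), c - b) : V3) + ((0, 0), 0) = _
  simp

theorem step1 (hAFE : Stmt_AFE) (h β p : ℤ) (hh : 1 ≤ h) (hp : 1 ≤ p) (hpβ : p ≤ β)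
    (hF : F3 β p h) :
    ExtP (fun v => GP h β p v ∧ lin 0 (-p) (β - p) v + 0 ≤ 0) (GF h β p) := by
  refine hAFE e1 ((h, β - p), p) (PP β p h) (PF β p h) _ _ ?_ ?_ hF
  · rintro ⟨⟨u, v⟩, w⟩
    rw [e1_apply]
    simp only [GP, PP, lin_apply]
    constructor
    · rintro ⟨⟨h1, h2, h3, h4⟩, h5⟩
      refine ⟨by linarith, by nlinarith, by nlinarith, by linarith⟩
    · rintro ⟨h1, h2, h3, h4⟩
      refine ⟨⟨by linarith, by linarith, by nlinarith, ?_⟩, by nlinarith⟩
      have h6 : 0 ≤ p * (h * (β - p + v - u) - (β - p) * (h - w)) := by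
        have e : p * (h * (β - p + v - u) - (β - p) * (h - w)) =
          h * (β * v - p * u) + (β - p) * (p * w - h * v) := by ring
        rw [e]
        have := mul_nonneg (show 0 ≤ h by linarith) (sub_nonneg.2 h2)
        have := mul_nonneg (sub_nonneg.2 hpβ) (sub_nonneg.2 h3)
        linarith
      have h7 := nonneg_of_mul_nonneg_right h6 (show 0 < p by linarith)
      linarith
  · rintro ⟨⟨u, v⟩, w⟩
    rw [e1_apply]
    simp only [GF, PF]
    constructor
    · rintro ⟨h1, h2, h3, h4⟩
      have h5 : h * v = p * w := by linarith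
      refine ⟨by linarith, ?_, h5, by linarith⟩
      have h6 : 0 ≤ h * (β * v - p * u) := by
        have e : h * (β * v - p * u) = p * (h * (β - p + v - u) - (β - p) * (h - w)) +
          (β - p) * (h * v - p * w) := by ring
        rw [e, h5, sub_self, mul_zero, add_zero]
        exact mul_nonneg (by linarith) (by linarith)
      have h7 := nonneg_of_mul_nonneg_right h6 (show 0 < h by linarith)
      linarith
    · rintro ⟨h1, h2, h3, h4⟩
      refine ⟨by linarith, by linarith, by linarith, ?_⟩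
      have h6 : 0 ≤ p * (h * (β - p + v - u) - (β - p) * (h - w)) := by
        have e : p * (h * (β - p + v - u) - (β - p) * (h - w)) =
          h * (β * v - p * u) + (β - p) * (p * w - h * v) := by ring
        rw [e]
        have := mul_nonneg (show 0 ≤ h by linarith) (sub_nonneg.2 h2)
        have := mul_nonneg (sub_nonneg.2 hpβ) (sub_nonneg.2 h3.le)
        linarith
      have h7 := nonneg_of_mul_nonneg_right h6 (show 0 < p by linarith)
      linarith

theorem step2 (hAFE : Stmt_AFE) (h β p : ℤ) (hh : 1 ≤ h) (hp : 1 ≤ p) (hpβ : p < β)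
    (hF : F3 h (β - p) β) :
    ExtP (fun v => GP h β p v ∧ 0 ≤ lin 0 (-p) (β - p) v + 0)
      (fun v => GP h β p v ∧ lin 0 (-p) (β - p) v + 0 = 0) := by
  have hb : 0 < β - p := by linarith
  refine hAFE e2 ((0, 0), 0) (PP h (β - p) β) (PF h (β - p) β) _ _ ?_ ?_ hF
  · rintro ⟨⟨x, y⟩, w⟩
    rw [e2_apply]
    simp only [GP, PP, lin_apply]
    constructor
    · rintro ⟨⟨h1, h2, h3, h4⟩, h5⟩
      refine ⟨by linarith, by linarith, by linarith, by linarith⟩
    · rintro ⟨h1, h2, h3, h4⟩
      refine ⟨⟨by linarith, by linarith, ?_, by linarith⟩, by linarith⟩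
      have h6 : 0 ≤ (β - p) * (h * (w - y) - p * x) := by
        have e : (β - p) * (h * (w - y) - p * x) =
          h * ((β - p) * w - β * y) + p * (h * y - (β - p) * x) := by ring
        rw [e]
        have := mul_nonneg (show 0 ≤ h by linarith) (sub_nonneg.2 h3)
        have := mul_nonneg (show 0 ≤ p by linarith) (sub_nonneg.2 h2)
        linarith
      have h7 := nonneg_of_mul_nonneg_right h6 hb
      linarith
  · rintro ⟨⟨x, y⟩, w⟩
    rw [e2_apply]
    simp only [GP, PF, lin_apply]
    constructor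
    · rintro ⟨⟨h1, h2, h3, h4⟩, h5⟩
      refine ⟨by linarith, by linarith, by linarith, by linarith⟩
    · rintro ⟨h1, h2, h3, h4⟩
      refine ⟨⟨by linarith, by linarith, ?_, by linarith⟩, by linarith⟩
      have h6 : 0 ≤ (β - p) * (h * (w - y) - p * x) := by
        have e : (β - p) * (h * (w - y) - p * x) =
          h * ((β - p) * w - β * y) + p * (h * y - (β - p) * x) := by ring
        rw [e]
        have := mul_nonneg (show 0 ≤ h by linarith) (sub_nonneg.2 h3.le)
        have := mul_nonneg (show 0 ≤ p by linarith) (sub_nonneg.2 h2)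
        linarith
      have h7 := nonneg_of_mul_nonneg_right h6 hb
      linarith

end G11_

open G11_ in
theorem g11_proof (hCUT : Stmt_CUT) (hAFE : Stmt_AFE) : Stmt_G11 := by
  classical
  intro h β p hh hp hpβ hF hF'
  rcases hpβ.lt_or_eq with hlt | heq
  · -- `p < β`
    intro S A hS hA
    have h1 := step1 hAFE h β p hh hp hpβ hF (S.filter fun v => lin 0 (-p) (β - p) v + 0 ≤ 0) A
      (fun v => by rw [Finset.mem_filter, hS]) hA
    have h2 := step2 hAFE h β p hh hp hlt (hF' hlt)
      (S.filter fun v => 0 ≤ lin 0 (-p) (β - p) v + 0)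
      (S.filter fun v => lin 0 (-p) (β - p) v + 0 = 0)
      (fun v => by rw [Finset.mem_filter, hS]) (fun v => by rw [Finset.mem_filter, hS])
    have hb : 0 < β - p := by linarith
    have hβ : 0 < β := by linarith
    have hh0 : 0 < h := by linarith
    refine hCUT V3 S A _ _ _ (lin 0 (-p) (β - p)) 0
      ![((0, 0), 0), ((h, β - p), p), ((0, β - p), p)]
      ![lin 0 (-1) (-1), lin 1 0 0, lin (-(β - p)) h 0] ![β, 0, 0] ![β, h, h * (β - p)]
      (fun v => Finset.mem_filter) (fun v => Finset.mem_filter) (fun v => Finset.mem_filter)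
      ?_ ?_ ?_ ?_ ?_ ?_ h1 h2
    · intro j
      rw [Finset.mem_filter, hS]
      fin_cases j
      · simp [GP, lin_apply, hβ.le]
      · simp only [GP, lin_apply]
        simp
        refine ⟨⟨hh0.le, ?_, ?_⟩, ?_⟩
        · exact le_of_eq (by ring)
        · exact le_of_eq (by ring)
        · ring
      · simp only [GP, lin_apply]
        simp
        refine ⟨⟨?_, ?_⟩, ?_⟩
        · positivity
        · exact mul_nonneg hh0.le hb.le
        · ring
    · intro j v hv
      rw [hS] at hv
      obtain ⟨g1, g2, g3, g4⟩ := hv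
      fin_cases j
      · simp [lin_apply]; linarith
      · simp [lin_apply]; linarith
      · simp [lin_apply]; linarith
    · intro j
      fin_cases j
      · simpa using hβ
      · simpa using hh0
      · simpa using mul_pos hh0 hb
    · intro ψ d
      refine ⟨d / ((β : ℝ) * (β - p)) + ψ ((0, 0), 1) / ((β : ℝ) - p), fun v => ?_⟩
      have hb' : ((β : ℝ) - p) ≠ 0 := by
        have : (0 : ℝ) < ((β - p : ℤ) : ℝ) := by exact_mod_cast hb
        push_cast at this
        exact this.ne'
      have hβ' : (β : ℝ) ≠ 0 := by exact_mod_cast hβ.ne'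
      have hh' : (h : ℝ) ≠ 0 := by exact_mod_cast hh0.ne'
      rw [Fin.sum_univ_three]
      simp only [Matrix.cons_val_zero, Matrix.cons_val_one, Matrix.cons_val_two,
        Matrix.tail_cons, Matrix.head_cons]
      rw [hom3 ψ v, hom3 ψ ((0, 0), 0), hom3 ψ ((h, β - p), p), hom3 ψ ((0, β - p), p)]
      simp only [lin_apply]
      set α := ψ ((1, 0), 0)
      set b := ψ ((0, 1), 0)
      set γ := ψ ((0, 0), 1)
      push_cast
      field_simp
      ring
    · intro v hv
      rw [hA] at hv
      obtain ⟨g1, g2, g3, g4⟩ := hv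
      have h5 : 0 ≤ h * (p * v.1.2 - (β - p) * v.2) := by
        have e : h * (p * v.1.2 - (β - p) * v.2) =
          p * (h * v.1.2 - (β - p) * v.1.1) + (β - p) * (p * v.1.1 - h * v.2) := by ring
        rw [e, g3, sub_self, mul_zero, add_zero]
        exact mul_nonneg (by linarith) (by linarith)
      have h6 := nonneg_of_mul_nonneg_right h5 hh0
      rw [Finset.mem_filter, hS, lin_apply]
      exact ⟨⟨g1, g2, g3.le, g4⟩, by linarith⟩
    · refine ⟨((0, β), 0), ?_, ?_⟩
      · rw [hS]
        simp only [GP]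
        refine ⟨le_rfl, by linarith, by linarith, ?_⟩
        rw [mul_zero]
        exact mul_nonneg hh0.le hβ.le
      · rw [lin_apply]
        simp only
        have := mul_pos (show 0 < p by linarith) hβ
        linarith
  · -- `p = β`
    have h1 := step1 hAFE h β p hh hp hpβ hF
    intro S A hS hA
    refine h1 S A (fun v => ?_) hA
    rw [hS]
    constructor
    · intro hv
      refine ⟨hv, ?_⟩
      obtain ⟨g1, g2, g3, g4⟩ := hv
      rw [lin_apply]
      rw [← heq] at g4 ⊢
      have h2 : 0 ≤ h * v.1.2 := by linarith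
      have h3 := nonneg_of_mul_nonneg_right h2 (show 0 < h by linarith)
      have h4 := mul_nonneg (show 0 ≤ p by linarith) h3
      linarith
    · exact fun hv => hv.1

end LHR
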