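import Pool.Agent.LHR.Stmts

/-!
Squad LHR (MP_74b890_co), module G22: the case `β < p < h`.
-/

namespace LHR

open Pool.Agent.LHT

namespace G22_

/-- the first cell -/
def QD (β : ℤ) : V3 → Prop := fun v =>
  0 ≤ v.1.1 ∧ v.1.1 ≤ v.2 ∧ 0 ≤ v.1.2 ∧ v.1.2 + v.2 ≤ β

/-- the second cell -/
def QA (h β p : ℤ) : V3 → Prop := fun v =>
  v.2 ≤ v.1.1 ∧ v.1.2 + v.2 ≤ β ∧ p * v.1.1 ≤ h * v.2 ∧
    0 ≤ (p - β) * (v.1.1 - v.2) + (h - p) * v.1.2

/-- the third cell -/
def QB (h β p : ℤ) : V3 → Prop := fun v =>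
  v.1.2 ≤ 0 ∧ v.1.2 + v.2 ≤ β ∧ (β - p) * v.1.1 ≤ h * v.1.2 ∧
    (p - β) * (v.1.1 - v.2) + (h - p) * v.1.2 ≤ 0

section
variable {h β p : ℤ} (hβ : 1 ≤ β) (hgt : β < p) (hlt : p < h)
include hβ hgt hlt

theorem QD_GP {v : V3} (hv : QD β v) : GP h β p v := by
  obtain ⟨h1, h2, h3, h4⟩ := hv
  have a1 : 0 ≤ p * (v.2 - v.1.1) := mul_nonneg (by linarith) (by linarith)
  have a2 : 0 ≤ (h - p) * v.2 := mul_nonneg (by linarith) (by linarith)
  have a3 : 0 ≤ (p - β) * v.1.1 := mul_nonneg (by linarith) (by linarith)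
  have a4 : 0 ≤ h * v.1.2 := mul_nonneg (by linarith) (by linarith)
  refine ⟨h1, h4, ?_, ?_⟩
  · linarith
  · linarith

theorem QA_GP {v : V3} (hv : QA h β p v) : GP h β p v := by
  obtain ⟨h1, h2, h3, h4⟩ := hv
  have hh : 0 < h := by linarith
  have hhp : 0 < h - p := by linarith
  have hx : 0 ≤ v.1.1 := by
    have b1 : 0 ≤ (h - p) * v.1.1 := by
      have := mul_nonneg hh.le (sub_nonneg.2 h1)
      linarith
    exact nonneg_of_mul_nonneg_right b1 hhp
  refine ⟨hx, h2, h3, ?_⟩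
  have b2 : 0 ≤ (h - p) * (h * v.1.2 - (β - p) * v.1.1) := by
    have e : (h - p) * (h * v.1.2 - (β - p) * v.1.1) =
      h * ((p - β) * (v.1.1 - v.2) + (h - p) * v.1.2) + (p - β) * (h * v.2 - p * v.1.1) := by ring
    rw [e]
    have := mul_nonneg hh.le h4
    have := mul_nonneg (show 0 ≤ p - β by linarith) (sub_nonneg.2 h3)
    linarith
  have b3 := nonneg_of_mul_nonneg_right b2 hhp
  linarith

theorem QB_GP {v : V3} (hv : QB h β p v) : GP h β p v := by
  obtain ⟨h1, h2, h3, h4⟩ := hv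
  have hh : 0 < h := by linarith
  have hpb : 0 < p - β := by linarith
  have hx : 0 ≤ v.1.1 := by
    have b1 : 0 ≤ (p - β) * v.1.1 := by
      have := mul_nonneg hh.le (neg_nonneg.2 h1)
      linarith
    exact nonneg_of_mul_nonneg_right b1 hpb
  refine ⟨hx, h2, ?_, h3⟩
  have b2 : 0 ≤ (p - β) * (h * v.2 - p * v.1.1) := by
    have e : (p - β) * (h * v.2 - p * v.1.1) =
      h * (-((p - β) * (v.1.1 - v.2) + (h - p) * v.1.2))
        + (h - p) * (h * v.1.2 - (β - p) * v.1.1) := by ring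
    rw [e]
    have := mul_nonneg hh.le (neg_nonneg.2 h4)
    have := mul_nonneg (show 0 ≤ h - p by linarith) (sub_nonneg.2 h3)
    linarith
  have b3 := nonneg_of_mul_nonneg_right b2 hpb
  linarith

/-- cells inside the simplex -/
theorem QD_iff {v : V3} : QD β v ↔ GP h β p v ∧ v.1.1 ≤ v.2 ∧ 0 ≤ v.1.2 := by
  constructor
  · intro hv
    exact ⟨QD_GP hβ hgt hlt hv, hv.2.1, hv.2.2.1⟩
  · rintro ⟨⟨h1, h2, h3, h4⟩, h5, h6⟩
    exact ⟨h1, h5, h6, h2⟩

theorem QA_iff {v : V3} : QA h β p v ↔ GP h β p v ∧ v.2 ≤ v.1.1 ∧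
    0 ≤ (p - β) * (v.1.1 - v.2) + (h - p) * v.1.2 := by
  constructor
  · intro hv
    exact ⟨QA_GP hβ hgt hlt hv, hv.1, hv.2.2.2⟩
  · rintro ⟨⟨h1, h2, h3, h4⟩, h5, h6⟩
    exact ⟨h5, h2, h3, h6⟩

theorem QB_iff {v : V3} : QB h β p v ↔ GP h β p v ∧ v.1.2 ≤ 0 ∧
    (p - β) * (v.1.1 - v.2) + (h - p) * v.1.2 ≤ 0 := by
  constructor
  · intro hv
    exact ⟨QB_GP hβ hgt hlt hv, hv.1, hv.2.2.2⟩
  · rintro ⟨⟨h1, h2, h3, h4⟩, h5, h6⟩
    exact ⟨h5, h2, h4, h6⟩

/-- the facet lies in the second cell -/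
theorem GF_QA {v : V3} (hv : GF h β p v) : QA h β p v := by
  obtain ⟨h1, h2, h3, h4⟩ := hv
  have hh : 0 < h := by linarith
  refine ⟨?_, h2, h3.le, ?_⟩
  · have b1 : 0 ≤ h * (v.1.1 - v.2) := by
      have := mul_nonneg (show 0 ≤ h - p by linarith) h1
      linarith
    have := nonneg_of_mul_nonneg_right b1 hh
    linarith
  · have b1 : 0 ≤ h * ((p - β) * (v.1.1 - v.2) + (h - p) * v.1.2) := by
      have e : h * ((p - β) * (v.1.1 - v.2) + (h - p) * v.1.2) =
        (h - p) * (h * v.1.2 - (β - p) * v.1.1) + (p - β) * (p * v.1.1 - h * v.2) := by ring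
      rw [e, h3, sub_self, mul_zero, add_zero]
      exact mul_nonneg (by linarith) (by linarith)
    exact nonneg_of_mul_nonneg_right b1 hh

/-- the common wall -/
theorem wall_iff {v : V3} :
    (QA h β p v ∧ (p - β) * (v.1.1 - v.2) + (h - p) * v.1.2 = 0) ↔
    (QB h β p v ∧ (p - β) * (v.1.1 - v.2) + (h - p) * v.1.2 = 0) := by
  have hpb : 0 < p - β := by linarith
  have hhp : 0 < h - p := by linarith
  constructor
  · rintro ⟨hv, hg⟩
    have hG := QA_GP hβ hgt hlt hv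
    obtain ⟨h1, h2, h3, h4⟩ := hv
    refine ⟨⟨?_, h2, hG.2.2.2, hg.le⟩, hg⟩
    have b1 : 0 ≤ (h - p) * (-v.1.2) := by
      have := mul_nonneg hpb.le (sub_nonneg.2 h1)
      linarith
    have := nonneg_of_mul_nonneg_right b1 hhp
    linarith
  · rintro ⟨hv, hg⟩
    have hG := QB_GP hβ hgt hlt hv
    obtain ⟨h1, h2, h3, h4⟩ := hv
    refine ⟨⟨?_, h2, hG.2.2.1, hg.ge⟩, hg⟩
    have b1 : 0 ≤ (p - β) * (v.1.1 - v.2) := by
      have := mul_nonneg hhp.le (neg_nonneg.2 h1)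
      linarith
    have := nonneg_of_mul_nonneg_right b1 hpb
    linarith

/-- wall between the first and the second cell -/
theorem wallDA_iff {v : V3} : (QD β v ∧ v.2 = v.1.1) ↔ (QA h β p v ∧ v.2 = v.1.1) := by
  have hhp : 0 < h - p := by linarith
  constructor
  · rintro ⟨⟨h1, h2, h3, h4⟩, h5⟩
    refine ⟨⟨h5.le, h4, ?_, ?_⟩, h5⟩
    · rw [h5]
      exact mul_le_mul_of_nonneg_right hlt.le h1
    · rw [h5, sub_self, mul_zero, zero_add]
      exact mul_nonneg hhp.le h3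
  · rintro ⟨⟨h1, h2, h3, h4⟩, h5⟩
    rw [h5, sub_self, mul_zero, zero_add] at h4
    rw [h5] at h3
    have b1 : 0 ≤ (h - p) * v.1.1 := by linarith
    exact ⟨⟨nonneg_of_mul_nonneg_right b1 hhp, h5.ge, nonneg_of_mul_nonneg_right h4 hhp, h2⟩, h5⟩

/-- wall between the first and the third cell -/
theorem wallDB_iff {v : V3} : (QD β v ∧ v.1.2 = 0) ↔ (QB h β p v ∧ v.1.2 = 0) := by
  have hpb : 0 < p - β := by linarith
  constructor
  · rintro ⟨⟨h1, h2, h3, h4⟩, h5⟩
    refine ⟨⟨h5.le, h4, ?_, ?_⟩, h5⟩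
    · rw [h5, mul_zero]
      have := mul_nonneg hpb.le h1
      linarith
    · rw [h5, mul_zero, add_zero]
      have := mul_nonneg hpb.le (sub_nonneg.2 h2)
      linarith
  · rintro ⟨⟨h1, h2, h3, h4⟩, h5⟩
    rw [h5, mul_zero] at h3
    rw [h5, mul_zero, add_zero] at h4
    have b1 : 0 ≤ (p - β) * v.1.1 := by linarith
    have b2 : 0 ≤ (p - β) * (v.2 - v.1.1) := by linarith
    have b3 := nonneg_of_mul_nonneg_right b2 hpb
    exact ⟨⟨nonneg_of_mul_nonneg_right b1 hpb, by linarith, h5.ge, h2⟩, h5⟩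

end

/-- coordinates of the second cell -/
def eA : V3 ≃+ V3 where
  toFun v := ((v.1.1 + v.2, v.1.2), v.2)
  invFun v := ((v.1.1 - v.2, v.1.2), v.2)
  left_inv := by
    rintro ⟨⟨a, b⟩, c⟩
    refine Prod.ext (Prod.ext ?_ ?_) ?_ <;> simp
  right_inv := by
    rintro ⟨⟨a, b⟩, c⟩
    refine Prod.ext (Prod.ext ?_ ?_) ?_ <;> simp
  map_add' := by
    rintro ⟨⟨a, b⟩, c⟩ ⟨⟨a', b'⟩, c'⟩
    refine Prod.ext (Prod.ext ?_ ?_) ?_ <;> simp <;> ring

/-- coordinates of the third cell -/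
def eB : V3 ≃+ V3 where
  toFun v := ((v.1.2, -v.1.1), v.2 + v.1.1 + v.1.2)
  invFun v := ((-v.1.2, v.1.1), v.2 + v.1.2 - v.1.1)
  left_inv := by
    rintro ⟨⟨a, b⟩, c⟩
    refine Prod.ext (Prod.ext ?_ ?_) ?_ <;> simp <;> ring
  right_inv := by
    rintro ⟨⟨a, b⟩, c⟩
    refine Prod.ext (Prod.ext ?_ ?_) ?_ <;> simp <;> ring
  map_add' := by
    rintro ⟨⟨a, b⟩, c⟩ ⟨⟨a', b'⟩, c'⟩
    refine Prod.ext (Prod.ext ?_ ?_) ?_ <;> simp <;> ring

/-- coordinates of the first cell -/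
def eD : V3 ≃+ V3 where
  toFun v := ((v.2, v.1.2), v.1.1 + v.2)
  invFun v := ((v.2 - v.1.1, v.1.2), v.1.1)
  left_inv := by
    rintro ⟨⟨a, b⟩, c⟩
    refine Prod.ext (Prod.ext ?_ ?_) ?_ <;> simp
  right_inv := by
    rintro ⟨⟨a, b⟩, c⟩
    refine Prod.ext (Prod.ext ?_ ?_) ?_ <;> simp
  map_add' := by
    rintro ⟨⟨a, b⟩, c⟩ ⟨⟨a', b'⟩, c'⟩
    refine Prod.ext (Prod.ext ?_ ?_) ?_ <;> simp <;> ring

theorem eA_apply (a b c : ℤ) : eA ((a, b), c) + (((0, 0), 0) : V3) = ((a + c, b), c) := by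
  show (((a + c, b), c) : V3) + ((0, 0), 0) = _
  simp

theorem eB_apply (a b c : ℤ) : eB ((a, b), c) + (((0, 0), 0) : V3) = ((b, -a), c + a + b) := by
  show (((b, -a), c + a + b) : V3) + ((0, 0), 0) = _
  simp

theorem eD_apply (a b c : ℤ) : eD ((a, b), c) + (((0, 0), 0) : V3) = ((c, b), a + c) := by
  show (((c, b), a + c) : V3) + ((0, 0), 0) = _
  simp

/-- the second cell -/
theorem extA (hAFE : Stmt_AFE) {h β p : ℤ} (hβ : 1 ≤ β) (hgt : β < p) (hlt : p < h)
    (hG : GG (h - p) β p) : ExtP (QA h β p) (GF h β p) := by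
  have hp : 0 < p := by linarith
  have hhp : 0 < h - p := by linarith
  have hh : 0 < h := by linarith
  refine hAFE eA ((0, 0), 0) _ _ _ _ ?_ ?_ hG
  · rintro ⟨⟨x, y⟩, z⟩
    rw [eA_apply]
    simp only [QA, GP]
    constructor
    · rintro ⟨h1, h2, h3, h4⟩
      refine ⟨by linarith, h2, by linarith, ?_⟩
      have e : (p - β) * (x + z - z) = (p - β) * x := by ring
      rw [e] at h4
      linarith
    · rintro ⟨h1, h2, h3, h4⟩
      refine ⟨by linarith, h2, by linarith, ?_⟩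
      have e : (p - β) * (x + z - z) = (p - β) * x := by ring
      rw [e]
      linarith
  · rintro ⟨⟨x, y⟩, z⟩
    rw [eA_apply]
    simp only [GF]
    constructor
    · rintro ⟨h1, h2, h3, h4⟩
      have e1 : h * z = p * (x + z) := h3.symm
      have e2 : (h - p) * z = p * x := by linarith
      refine ⟨?_, h2, e2.symm, ?_⟩
      · have b1 : 0 ≤ h * x := by
          have e3 : h * x = (h - p) * (x + z) := by linarith
          rw [e3]
          exact mul_nonneg hhp.le h1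
        exact nonneg_of_mul_nonneg_right b1 hh
      · have b1 : 0 ≤ h * ((h - p) * y - (β - p) * x) := by
          have e3 : h * ((h - p) * y - (β - p) * x) = (h - p) * (h * y - (β - p) * (x + z))
            + (β - p) * ((h - p) * z - p * x) := by ring
          rw [e3, e2, sub_self, mul_zero, add_zero]
          exact mul_nonneg hhp.le (by linarith)
        have := nonneg_of_mul_nonneg_right b1 hh
        linarith
    · rintro ⟨h1, h2, h3, h4⟩
      have e2 : (h - p) * z = p * x := h3.symm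
      have hz : 0 ≤ z := by
        have b1 : 0 ≤ (h - p) * z := by
          rw [e2]
          exact mul_nonneg hp.le h1
        exact nonneg_of_mul_nonneg_right b1 hhp
      refine ⟨by linarith, h2, by linarith, ?_⟩
      have b1 : 0 ≤ (h - p) * (h * y - (β - p) * (x + z)) := by
        have e3 : (h - p) * (h * y - (β - p) * (x + z)) = h * ((h - p) * y - (β - p) * x)
            + (β - p) * (p * x - (h - p) * z) := by ring
        rw [e3, e2, sub_self, mul_zero, add_zero]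
        exact mul_nonneg hh.le (by linarith)
      have := nonneg_of_mul_nonneg_right b1 hhp
      linarith

/-- the third cell -/
theorem extB (hAFE : Stmt_AFE) {h β p : ℤ} (hβ : 1 ≤ β) (hgt : β < p) (hlt : p < h)
    (hG : GG (p - β) β (β - h)) :
    ExtP (QB h β p) (fun v => QB h β p v ∧ (p - β) * (v.1.1 - v.2) + (h - p) * v.1.2 = 0) := by
  refine hAFE eB ((0, 0), 0) _ _ _ _ ?_ ?_ hG
  · rintro ⟨⟨x, y⟩, z⟩
    rw [eB_apply]
    simp only [QB, GP]
    constructor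
    · rintro ⟨h1, h2, h3, h4⟩
      exact ⟨by linarith, by linarith, by nlinarith, by nlinarith⟩
    · rintro ⟨h1, h2, h3, h4⟩
      exact ⟨by linarith, by linarith, by nlinarith, by nlinarith⟩
  · rintro ⟨⟨x, y⟩, z⟩
    rw [eB_apply]
    simp only [QB, GF]
    constructor
    · rintro ⟨⟨h1, h2, h3, h4⟩, h5⟩
      exact ⟨by linarith, by linarith, by nlinarith, by nlinarith⟩
    · rintro ⟨h1, h2, h3, h4⟩
      exact ⟨⟨by linarith, by linarith, by nlinarith, by nlinarith⟩, by nlinarith⟩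

/-- the first cell -/
theorem extD (hAFF : Stmt_AFF) {β : ℤ} (hTF : TF β) (T F F' : Finset V3)
    (hT : ∀ v, v ∈ T ↔ QD β v) (hF : ∀ v, v ∈ F ↔ v ∈ T ∧ v.2 = v.1.1)
    (hF' : ∀ v, v ∈ F' ↔ v ∈ T ∧ v.1.2 = 0) (ω : V3 → ℝ) (h1 : RF F ω) (h2 : RF F' ω) :
    ∃ ω' : V3 → ℝ, RLw T ω' ∧ (∀ v ∈ F, ω' v = ω v) ∧ ∀ v ∈ F', ω' v = ω v := by
  classical
  have key : ∀ X : Finset V3, ∀ v, v ∈ X.map eD.symm.toEquiv.toEmbedding ↔
      eD v + ((0, 0), 0) ∈ X := by
    intro X v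
    rw [Finset.mem_map_equiv]
    have : eD v + (((0, 0), 0) : V3) = eD v := by
      show eD v + (0 : V3) = eD v
      rw [add_zero]
    rw [this]
    rfl
  have inv1 : ∀ w : V3, eD (eD.symm w) + (((0, 0), 0) : V3) = w := by
    intro w
    show eD (eD.symm w) + (0 : V3) = w
    rw [add_zero, AddEquiv.apply_symm_apply]
  have g1 := (hAFF V3 V3 eD ((0, 0), 0) (F.map eD.symm.toEquiv.toEmbedding) F ω
    (fun v => (key F v).symm)).1.1 h1
  have g2 := (hAFF V3 V3 eD ((0, 0), 0) (F'.map eD.symm.toEquiv.toEmbedding) F' ω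
    (fun v => (key F' v).symm)).1.1 h2
  obtain ⟨ω', k1, k2, k3⟩ := hTF (T.map eD.symm.toEquiv.toEmbedding)
    (F.map eD.symm.toEquiv.toEmbedding) (F'.map eD.symm.toEquiv.toEmbedding)
    (by
      rintro ⟨⟨x, y⟩, z⟩
      rw [key, hT, eD_apply]
      simp only [QD]
      constructor
      · rintro ⟨h1, h2, h3, h4⟩
        exact ⟨by linarith, h3, h1, by linarith⟩
      · rintro ⟨h1, h2, h3, h4⟩
        exact ⟨h3, by linarith, h2, by linarith⟩)
    (by
      rintro ⟨⟨x, y⟩, z⟩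
      rw [key, key, hF, eD_apply]
      simp only
      constructor
      · rintro ⟨h1, h2⟩
        exact ⟨h1, by linarith⟩
      · rintro ⟨h1, h2⟩
        exact ⟨h1, by linarith⟩)
    (by
      rintro ⟨⟨x, y⟩, z⟩
      rw [key, key, hF', eD_apply])
    (fun v => ω (eD v + ((0, 0), 0))) g1 g2
  refine ⟨fun w => ω' (eD.symm w), ?_, ?_, ?_⟩
  · rw [(hAFF V3 V3 eD ((0, 0), 0) (T.map eD.symm.toEquiv.toEmbedding) T
      (fun w => ω' (eD.symm w)) (fun v => (key T v).symm)).2]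
    have e : (fun v => (fun w => ω' (eD.symm w)) (eD v + (((0, 0), 0) : V3))) = ω' := by
      funext v
      show ω' (eD.symm (eD v + (0 : V3))) = ω' v
      rw [add_zero, AddEquiv.symm_apply_apply]
    rw [e]
    exact k1
  · intro v hv
    have := k2 (eD.symm v) (by rw [key, inv1]; exact hv)
    show ω' (eD.symm v) = ω v
    rw [this, inv1]
  · intro v hv
    have := k3 (eD.symm v) (by rw [key, inv1]; exact hv)
    show ω' (eD.symm v) = ω v
    rw [this, inv1]

theorem sum_lin (C : Finset V3) (a b c d : ℤ) : ∑ v ∈ C, (lin a b c v + d) =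
    a * ∑ v ∈ C, v.1.1 + b * ∑ v ∈ C, v.1.2 + c * ∑ v ∈ C, v.2 + C.card * d := by
  simp only [lin_apply, Finset.sum_add_distrib, Finset.mul_sum, Finset.sum_const, nsmul_eq_mul]

theorem max3a {a b c : ℝ} : a + 0 = max a (max b c) ↔ b ≤ a ∧ c ≤ a := by
  rw [add_zero]
  constructor
  · intro h
    have h1 : max b c ≤ a := (le_max_right a (max b c)).trans_eq h.symm
    exact ⟨le_trans (le_max_left _ _) h1, le_trans (le_max_right _ _) h1⟩
  · rintro ⟨h1, h2⟩
    exact (max_eq_left (max_le h1 h2)).symm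

theorem max3b {a b c : ℝ} : b + 0 = max a (max b c) ↔ a ≤ b ∧ c ≤ b := by
  rw [add_zero]
  constructor
  · intro h
    have h1 : max b c ≤ b := (le_max_right a (max b c)).trans_eq h.symm
    have h2 : a ≤ b := (le_max_left a (max b c)).trans_eq h.symm
    exact ⟨h2, le_trans (le_max_right _ _) h1⟩
  · rintro ⟨h1, h2⟩
    rw [max_eq_left h2, max_eq_right h1]

theorem max3c {a b c : ℝ} : c + 0 = max a (max b c) ↔ a ≤ c ∧ b ≤ c := by
  rw [add_zero]
  constructor
  · intro h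
    have h1 : max b c ≤ c := (le_max_right a (max b c)).trans_eq h.symm
    have h2 : a ≤ c := (le_max_left a (max b c)).trans_eq h.symm
    exact ⟨h2, le_trans (le_max_left _ _) h1⟩
  · rintro ⟨h1, h2⟩
    rw [max_eq_right h2, max_eq_right h1]

/-- comparison of real functions with positive factor -/
theorem cmp {a b k : ℝ} {t : ℤ} (hk : 0 < k) (he : a - b = k * (t : ℝ)) :
    (b ≤ a ↔ 0 ≤ t) ∧ (a ≤ b ↔ t ≤ 0) := by
  constructor
  · rw [← sub_nonneg, he, mul_nonneg_iff_of_pos_left hk]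
    exact_mod_cast Iff.rfl
  · rw [← sub_nonpos, he]
    constructor
    · intro h1
      by_contra h2
      push Not at h2
      have h3 : (0 : ℝ) < t := by exact_mod_cast h2
      exact absurd h1 (not_le.2 (mul_pos hk h3))
    · intro h1
      have h2 : (t : ℝ) ≤ 0 := by exact_mod_cast h1
      exact mul_nonpos_of_nonneg_of_nonpos hk.le h2

/-- the cover -/
theorem cover {h β p : ℤ} (hβ : 1 ≤ β) (hgt : β < p) (hlt : p < h) (S TD TA TB C : Finset V3)
    (hS : ∀ v, v ∈ S ↔ GP h β p v) (hTD : ∀ v, v ∈ TD ↔ QD β v) (hTA : ∀ v, v ∈ TA ↔ QA h β p v)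
    (hTB : ∀ v, v ∈ TB ↔ QB h β p v) (hC : C ⊆ S) :
    ∃ i : Fin 3, ∀ (ψ : V3 →+ ℝ) (d : ℝ), (∀ v ∈ (![TD, TA, TB] : Fin 3 → Finset V3) i,
      ψ v + d ≤ 0) → ∑ v ∈ C, (ψ v + d) ≤ 0 := by
  have hβ0 : 0 < β := by linarith
  have hp : 0 < p := by linarith
  have hhp : 0 < h - p := by linarith
  have hpb : 0 < p - β := by linarith
  have hh : 0 < h := by linarith
  have rβ : (β : ℝ) ≠ 0 := by exact_mod_cast hβ0.ne'
  have rhp : (h : ℝ) - p ≠ 0 := by
    have : ((h - p : ℤ) : ℝ) ≠ 0 := by exact_mod_cast hhp.ne'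
    push_cast at this
    exact this
  have rpb : (p : ℝ) - β ≠ 0 := by
    have : ((p - β : ℤ) : ℝ) ≠ 0 := by exact_mod_cast hpb.ne'
    push_cast at this
    exact this
  set X := ∑ v ∈ C, v.1.1 with hX
  set Y := ∑ v ∈ C, v.1.2 with hY
  set Z := ∑ v ∈ C, v.2 with hZ
  have s0 : 0 ≤ ∑ v ∈ C, (lin 0 (-1) (-1) v + β) := by
    apply Finset.sum_nonneg
    intro v hv
    obtain ⟨h1, h2, h3, h4⟩ := (hS v).1 (hC hv)
    rw [lin_apply]
    linarith
  have s1 : 0 ≤ ∑ v ∈ C, (lin 1 0 0 v + 0) := by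
    apply Finset.sum_nonneg
    intro v hv
    obtain ⟨h1, h2, h3, h4⟩ := (hS v).1 (hC hv)
    rw [lin_apply]
    linarith
  have s2 : 0 ≤ ∑ v ∈ C, (lin (-p) 0 h v + 0) := by
    apply Finset.sum_nonneg
    intro v hv
    obtain ⟨h1, h2, h3, h4⟩ := (hS v).1 (hC hv)
    rw [lin_apply]
    linarith
  have s3 : 0 ≤ ∑ v ∈ C, (lin (p - β) h 0 v + 0) := by
    apply Finset.sum_nonneg
    intro v hv
    obtain ⟨h1, h2, h3, h4⟩ := (hS v).1 (hC hv)
    rw [lin_apply]
    linarith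
  by_cases hc1 : X ≤ Z ∧ 0 ≤ Y
  · refine ⟨0, ?_⟩
    refine cover_simplex TD C ![((0, 0), 0), ((0, β), 0), ((β, 0), β), ((0, 0), β)]
      ![lin 0 (-1) (-1), lin 0 1 0, lin 1 0 0, lin (-1) 0 1] ![β, 0, 0, 0] ![β, β, β, β]
      ?_ ?_ ?_ ?_
    · intro j
      rw [hTD]
      fin_cases j <;> simp [QD, hβ0.le]
    · intro j
      fin_cases j <;> simpa using hβ0
    · intro ψ d v
      rw [Fin.sum_univ_four]
      simp only [Matrix.cons_val_zero, Matrix.cons_val_one, Matrix.cons_val_two,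
        Matrix.cons_val_three, Matrix.tail_cons, Matrix.head_cons]
      rw [hom3 ψ v, hom3 ψ ((0, 0), 0), hom3 ψ ((0, β), 0), hom3 ψ ((β, 0), β),
        hom3 ψ ((0, 0), β)]
      simp only [lin_apply]
      set a := ψ ((1, 0), 0)
      set b := ψ ((0, 1), 0)
      set c := ψ ((0, 0), 1)
      push_cast
      field_simp
      ring
    · intro j
      fin_cases j
      · exact s0
      · show 0 ≤ ∑ v ∈ C, (lin 0 1 0 v + 0)
        rw [sum_lin, ← hX, ← hY, ← hZ]
        linarith [hc1.2]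
      · exact s1
      · show 0 ≤ ∑ v ∈ C, (lin (-1) 0 1 v + 0)
        rw [sum_lin, ← hX, ← hY, ← hZ]
        linarith [hc1.1]
  by_cases hc2 : 0 ≤ (p - β) * (X - Z) + (h - p) * Y
  · have hXZ : Z ≤ X := by
      by_contra hcon
      push Not at hcon
      have hY0 : Y < 0 := by
        by_contra hY0
        push Not at hY0
        exact hc1 ⟨hcon.le, hY0⟩
      have b1 : (p - β) * (X - Z) < 0 := mul_neg_of_pos_of_neg hpb (by linarith)
      have b2 : (h - p) * Y < 0 := mul_neg_of_pos_of_neg hhp hY0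
      linarith
    refine ⟨1, ?_⟩
    refine cover_simplex TA C ![((0, 0), 0), ((h, β - p), p), ((0, β), 0), ((β, 0), β)]
      ![lin 0 (-1) (-1), lin 1 0 (-1), lin (p - β) (h - p) (-(p - β)), lin (-p) 0 h]
      ![β, 0, 0, 0] ![β, h - p, (h - p) * β, (h - p) * β]
      ?_ ?_ ?_ ?_
    · intro j
      rw [hTA]
      fin_cases j
      · simp [QA, hβ0.le]
      · simp only [QA]
        simp
        refine ⟨hlt.le, ?_, ?_⟩
        · exact le_of_eq (by ring)
        · exact le_of_eq (by ring)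
      · simp only [QA]
        simp
        exact mul_nonneg (by linarith) hβ0.le
      · simp only [QA]
        simp
        exact mul_le_mul_of_nonneg_right hlt.le hβ0.le
    · intro j
      fin_cases j
      · simpa using hβ0
      · simpa using hlt
      · simpa using mul_pos hhp hβ0
      · simpa using mul_pos hhp hβ0
    · intro ψ d v
      rw [Fin.sum_univ_four]
      simp only [Matrix.cons_val_zero, Matrix.cons_val_one, Matrix.cons_val_two,
        Matrix.cons_val_three, Matrix.tail_cons, Matrix.head_cons]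
      rw [hom3 ψ v, hom3 ψ ((0, 0), 0), hom3 ψ ((0, β), 0), hom3 ψ ((β, 0), β),
        hom3 ψ ((h, β - p), p)]
      simp only [lin_apply]
      set a := ψ ((1, 0), 0)
      set b := ψ ((0, 1), 0)
      set c := ψ ((0, 0), 1)
      push_cast
      field_simp
      ring
    · intro j
      fin_cases j
      · exact s0
      · show 0 ≤ ∑ v ∈ C, (lin 1 0 (-1) v + 0)
        rw [sum_lin, ← hX, ← hY, ← hZ]
        linarith
      · show 0 ≤ ∑ v ∈ C, (lin (p - β) (h - p) (-(p - β)) v + 0)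
        rw [sum_lin, ← hX, ← hY, ← hZ]
        linarith
      · exact s2
  · push Not at hc2
    have hY0 : Y ≤ 0 := by
      by_contra hcon
      push Not at hcon
      have hXZ : Z < X := by
        by_contra hXZ
        push Not at hXZ
        exact hc1 ⟨hXZ, hcon.le⟩
      have b1 : 0 < (p - β) * (X - Z) := mul_pos hpb (by linarith)
      have b2 : 0 < (h - p) * Y := mul_pos hhp hcon
      linarith
    refine ⟨2, ?_⟩
    refine cover_simplex TB C ![((0, 0), 0), ((h, β - p), p), ((β, 0), β), ((0, 0), β)]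
      ![lin 0 (-1) (-1), lin 0 (-1) 0, lin (p - β) h 0, lin (-(p - β)) (-(h - p)) (p - β)]
      ![β, 0, 0, 0] ![β, p - β, (p - β) * β, (p - β) * β]
      ?_ ?_ ?_ ?_
    · intro j
      rw [hTB]
      fin_cases j
      · simp [QB, hβ0.le]
      · simp only [QB]
        simp
        refine ⟨hgt.le, ?_, ?_⟩
        · exact le_of_eq (by ring)
        · exact le_of_eq (by ring)
      · simp only [QB]
        simp
        exact mul_nonpos_of_nonpos_of_nonneg (by linarith) hβ0.le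
      · simp only [QB]
        simp
        exact mul_nonneg hpb.le hβ0.le
    · intro j
      fin_cases j
      · simpa using hβ0
      · simpa using hgt
      · simpa using mul_pos hpb hβ0
      · simpa using mul_pos hpb hβ0
    · intro ψ d v
      rw [Fin.sum_univ_four]
      simp only [Matrix.cons_val_zero, Matrix.cons_val_one, Matrix.cons_val_two,
        Matrix.cons_val_three, Matrix.tail_cons, Matrix.head_cons]
      rw [hom3 ψ v, hom3 ψ ((0, 0), 0), hom3 ψ ((0, 0), β), hom3 ψ ((β, 0), β),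
        hom3 ψ ((h, β - p), p)]
      simp only [lin_apply]
      set a := ψ ((1, 0), 0)
      set b := ψ ((0, 1), 0)
      set c := ψ ((0, 0), 1)
      push_cast
      field_simp
      ring
    · intro j
      fin_cases j
      · exact s0
      · show 0 ≤ ∑ v ∈ C, (lin 0 (-1) 0 v + 0)
        rw [sum_lin, ← hX, ← hY, ← hZ]
        linarith
      · exact s3
      · show 0 ≤ ∑ v ∈ C, (lin (-(p - β)) (-(h - p)) (p - β) v + 0)
        rw [sum_lin, ← hX, ← hY, ← hZ]
        linarith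

end G22_

open G22_ in
theorem g22_proof (hCOA : Stmt_COA) (hAFE : Stmt_AFE) (hAFF : Stmt_AFF) (hFA3 : Stmt_FA3) :
    Stmt_G22 := by
  classical
  intro h β p hβ hgt hlt hGA hGB hTF S A hS hA ω hω
  have hβ0 : 0 < β := by linarith
  have hp : 0 < p := by linarith
  have hhp : 0 < h - p := by linarith
  have hpb : 0 < p - β := by linarith
  have hh : 0 < h := by linarith
  -- the cells
  obtain ⟨TD, hTD⟩ : ∃ TD : Finset V3, ∀ v, v ∈ TD ↔ QD β v :=
    ⟨S.filter fun v => v.1.1 ≤ v.2 ∧ 0 ≤ v.1.2, fun v => by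
      rw [Finset.mem_filter, hS, QD_iff hβ hgt hlt]⟩
  obtain ⟨TA, hTA⟩ : ∃ TA : Finset V3, ∀ v, v ∈ TA ↔ QA h β p v :=
    ⟨S.filter fun v => v.2 ≤ v.1.1 ∧ 0 ≤ (p - β) * (v.1.1 - v.2) + (h - p) * v.1.2, fun v => by
      rw [Finset.mem_filter, hS, QA_iff hβ hgt hlt]⟩
  obtain ⟨TB, hTB⟩ : ∃ TB : Finset V3, ∀ v, v ∈ TB ↔ QB h β p v :=
    ⟨S.filter fun v => v.1.2 ≤ 0 ∧ (p - β) * (v.1.1 - v.2) + (h - p) * v.1.2 ≤ 0, fun v => by
      rw [Finset.mem_filter, hS, QB_iff hβ hgt hlt]⟩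
  -- the vertices
  have u_A : ((0, 0), 0) ∈ TA := by
    rw [hTA]
    simp [QA, hβ0.le]
  have v_A : ((h, β - p), p) ∈ TA := by
    rw [hTA]
    simp only [QA]
    refine ⟨hlt.le, by linarith, le_of_eq (by ring), le_of_eq (by ring)⟩
  have w_A : ((β, 0), β) ∈ TA := by
    rw [hTA]
    simp only [QA]
    refine ⟨le_rfl, by linarith, mul_le_mul_of_nonneg_right hlt.le hβ0.le, by simp⟩
  have w'_A : ((0, β), 0) ∈ TA := by
    rw [hTA]
    simp only [QA]
    refine ⟨le_rfl, by linarith, by simp, ?_⟩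
    simp only [sub_self, mul_zero, zero_add]
    exact mul_nonneg hhp.le hβ0.le
  have u_B : ((0, 0), 0) ∈ TB := by
    rw [hTB]
    simp [QB, hβ0.le]
  have v_B : ((h, β - p), p) ∈ TB := by
    rw [hTB]
    simp only [QB]
    refine ⟨by linarith, by linarith, le_of_eq (by ring), le_of_eq (by ring)⟩
  have W_B : ((β, 0), β) ∈ TB := by
    rw [hTB]
    simp only [QB]
    refine ⟨le_rfl, by linarith, ?_, by simp⟩
    rw [mul_zero]
    exact mul_nonpos_of_nonpos_of_nonneg (by linarith) hβ0.le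
  have w_B : ((0, 0), β) ∈ TB := by
    rw [hTB]
    simp only [QB]
    refine ⟨le_rfl, by linarith, by simp, ?_⟩
    have := mul_nonneg hpb.le hβ0.le
    linarith
  -- heights on the second cell
  obtain ⟨ωA, hA1, hA2⟩ := extA hAFE hβ hgt hlt hGA TA A hTA hA ω hω
  -- the wall
  obtain ⟨Wl, hWl⟩ : ∃ Wl : Finset V3, ∀ v, v ∈ Wl ↔ v ∈ TA ∧
      (p - β) * (v.1.1 - v.2) + (h - p) * v.1.2 = 0 :=
    ⟨TA.filter fun v => (p - β) * (v.1.1 - v.2) + (h - p) * v.1.2 = 0, fun v => by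
      rw [Finset.mem_filter]⟩
  have hWB : ∀ v, v ∈ Wl ↔ QB h β p v ∧ (p - β) * (v.1.1 - v.2) + (h - p) * v.1.2 = 0 := by
    intro v
    rw [hWl, hTA]
    exact wall_iff hβ hgt hlt
  have hRW : RF Wl ωA := by
    refine hFA3 TA Wl (lin (p - β) (h - p) (-(p - β))) 0 ωA ((0, 0), 0) ((h, β - p), p)
      ((β, 0), β) ((0, β), 0) ?_ ?_ ?_ ?_ ?_ w'_A ?_ hA1
    · intro x hx
      rw [hTA] at hx
      have := hx.2.2.2
      rw [lin_apply]
      linarith
    · intro x
      rw [hWl, lin_apply]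
      constructor
      · rintro ⟨h1, h2⟩
        exact ⟨h1, by linarith⟩
      · rintro ⟨h1, h2⟩
        exact ⟨h1, by linarith⟩
    · rw [hWl]
      exact ⟨u_A, by simp⟩
    · rw [hWl]
      exact ⟨v_A, by simp only; ring⟩
    · rw [hWl]
      exact ⟨w_A, by simp⟩
    · simp only
      have e : (h - 0) * ((0 - 0) * (0 - 0) - (β - 0) * (β - 0)) -
          (β - p - 0) * ((β - 0) * (0 - 0) - (β - 0) * (0 - 0)) +
          (p - 0) * ((β - 0) * (β - 0) - (0 - 0) * (0 - 0)) = -((h - p) * (β * β)) := by ring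
      rw [e]
      exact neg_ne_zero.2 (mul_pos hhp (mul_pos hβ0 hβ0)).ne'
  -- heights on the third cell
  obtain ⟨ωB, hB1, hB2⟩ := extB hAFE hβ hgt hlt hGB TB Wl hTB hWB ωA hRW
  -- the walls of the first cell
  obtain ⟨F, hF⟩ : ∃ F : Finset V3, ∀ v, v ∈ F ↔ v ∈ TD ∧ v.2 = v.1.1 :=
    ⟨TD.filter fun v => v.2 = v.1.1, fun v => by rw [Finset.mem_filter]⟩
  obtain ⟨F', hF'⟩ : ∃ F' : Finset V3, ∀ v, v ∈ F' ↔ v ∈ TD ∧ v.1.2 = 0 :=
    ⟨TD.filter fun v => v.1.2 = 0, fun v => by rw [Finset.mem_filter]⟩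
  have hFA : ∀ v, v ∈ F ↔ v ∈ TA ∧ v.2 = v.1.1 := by
    intro v
    rw [hF, hTD, hTA]
    exact wallDA_iff hβ hgt hlt
  have hFB : ∀ v, v ∈ F' ↔ v ∈ TB ∧ v.1.2 = 0 := by
    intro v
    rw [hF', hTD, hTB]
    exact wallDB_iff hβ hgt hlt
  have hRF : RF F ωA := by
    refine hFA3 TA F (lin 1 0 (-1)) 0 ωA ((0, 0), 0) ((0, β), 0)
      ((β, 0), β) ((h, β - p), p) ?_ ?_ ?_ ?_ ?_ v_A ?_ hA1
    · intro x hx
      rw [hTA] at hx
      have := hx.1
      rw [lin_apply]
      linarith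
    · intro x
      rw [hFA, lin_apply]
      constructor
      · rintro ⟨h1, h2⟩
        exact ⟨h1, by linarith⟩
      · rintro ⟨h1, h2⟩
        exact ⟨h1, by linarith⟩
    · rw [hFA]
      exact ⟨u_A, rfl⟩
    · rw [hFA]
      exact ⟨w'_A, rfl⟩
    · rw [hFA]
      exact ⟨w_A, rfl⟩
    · simp only
      have e : (0 - 0) * ((0 - 0) * (p - 0) - (β - 0) * (β - p - 0)) -
          (β - 0) * ((β - 0) * (p - 0) - (β - 0) * (h - 0)) +
          (0 - 0) * ((β - 0) * (β - p - 0) - (0 - 0) * (h - 0)) = (h - p) * (β * β) := by ring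
      rw [e]
      exact (mul_pos hhp (mul_pos hβ0 hβ0)).ne'
  have hRF' : RF F' ωB := by
    refine hFA3 TB F' (lin 0 (-1) 0) 0 ωB ((0, 0), 0) ((0, 0), β)
      ((β, 0), β) ((h, β - p), p) ?_ ?_ ?_ ?_ ?_ v_B ?_ hB1
    · intro x hx
      rw [hTB] at hx
      have := hx.1
      rw [lin_apply]
      linarith
    · intro x
      rw [hFB, lin_apply]
      constructor
      · rintro ⟨h1, h2⟩
        exact ⟨h1, by linarith⟩
      · rintro ⟨h1, h2⟩
        exact ⟨h1, by linarith⟩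
    · rw [hFB]
      exact ⟨u_B, rfl⟩
    · rw [hFB]
      exact ⟨w_B, rfl⟩
    · rw [hFB]
      exact ⟨W_B, rfl⟩
    · simp only
      have e : (0 - 0) * ((0 - 0) * (p - 0) - (β - 0) * (β - p - 0)) -
          (0 - 0) * ((β - 0) * (p - 0) - (β - 0) * (h - 0)) +
          (β - 0) * ((β - 0) * (β - p - 0) - (0 - 0) * (h - 0)) = -((p - β) * (β * β)) := by ring
      rw [e]
      exact neg_ne_zero.2 (mul_pos hpb (mul_pos hβ0 hβ0)).ne'
  -- points in the second and the third cell lie in the wall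
  have hAB : ∀ v, v ∈ TA → v ∈ TB → v ∈ Wl := by
    intro v h1 h2
    rw [hWl]
    refine ⟨h1, ?_⟩
    rw [hTA] at h1
    rw [hTB] at h2
    exact le_antisymm h2.2.2.2 h1.2.2.2
  -- heights on the first cell
  set ωAB : V3 → ℝ := fun v => if v ∈ TA then ωA v else ωB v with hωAB
  have hABB : ∀ v ∈ TB, ωAB v = ωB v := by
    intro v hv
    simp only [hωAB]
    split_ifs with h1
    · exact (hB2 v (hAB v h1 hv)).symm
    · rfl
  have hABA : ∀ v ∈ TA, ωAB v = ωA v := by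
    intro v hv
    simp only [hωAB]
    rw [if_pos hv]
  obtain ⟨ωD, hD1, hD2, hD3⟩ := extD hAFF hTF TD F F' hTD hF hF' ωAB
    (hRF.congr fun v hv => (hABA v ((hFA v).1 hv).1).symm)
    (hRF'.congr fun v hv => (hABB v ((hFB v).1 hv).1).symm)
  -- all heights
  set ω₁ : V3 → ℝ := fun v => if v ∈ TA then ωA v else if v ∈ TB then ωB v else ωD v with hω₁
  have k1 : ∀ v ∈ TA, ω₁ v = ωA v := by
    intro v hv
    simp only [hω₁]
    rw [if_pos hv]
  have k2 : ∀ v ∈ TB, ω₁ v = ωB v := by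
    intro v hv
    simp only [hω₁]
    split_ifs with h1
    · exact (hB2 v (hAB v h1 hv)).symm
    · rfl
  have k3 : ∀ v ∈ TD, ω₁ v = ωD v := by
    intro v hv
    have hvD := (hTD v).1 hv
    simp only [hω₁]
    split_ifs with h1 h2
    · have hvA := (hTA v).1 h1
      have hvF : v ∈ F := (hF v).2 ⟨hv, le_antisymm hvA.1 hvD.2.1⟩
      rw [hD2 v hvF, hABA v h1]
    · have hvB := (hTB v).1 h2
      have hvF : v ∈ F' := (hF' v).2 ⟨hv, le_antisymm hvB.1 hvD.2.2.1⟩
      rw [hD3 v hvF, hABB v h2]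
    · rfl
  -- the piecewise affine function
  have rβ : 0 < (β : ℝ) := by exact_mod_cast hβ0
  have rhp : 0 < (h : ℝ) - p := by
    have : (0 : ℝ) < ((h - p : ℤ) : ℝ) := by exact_mod_cast hhp
    push_cast at this
    exact this
  have rpb : 0 < (p : ℝ) - β := by
    have : (0 : ℝ) < ((p - β : ℤ) : ℝ) := by exact_mod_cast hpb
    push_cast at this
    exact this
  have rh : 0 < (h : ℝ) := by exact_mod_cast hh
  set fD : V3 →+ ℝ := (-(1 / (β : ℝ))) • toR (lin 1 0 0) with hfD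
  set fA : V3 →+ ℝ := (-(1 / ((β : ℝ) * (h - p)))) • toR (lin (-p) 0 h) with hfA
  set fB : V3 →+ ℝ := (-(1 / ((β : ℝ) * (p - β)))) • toR (lin (p - β) h 0) with hfB
  have eD' : ∀ v : V3, fD v = -(1 / (β : ℝ)) * v.1.1 := by
    intro v
    show (-(1 / (β : ℝ))) * ((lin 1 0 0 v : ℤ) : ℝ) = _
    rw [lin_apply]
    push_cast
    ring
  have eA' : ∀ v : V3, fA v = -(1 / ((β : ℝ) * (h - p))) * (h * v.2 - p * v.1.1) := by
    intro v
    show (-(1 / ((β : ℝ) * (h - p)))) * ((lin (-p) 0 h v : ℤ) : ℝ) = _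
    rw [lin_apply]
    push_cast
    ring
  have eB' : ∀ v : V3, fB v = -(1 / ((β : ℝ) * (p - β))) * ((p - β) * v.1.1 + h * v.1.2) := by
    intro v
    show (-(1 / ((β : ℝ) * (p - β)))) * ((lin (p - β) h 0 v : ℤ) : ℝ) = _
    rw [lin_apply]
    push_cast
    ring
  have cDA : ∀ v : V3, (fA v ≤ fD v ↔ 0 ≤ v.2 - v.1.1) ∧ (fD v ≤ fA v ↔ v.2 - v.1.1 ≤ 0) := by
    intro v
    refine cmp (k := (h : ℝ) / (β * (h - p))) (by positivity) ?_
    rw [eD', eA']
    have := rβ.ne'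
    have := rhp.ne'
    push_cast
    field_simp
    ring
  have cDB : ∀ v : V3, (fB v ≤ fD v ↔ 0 ≤ v.1.2) ∧ (fD v ≤ fB v ↔ v.1.2 ≤ 0) := by
    intro v
    refine cmp (k := (h : ℝ) / (β * (p - β))) (by positivity) ?_
    rw [eD', eB']
    have := rβ.ne'
    have := rpb.ne'
    push_cast
    field_simp
    ring
  have cAB : ∀ v : V3, (fB v ≤ fA v ↔ 0 ≤ (p - β) * (v.1.1 - v.2) + (h - p) * v.1.2) ∧
      (fA v ≤ fB v ↔ (p - β) * (v.1.1 - v.2) + (h - p) * v.1.2 ≤ 0) := by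
    intro v
    refine cmp (k := (h : ℝ) / (β * (h - p) * (p - β))) (by positivity) ?_
    rw [eA', eB']
    have := rβ.ne'
    have := rpb.ne'
    have := rhp.ne'
    push_cast
    field_simp
    ring
  obtain ⟨M, hM⟩ := hCOA V3 3 S ![TD, TA, TB] ![fD, fA, fB] ![0, 0, 0]
    (fun v => max (fD v) (max (fA v) (fB v))) ω₁ (by
      intro i v _
      fin_cases i
      · show fD v + 0 ≤ _
        rw [add_zero]
        exact le_max_left _ _
      · show fA v + 0 ≤ _
        rw [add_zero]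
        exact le_trans (le_max_left _ _) (le_max_right _ _)
      · show fB v + 0 ≤ _
        rw [add_zero]
        exact le_trans (le_max_right _ _) (le_max_right _ _)) (by
      intro i v
      fin_cases i
      · show v ∈ TD ↔ v ∈ S ∧ fD v + 0 = max (fD v) (max (fA v) (fB v))
        rw [max3a, (cDA v).1, (cDB v).1, hTD, hS, QD_iff hβ hgt hlt, sub_nonneg]
      · show v ∈ TA ↔ v ∈ S ∧ fA v + 0 = max (fD v) (max (fA v) (fB v))
        rw [max3b, (cDA v).2, (cAB v).1, hTA, hS, QA_iff hβ hgt hlt, sub_nonpos]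
      · show v ∈ TB ↔ v ∈ S ∧ fB v + 0 = max (fD v) (max (fA v) (fB v))
        rw [max3c, (cDB v).2, (cAB v).2, hTB, hS, QB_iff hβ hgt hlt]) (by
      intro C hC _
      exact cover hβ hgt hlt S TD TA TB C hS hTD hTA hTB hC) (by
      intro i
      fin_cases i
      · show RLw TD ω₁
        exact RLw.congr hD1 fun v hv => (k3 v hv).symm
      · show RLw TA ω₁
        exact RLw.congr hA1 fun v hv => (k1 v hv).symm
      · show RLw TB ω₁
        exact RLw.congr hB1 fun v hv => (k2 v hv).symm)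
  refine ⟨_, hM M le_rfl, ?_⟩
  intro v hv
  have hG := (hA v).1 hv
  have hvA : v ∈ TA := (hTA v).2 (GF_QA hβ hgt hlt hG)
  obtain ⟨g1, g2, g3, g4⟩ := hG
  have z1 : fA v = 0 := by
    rw [eA']
    have : (h : ℝ) * v.2 - p * v.1.1 = 0 := by
      have : ((h * v.2 - p * v.1.1 : ℤ) : ℝ) = 0 := by
        exact_mod_cast (show h * v.2 - p * v.1.1 = 0 by linarith)
      push_cast at this
      exact this
    rw [this, mul_zero]
  have z2 : fD v ≤ fA v := by
    rw [(cDA v).2]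
    have := (GF_QA hβ hgt hlt ((hA v).1 hv)).1
    linarith
  have z3 : fB v ≤ fA v := by
    rw [(cAB v).1]
    exact (GF_QA hβ hgt hlt ((hA v).1 hv)).2.2.2
  have z4 : max (fD v) (max (fA v) (fB v)) = 0 := by
    rw [max_eq_left z3, max_eq_right z2, z1]
  show M * max (fD v) (max (fA v) (fB v)) + ω₁ v = ω v
  rw [z4, mul_zero, zero_add, k1 v hvA, hA2 v hv]

end LHR
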