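import Pool.Agent.LHR.Stmts

/-!
Heights on a graph are heights on the base (squad LHR, MP_74b890_co).
-/

namespace LHR

open Pool.Agent.LHT

/-- the graph of a homomorphism -/
def GRF_graph {Y : Type} [AddCommGroup Y] (lo : Y →+ ℤ) : Y →+ Y × ℤ :=
  (AddMonoidHom.id Y).prod lo

theorem GRF_graph_apply {Y : Type} [AddCommGroup Y] (lo : Y →+ ℤ) (y : Y) :
    GRF_graph lo y = (y, lo y) := rfl

theorem GRF_split {Y : Type} [AddCommGroup Y] (lo : Y →+ ℤ) (l0 : ℤ) (y : Y) :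
    ((y, lo y + l0) : Y × ℤ) = GRF_graph lo y + ((0 : Y), l0) := by
  rw [GRF_graph_apply]
  ext <;> simp

theorem grf_proof (hCRI : Stmt_CRI) : Stmt_GRF := by
  intro Y _ hSep B A lo l0 ω _ hA hRF φ b hle hs
  have hmem : ∀ v : Y × ℤ, v ∈ contact A ω (φ.comp (AddMonoidHom.fst Y ℤ)) b ↔
      v.2 = lo v.1 + l0 ∧ v.1 ∈ contact B (fun y => ω (y, lo y + l0)) φ b := by
    rintro ⟨y, t⟩
    rw [mem_contact, mem_contact, hA]
    dsimp only
    constructor
    · rintro ⟨⟨h1, h2⟩, h3⟩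
      refine ⟨h2, h1, ?_⟩
      rw [← h2]
      exact h3
    · rintro ⟨h2, h1, h3⟩
      refine ⟨⟨h1, h2⟩, ?_⟩
      rw [← h2] at h3
      exact h3
  have hPU : PU (contact A ω (φ.comp (AddMonoidHom.fst Y ℤ)) b) := by
    apply hRF
    · rintro ⟨y, t⟩ hv
      obtain ⟨h1, h2⟩ := (hA _).mp hv
      dsimp only at h1 h2
      have h3 := hle y h1
      rw [h2]
      exact h3
    · intro χ d hχ
      have h4 : χ.comp (GRF_graph lo) = 0 ∧ χ ((0 : Y), l0) + d = 0 := by
        apply hs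
        intro y hy
        have h5 := hχ (y, lo y + l0) ((hmem _).mpr ⟨rfl, hy⟩)
        rw [GRF_split, map_add] at h5
        show χ (GRF_graph lo y) + (χ ((0 : Y), l0) + d) = 0
        linarith
      rintro ⟨y, t⟩ hv
      obtain ⟨h1, h2⟩ := (hA _).mp hv
      dsimp only at h1 h2
      rw [h2, GRF_split, map_add]
      have h6 : χ (GRF_graph lo y) = 0 := by
        have := DFunLike.congr_fun h4.1 y
        exact this
      rw [h6]
      linarith [h4.2]
  apply hCRI Y hSep _ hs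
  intro p hp
  obtain ⟨ψ, c, h1, h2⟩ := hPU (p, lo p + l0) ((hmem _).mpr ⟨rfl, hp⟩)
  refine ⟨ψ.comp (GRF_graph lo), ψ ((0 : Y), l0) + c, ?_, ?_⟩
  · rw [GRF_split, map_add] at h1
    show ψ (GRF_graph lo p) + (ψ ((0 : Y), l0) + c) = 1
    linarith
  · intro q hq hqp
    have h3 := h2 (q, lo q + l0) ((hmem _).mpr ⟨rfl, hq⟩) (by
      intro h
      exact hqp (congrArg Prod.fst h))
    rw [GRF_split, map_add] at h3
    show ψ (GRF_graph lo q) + (ψ ((0 : Y), l0) + c) = 0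
    linarith

end LHR
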