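import Pool.Agent.LHR.Stmts

/-!
Squad LHR, module GSH: `GG h β` depends only on `p` modulo `h`.
-/

namespace LHR

open Pool.Agent.LHT

namespace GSH_

/-- the shear `((x, y), z) ↦ ((x, y - k x), z + k x)` -/
def shear (k : ℤ) : V3 ≃+ V3 where
  toFun v := ((v.1.1, v.1.2 - k * v.1.1), v.2 + k * v.1.1)
  invFun v := ((v.1.1, v.1.2 + k * v.1.1), v.2 - k * v.1.1)
  left_inv v := by
    ext <;> simp
  right_inv v := by
    ext <;> simp
  map_add' v w := by
    ext
    · simp
    · simp only [Prod.fst_add, Prod.snd_add]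
      ring
    · simp only [Prod.fst_add, Prod.snd_add]
      ring

theorem shear_apply (k : ℤ) (v : V3) :
    shear k v + 0 = ((v.1.1, v.1.2 - k * v.1.1), v.2 + k * v.1.1) := by
  rw [add_zero]
  rfl

end GSH_

open GSH_

theorem gsh_proof (hAFE : Stmt_AFE) : Stmt_GSH := by
  intro h β p k hG
  refine hAFE (shear k) 0 (GP h β p) (GF h β p) (GP h β (p + k * h)) (GF h β (p + k * h)) ?_ ?_ hG
  · intro v
    rw [shear_apply]
    unfold GP
    simp only
    constructor
    · rintro ⟨h1, h2, h3, h4⟩
      refine ⟨h1, by linarith, by linarith, by linarith⟩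
    · rintro ⟨h1, h2, h3, h4⟩
      refine ⟨h1, by linarith, by linarith, by linarith⟩
  · intro v
    rw [shear_apply]
    unfold GF
    simp only
    constructor
    · rintro ⟨h1, h2, h3, h4⟩
      refine ⟨h1, by linarith, by linarith, by linarith⟩
    · rintro ⟨h1, h2, h3, h4⟩
      refine ⟨h1, by linarith, by linarith, by linarith⟩

end LHR
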