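import Pool.Agent.LHR.Stmts

/-!
# IND: the induction
-/

set_option autoImplicit false

namespace LHR

open Pool.Agent.LHT

namespace IND_

theorem extP_congr {p q p' q' : V3 → Prop} (h : ExtP p q) (hp : ∀ v, p v ↔ p' v)
    (hq : ∀ v, q v ↔ q' v) : ExtP p' q' := by
  intro S A hS hA
  exact h S A (fun v => (hS v).trans (hp v).symm) (fun v => (hA v).trans (hq v).symm)

/-- the facet heights extend if the `GG` statements hold -/
theorem f3_of (hF31 : Stmt_F31) (hF3D : Stmt_F3D) (hF32 : Stmt_F32) (a : ℤ) (ha : 1 ≤ a) :
    ∀ (n : ℕ) (b c : ℤ), (b + c).toNat ≤ n → 1 ≤ b → 1 ≤ c →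
      (∀ β' p : ℤ, 1 ≤ β' → β' ≤ b → β' ≤ c → GG a β' p) → F3 a b c := by
  intro n
  induction n with
  | zero =>
    intro b c hn hb hc _
    exfalso
    omega
  | succ n ih =>
    intro b c hn hb hc hG
    rcases lt_trichotomy b c with hbc | hbc | hbc
    · have h1 : F3 a b (c - b) := by
        refine ih b (c - b) (by omega) hb (by omega) ?_
        intro β' p h1 h2 h3
        exact hG β' p h1 h2 (by omega)
      have h2 := hF31 a b c (PF a b (c - b)) ha hb hbc ?_ h1
      · refine extP_congr h2 (fun v => Iff.rfl) ?_
        intro v
        unfold PF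
        simp only
        constructor
        · rintro ⟨k1, k2, k3, k4⟩
          have e : c * v.1.2 = b * v.2 := by linarith
          refine ⟨k1, k2, e, ?_⟩
          have hcb : 0 < c - b := by omega
          have hy : v.1.2 ≤ b := by
            by_contra hcon
            push Not at hcon
            nlinarith
          by_contra hcon
          push Not at hcon
          nlinarith
        · rintro ⟨k1, k2, k3, k4⟩
          refine ⟨k1, k2, by linarith, ?_⟩
          have hy : v.1.2 ≤ b := by
            by_contra hcon
            push Not at hcon
            nlinarith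
          by_contra hcon
          push Not at hcon
          have hcb : 0 < c - b := by omega
          nlinarith
      · rintro v ⟨k1, k2, k3, k4⟩
        exact ⟨k1, k2, k3.le, k4⟩
    · subst hbc
      exact hF3D a b ha hb
    · have h1 : F3 a (b - c) c := by
        refine ih (b - c) c (by omega) (by omega) hc ?_
        intro β' p h1 h2 h3
        exact hG β' p h1 (by omega) h3
      have h2 := hF32 a b c (PF a (b - c) c) ha hc hbc ?_ h1
        (hG c (c - b) hc hbc.le le_rfl)
      · refine extP_congr h2 (fun v => Iff.rfl) ?_
        intro v
        unfold PF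
        simp only
        have hbc' : 0 < b - c := by omega
        constructor
        · rintro ⟨k1, k2, k3, k4⟩
          have e : c * v.1.2 = b * v.2 := by linarith
          refine ⟨k1, ?_, e, k4⟩
          by_contra hcon
          push Not at hcon
          have e2 : b * (a * (v.1.2 - v.2)) = (b - c) * (a * v.1.2) := by
            linear_combination a * e
          nlinarith
        · rintro ⟨k1, k2, k3, k4⟩
          refine ⟨k1, ?_, by linarith, k4⟩
          by_contra hcon
          push Not at hcon
          have e2 : b * (a * (v.1.2 - v.2)) = (b - c) * (a * v.1.2) := by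
            linear_combination a * k3
          nlinarith
      · rintro v ⟨k1, k2, k3, k4⟩
        exact ⟨k1, k2, k3.le, k4⟩

end IND_

open IND_

/-- module IND -/
theorem ind_proof (hF31 : Stmt_F31) (hF3D : Stmt_F3D) (hF32 : Stmt_F32) (hGSH : Stmt_GSH)
    (hG00 : Stmt_G00) (hG11 : Stmt_G11) (hG22 : Stmt_G22) (hTFL : Stmt_TFL)
    (hTFS : Stmt_TFS) : Stmt_IND := by
  have main : ∀ (n : ℕ) (h β : ℤ), (h + β).toNat ≤ n → 1 ≤ h → 1 ≤ β → ∀ p, GG h β p := by
    intro n
    induction n with
    | zero =>
      intro h β hn h1 h2
      exfalso
      omega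
    | succ n ih =>
      intro h β hn hh hβ p
      have hmod := Int.emod_nonneg p (by omega : h ≠ 0)
      have hlt := Int.emod_lt_of_pos p (by omega : 0 < h)
      have hdm := Int.emod_add_mul_ediv p h
      set p₀ := p % h with hp₀
      have hred : GG h β p₀ → GG h β p := by
        intro hg
        have h3 := hGSH h β p₀ (p / h) hg
        have h4 : p₀ + p / h * h = p := by linarith [mul_comm h (p / h)]
        rw [h4] at h3
        exact h3
      apply hred
      rcases hmod.eq_or_lt with h0 | hpos
      · rw [← h0]
        exact hG00 h β hh hβ
      · rcases le_or_gt p₀ β with hle | hgt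
        · refine hG11 h β p₀ hh (by omega) hle ?_ ?_
          · refine f3_of hF31 hF3D hF32 β hβ _ p₀ h le_rfl (by omega) hh ?_
            intro β' p' k1 k2 k3
            exact ih β β' (by omega) hβ k1 p'
          · intro hlt2
            refine f3_of hF31 hF3D hF32 h hh _ (β - p₀) β le_rfl (by omega) hβ ?_
            intro β' p' k1 k2 k3
            exact ih h β' (by omega) hh k1 p'
        · refine hG22 h β p₀ hβ hgt hlt ?_ ?_ ?_
          · exact ih (h - p₀) β (by omega) (by omega) hβ _
          · exact ih (p₀ - β) β (by omega) (by omega) hβ _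
          · rcases lt_or_ge β 3 with h3 | h3
            · have h4 : β = 1 ∨ β = 2 := by omega
              rcases h4 with h5 | h5
              · rw [h5]; exact hTFS.1
              · rw [h5]; exact hTFS.2
            · exact hTFL β h3
  intro h β p hh hβ
  exact main _ h β le_rfl hh hβ p

end LHR
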