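import Pool.Agent.LHR.Stmts

/-!
# JN2: join of a segment with two points
-/

namespace LHR

open Pool.Agent.LHT

namespace JN2_

/-- a nonzero integral linear function does not vanish on a spanning set (with constant) -/
theorem spans_false {K : Finset V3} (hs : Spans K) (α β γ c : ℤ) (h : α ≠ 0 ∨ β ≠ 0 ∨ γ ≠ 0)
    (h0 : ∀ v ∈ K, α * v.1.1 + β * v.1.2 + γ * v.2 + c = 0) : False := by
  have h1 := (hs (toR (lin α β γ)) (c : ℝ) (by
    intro v hv
    rw [toR_apply, lin_apply]
    exact_mod_cast h0 v hv)).1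
  have h2 : ∀ v : V3, α * v.1.1 + β * v.1.2 + γ * v.2 = 0 := by
    intro v
    have h3 := congrArg (fun f : V3 →+ ℝ => f v) h1
    rw [toR_apply, lin_apply] at h3
    have h4 : ((α * v.1.1 + β * v.1.2 + γ * v.2 : ℤ) : ℝ) = 0 := h3
    exact_mod_cast h4
  have e1 := h2 ((1, 0), 0)
  have e2 := h2 ((0, 1), 0)
  have e3 := h2 ((0, 0), 1)
  simp only [mul_one, mul_zero, add_zero, zero_add] at e1 e2 e3
  rcases h with h | h | h
  · exact h e1
  · exact h e2
  · exact h e3

theorem hom_y (ψ : V3 →+ ℤ) (y : ℤ) : ψ ((0, y), 0) = y * ψ ((0, 1), 0) := by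
  have h : (((0, y), 0) : V3) = y • (((0, 1), 0) : V3) := by
    ext <;> simp
  rw [h, map_zsmul]
  simp

end JN2_

open JN2_

theorem jn2_proof (hCRI : Stmt_CRI) : Stmt_JN2 := by
  intro m r E C ωE ω hm hE hC hRF hω φ b hle hs
  set K := contact C ω φ b with hK
  have hEC : ∀ v ∈ E, v ∈ C := fun v hv => (hC v).2 (Or.inl hv)
  have hKC : ∀ v, v ∈ K ↔ v ∈ C ∧ φ v + b = ω v := fun v => by rw [hK, mem_contact]
  have hK3 : ∀ v ∈ K, (v ∈ E ∧ v.1.1 = 0 ∧ v.2 = 0) ∨ v = ((1, 1), r) ∨ v = ((1, 1), r + 1) := by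
    intro v hv
    rcases (hC v).1 ((hKC v).1 hv).1 with h | h
    · exact Or.inl ⟨h, ((hE v).1 h).1, ((hE v).1 h).2.1⟩
    · exact Or.inr h
  have hR0 : (((1, 1), r) : V3) ∈ K := by
    by_contra hn
    refine spans_false hs (-(r + 1)) 0 1 0 (Or.inr (Or.inr one_ne_zero)) ?_
    intro v hv
    rcases hK3 v hv with ⟨-, h1, h2⟩ | h | h
    · rw [h1, h2]
      ring
    · rw [h] at hv
      exact absurd hv hn
    · rw [h]
      ring
  have hR1 : (((1, 1), r + 1) : V3) ∈ K := by
    by_contra hn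
    refine spans_false hs (-r) 0 1 0 (Or.inr (Or.inr one_ne_zero)) ?_
    intro v hv
    rcases hK3 v hv with ⟨-, h1, h2⟩ | h | h
    · rw [h1, h2]
      ring
    · rw [h]
      ring
    · rw [h] at hv
      exact absurd hv hn
  set K' := contact E ωE φ b with hK'
  have hKK' : ∀ v ∈ E, (v ∈ K ↔ v ∈ K') := by
    intro v hv
    rw [hKC, hK', mem_contact, hω v hv]
    exact ⟨fun h => ⟨hv, h.2⟩, fun h => ⟨hEC v hv, h.2⟩⟩
  have hK'E : ∀ v ∈ K', v ∈ E := fun v hv => (mem_contact.1 hv).1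
  have hEy : ∀ v ∈ E, v = ((0, v.1.2), 0) := by
    intro v hv
    obtain ⟨h1, h2, -, -⟩ := (hE v).1 hv
    exact Prod.ext (Prod.ext h1 rfl) h2
  -- two points
  have htwo : ∃ p ∈ K', ∃ q ∈ K', p ≠ q := by
    by_contra hcon
    push Not at hcon
    obtain ⟨i, hi⟩ : ∃ i : ℤ, ∀ v ∈ K', v.1.2 = i := by
      by_cases hne : K'.Nonempty
      · obtain ⟨p, hp⟩ := hne
        exact ⟨p.1.2, fun v hv => by rw [hcon v hv p hp]⟩
      · rw [Finset.not_nonempty_iff_eq_empty] at hne
        refine ⟨0, fun v hv => ?_⟩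
        rw [hne] at hv
        exact absurd hv (Finset.notMem_empty v)
    refine spans_false hs (i - 1) 1 0 (-i) (Or.inr (Or.inl one_ne_zero)) ?_
    intro v hv
    rcases hK3 v hv with ⟨hvE, h1, h2⟩ | h | h
    · rw [h1, h2, hi v ((hKK' v hvE).1 hv)]
      ring
    · rw [h]
      ring
    · rw [h]
      ring
  have hRSp : RSp K' E := by
    obtain ⟨p, hp, q, hq, hpq⟩ := htwo
    intro χ d hχ v hv
    have e1 := hχ p hp
    have e2 := hχ q hq
    have g1 := hEy p (hK'E p hp)
    have g2 := hEy q (hK'E q hq)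
    have g3 := hEy v hv
    have hne : p.1.2 ≠ q.1.2 := by
      intro h
      apply hpq
      rw [g1, g2, h]
    rw [g1, hom3] at e1
    rw [g2, hom3] at e2
    rw [g3, hom3]
    simp only [Int.cast_zero, zero_mul, zero_add, add_zero] at e1 e2 ⊢
    have hne' : ((p.1.2 : ℤ) : ℝ) - ((q.1.2 : ℤ) : ℝ) ≠ 0 := by
      intro h
      apply hne
      have : ((p.1.2 : ℤ) : ℝ) = ((q.1.2 : ℤ) : ℝ) := by linarith
      exact_mod_cast this
    have h3 : (((p.1.2 : ℤ) : ℝ) - ((q.1.2 : ℤ) : ℝ)) * χ ((0, 1), 0) = 0 := by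
      linear_combination e1 - e2
    have h4 : χ ((0, 1), 0) = 0 := (mul_eq_zero.1 h3).resolve_left hne'
    rw [h4] at e1 ⊢
    linarith
  have hPU' : PU K' := by
    apply hRF φ b _ hRSp
    intro v hv
    have := hle v (hEC v hv)
    rw [hω v hv] at this
    exact this
  -- the dual functions
  have hPU : PU K := by
    intro p hp
    rcases hK3 p hp with ⟨hpE, -, -⟩ | h | h
    · obtain ⟨ψ, c, h1, h2⟩ := hPU' p ((hKK' p hpE).1 hp)
      refine ⟨lin (-(ψ ((0, 1), 0) + c)) (ψ ((0, 1), 0)) 0, c, ?_, ?_⟩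
      · rw [hEy p hpE, hom_y] at h1
        rw [lin_apply, ((hE p).1 hpE).1]
        linarith
      · intro q hq hqp
        rcases hK3 q hq with ⟨hqE, -, -⟩ | h | h
        · have h3 := h2 q ((hKK' q hqE).1 hq) hqp
          rw [hEy q hqE, hom_y] at h3
          rw [lin_apply, ((hE q).1 hqE).1]
          linarith
        · rw [h, lin_apply]
          ring
        · rw [h, lin_apply]
          ring
    · refine ⟨lin (r + 1) 0 (-1), 0, ?_, ?_⟩
      · rw [h, lin_apply]
        ring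
      · intro q hq hqp
        rcases hK3 q hq with ⟨-, h1, h2⟩ | h' | h'
        · rw [lin_apply, h1, h2]
          ring
        · exact absurd (h'.trans h.symm) hqp
        · rw [h', lin_apply]
          ring
    · refine ⟨lin (-r) 0 1, 0, ?_, ?_⟩
      · rw [h, lin_apply]
        ring
      · intro q hq hqp
        rcases hK3 q hq with ⟨-, h1, h2⟩ | h' | h'
        · rw [lin_apply, h1, h2]
          ring
        · rw [h', lin_apply]
          ring
        · exact absurd (h'.trans h.symm) hqp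
  exact hCRI V3 sep_V3 K hs hPU

end LHR
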