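import Pool.Agent.LHR.Stmts

/-!
Squad LHR, module NLM: heights on the small simplex, increasing in two directions.
-/

set_option autoImplicit false

namespace LHR

open Pool.Agent.LHT

namespace NLM_

theorem RLw_add {Λ : Type} [AddCommGroup Λ] {S : Finset Λ} {ω : Λ → ℝ} (l : Λ →+ ℝ)
    (h : RLw S ω) : RLw S (fun v => ω v + l v) := by
  intro φ b hle hs
  have hc : contact S (fun v => ω v + l v) φ b = contact S ω (φ - l) b := by
    ext v
    rw [mem_contact, mem_contact, AddMonoidHom.sub_apply]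
    constructor
    · rintro ⟨h1, h2⟩
      exact ⟨h1, by linarith⟩
    · rintro ⟨h1, h2⟩
      exact ⟨h1, by linarith⟩
  rw [hc] at hs ⊢
  refine h _ _ ?_ hs
  intro v hv
  have := hle v hv
  rw [AddMonoidHom.sub_apply]
  linarith

/-- the segment -/
theorem RL_seg (h : ℤ) (hh : 1 ≤ h) : RL (Finset.Icc (1 : ℤ) (h + 1)) := by
  classical
  have h1 : RL (((Finset.Icc (-h) (0 : ℤ)).image
      (fun t => ((0 : Fin 0 → ℤ), t)) : Finset ((Fin 0 → ℤ) × ℤ))) := by
    refine RL_low (LH (fun i : Fin 0 => i.elim0)) (RL_zero _) 0 h (fun y _ => by simp; omega) _ ?_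
    intro v
    rw [Finset.mem_image]
    constructor
    · rintro ⟨t, ht, rfl⟩
      rw [Finset.mem_Icc] at ht
      refine ⟨?_, by simpa using ht.1, ht.2⟩
      rw [mem_LH]
      exact ⟨fun i => i.elim0, fun i => i.elim0⟩
    · rintro ⟨-, h2, h3⟩
      refine ⟨v.2, Finset.mem_Icc.mpr ⟨by simpa using h2, h3⟩, ?_⟩
      exact Prod.ext (Subsingleton.elim _ _) rfl
  refine RL_affine (AddEquiv.uniqueProd : (Fin 0 → ℤ) × ℤ ≃+ ℤ) (h + 1) ?_ h1
  intro v
  rw [Finset.mem_image]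
  have e : (AddEquiv.uniqueProd : (Fin 0 → ℤ) × ℤ ≃+ ℤ) v = v.2 := rfl
  rw [e, Finset.mem_Icc]
  constructor
  · rintro ⟨h2, h3⟩
    exact ⟨v.2, Finset.mem_Icc.mpr ⟨by omega, by omega⟩, Prod.ext (Subsingleton.elim _ _) rfl⟩
  · rintro ⟨t, ht, rfl⟩
    rw [Finset.mem_Icc] at ht
    exact ⟨by dsimp only; omega, by dsimp only; omega⟩

/-- reflection of the last coordinate -/
def ng (Y : Type) [AddCommGroup Y] : Y × ℤ ≃+ Y × ℤ :=
  AddEquiv.prodCongr (AddEquiv.refl Y) (AddEquiv.neg ℤ)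

theorem ng_apply (Y : Type) [AddCommGroup Y] (v : Y × ℤ) : ng Y v = (v.1, -v.2) := rfl

/-- the triangle -/
theorem RL_tri (h : ℤ) (hh : 1 ≤ h) (B : Finset (ℤ × ℤ))
    (hB : ∀ v, v ∈ B ↔ 1 ≤ v.1 ∧ 1 ≤ v.2 ∧ v.1 + v.2 ≤ h + 2) : RL B := by
  classical
  have h1 : RL (B.image (fun v : ℤ × ℤ => (v.1, 1 - v.2))) := by
    refine RL_low (Finset.Icc (1 : ℤ) (h + 1)) (RL_seg h hh) (-(AddMonoidHom.id ℤ)) (h + 1) ?_ _ ?_
    · intro y hy
      rw [Finset.mem_Icc] at hy
      simp only [AddMonoidHom.neg_apply, AddMonoidHom.id_apply]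
      omega
    · intro v
      rw [Finset.mem_image, Finset.mem_Icc]
      simp only [AddMonoidHom.neg_apply, AddMonoidHom.id_apply]
      constructor
      · rintro ⟨w, hw, rfl⟩
        rw [hB] at hw
        dsimp only
        omega
      · rintro ⟨h2, h3, h4⟩
        refine ⟨(v.1, 1 - v.2), ?_, ?_⟩
        · rw [hB]
          dsimp only
          omega
        · ext
          · rfl
          · dsimp only
            omega
  refine RL_affine (ng ℤ) (0, 1) ?_ h1
  intro v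
  rw [ng_apply, Finset.mem_image]
  constructor
  · intro h2
    refine ⟨_, h2, ?_⟩
    ext
    · simp
    · simp
  · rintro ⟨w, hw, rfl⟩
    have : ((w.1, 1 - w.2).1, -(w.1, 1 - w.2).2) + (0, 1) = w := by
      ext
      · simp
      · simp
    rw [this]
    exact hw

/-- the simplex -/
theorem RL_simp (h : ℤ) (N : Finset V3) (hh : 1 ≤ h)
    (hN : ∀ v : V3, v ∈ N ↔ 1 ≤ v.1.1 ∧ 1 ≤ v.1.2 ∧ 0 ≤ v.2 ∧ v.1.1 + v.1.2 + v.2 ≤ h + 2) :
    RL N := by
  classical
  set B : Finset (ℤ × ℤ) := (Finset.Icc (1 : ℤ) (h + 1) ×ˢ Finset.Icc (1 : ℤ) (h + 1)).filter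
    (fun v => v.1 + v.2 ≤ h + 2) with hBdef
  have hB : ∀ v, v ∈ B ↔ 1 ≤ v.1 ∧ 1 ≤ v.2 ∧ v.1 + v.2 ≤ h + 2 := by
    intro v
    rw [hBdef, Finset.mem_filter, Finset.mem_product, Finset.mem_Icc, Finset.mem_Icc]
    omega
  have h1 : RL (N.image (fun v : V3 => (v.1, -v.2))) := by
    refine RL_low B (RL_tri h hh B hB)
      (-(AddMonoidHom.fst ℤ ℤ) - AddMonoidHom.snd ℤ ℤ) (h + 2) ?_ _ ?_
    · intro y hy
      rw [hB] at hy
      simp only [AddMonoidHom.sub_apply, AddMonoidHom.neg_apply, AddMonoidHom.coe_fst,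
        AddMonoidHom.coe_snd]
      omega
    · intro v
      rw [Finset.mem_image, hB]
      simp only [AddMonoidHom.sub_apply, AddMonoidHom.neg_apply, AddMonoidHom.coe_fst,
        AddMonoidHom.coe_snd]
      constructor
      · rintro ⟨w, hw, rfl⟩
        rw [hN] at hw
        dsimp only
        omega
      · rintro ⟨h2, h3, h4⟩
        refine ⟨(v.1, -v.2), ?_, ?_⟩
        · rw [hN]
          dsimp only
          omega
        · ext
          · rfl
          · rfl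
          · simp
  refine RL_affine (ng (ℤ × ℤ)) 0 ?_ h1
  intro v
  rw [ng_apply, Finset.mem_image, add_zero]
  constructor
  · intro h2
    refine ⟨_, h2, ?_⟩
    simp
  · rintro ⟨w, hw, rfl⟩
    simpa using hw

end NLM_

open NLM_ in
theorem nlm_proof : Stmt_NLM := by
  intro h N hh hN
  obtain ⟨ω, hω⟩ := RL_simp h N hh hN
  set M : ℝ := ∑ v ∈ N, |ω v| with hM
  have hle : ∀ v ∈ N, |ω v| ≤ M := fun v hv =>
    Finset.single_le_sum (f := fun v => |ω v|) (fun w _ => abs_nonneg _) hv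
  have hM0 : 0 ≤ M := Finset.sum_nonneg fun w _ => abs_nonneg _
  set l : V3 →+ ℝ := (AddMonoidHom.mulLeft (2 * M + 1)).comp (toR (lin 1 1 0)) with hl
  have hlv : ∀ v : V3, l v = (2 * M + 1) * ((v.1.1 : ℝ) + v.1.2) := by
    intro v
    have e1 : l v = (2 * M + 1) * (toR (lin 1 1 0) v) := rfl
    rw [e1, toR_apply, lin_apply]
    push_cast
    ring
  refine ⟨fun v => ω v + l v, RLw_add l hω, ?_, ?_⟩
  · intro v hv w hw e1 _ e3
    have h1 := abs_le.mp (hle v hv)
    have h2 := abs_le.mp (hle w hw)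
    have h3 : (v.1.2 : ℝ) + 1 ≤ w.1.2 := by exact_mod_cast e3
    simp only [hlv, e1]
    nlinarith [mul_le_mul_of_nonneg_left h3 (by linarith : (0 : ℝ) ≤ 2 * M + 1)]
  · intro v hv w hw e1 _ e3
    have h1 := abs_le.mp (hle v hv)
    have h2 := abs_le.mp (hle w hw)
    have h3 : (v.1.1 : ℝ) + 1 ≤ w.1.1 := by exact_mod_cast e3
    simp only [hlv, e1]
    nlinarith [mul_le_mul_of_nonneg_left h3 (by linarith : (0 : ℝ) ≤ 2 * M + 1)]

end LHR
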