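import Pool.Agent.LHR.Stmts

/-!
Squad LHR, module PYR: pyramid of height one.
-/

namespace LHR

open Pool.Agent.LHT

theorem pyr_proof (hCRI : Stmt_CRI) : Stmt_PYR := by
  classical
  intro Λ _ hSep S A X l c ω hA hX hS hRF φ b hle hs
  apply hCRI Λ hSep _ hs
  have hXA : X ∉ A := fun h => by have := hA X h; omega
  have hcA : ∀ v, v ∈ contact A ω φ b ↔ v ∈ contact S ω φ b ∧ v ≠ X := by
    intro v
    rw [mem_contact, mem_contact, hS]
    constructor
    · rintro ⟨h1, h2⟩
      exact ⟨⟨Or.inl h1, h2⟩, fun h => hXA (h ▸ h1)⟩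
    · rintro ⟨⟨h1 | h1, h2⟩, h3⟩
      · exact ⟨h1, h2⟩
      · exact absurd h1 h3
  have hCX : ∀ v ∈ contact S ω φ b, v ≠ X → v ∈ A := by
    intro v hv hvX
    rcases (hS v).mp (mem_contact.mp hv).1 with h | h
    · exact h
    · exact absurd h hvX
  have hXC : X ∈ contact S ω φ b := by
    by_contra hXC
    obtain ⟨h1, h2⟩ := hs (toR l) (c : ℝ) (by
      intro v hv
      have h3 := hA v (hCX v hv (fun h => hXC (h ▸ hv)))
      rw [toR_apply]
      exact_mod_cast h3)
    have h4 : toR l X = 0 := by rw [h1]; rfl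
    rw [toR_apply] at h4
    have h5 : l X = 0 := by exact_mod_cast h4
    have h6 : c = 0 := by exact_mod_cast h2
    omega
  have hRSp : RSp (contact A ω φ b) A := by
    intro χ d hχ v hv
    obtain ⟨h1, h2⟩ := hs (χ - (χ X + d) • toR l) (d - (χ X + d) * c) (by
      intro w hw
      rw [AddMonoidHom.sub_apply, AddMonoidHom.smul_apply, smul_eq_mul, toR_apply]
      by_cases hwX : w = X
      · rw [hwX]
        have h3 : ((l X : ℤ) : ℝ) + (c : ℝ) = 1 := by exact_mod_cast hX
        linear_combination (-(χ X + d)) * h3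
      · have h3 : ((l w : ℤ) : ℝ) + (c : ℝ) = 0 := by exact_mod_cast hA w (hCX w hw hwX)
        have h4 := hχ w ((hcA w).mpr ⟨hw, hwX⟩)
        linear_combination h4 - (χ X + d) * h3)
    have h5 : (χ - (χ X + d) • toR l) v = 0 := by rw [h1]; rfl
    rw [AddMonoidHom.sub_apply, AddMonoidHom.smul_apply, smul_eq_mul, toR_apply] at h5
    have h3 : ((l v : ℤ) : ℝ) + (c : ℝ) = 0 := by exact_mod_cast hA v hv
    linear_combination h5 + h2 + (χ X + d) * h3
  have hPU := hRF φ b (fun v hv => hle v ((hS v).mpr (Or.inl hv))) hRSp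
  intro p hp
  by_cases hpX : p = X
  · subst hpX
    exact ⟨l, c, hX, fun q hq hqp => hA q (hCX q hq hqp)⟩
  · obtain ⟨ψ, c0, h1, h2⟩ := hPU p ((hcA p).mpr ⟨hp, hpX⟩)
    refine ⟨ψ - (ψ X + c0) • l, c0 - (ψ X + c0) * c, ?_, ?_⟩
    · rw [AddMonoidHom.sub_apply, AddMonoidHom.smul_apply, smul_eq_mul]
      have h3 := hA p (hCX p hp hpX)
      linear_combination h1 - (ψ X + c0) * h3
    · intro q hq hqp
      rw [AddMonoidHom.sub_apply, AddMonoidHom.smul_apply, smul_eq_mul]
      by_cases hqX : q = X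
      · rw [hqX]
        linear_combination (-(ψ X + c0)) * hX
      · have h3 := hA q (hCX q hq hqX)
        have h4 := h2 q ((hcA q).mpr ⟨hq, hqX⟩) hqp
        linear_combination h4 - (ψ X + c0) * h3

end LHR
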