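import Pool.Agent.LHR.Stmts

/-!
Squad LHR, module RL3: regular unimodular triangulations of the simplices of dimension three.
-/

namespace LHR

open Pool.Agent.LHT

namespace RL3_

theorem extP_of_RL {p : V3 → Prop} (h : ∀ S : Finset V3, (∀ v, v ∈ S ↔ p v) → RL S) :
    ExtP p (fun _ => False) := by
  intro S A hS hA
  have hA0 : A = ∅ := by
    apply Finset.eq_empty_of_forall_notMem
    intro v hv
    exact (hA v).mp hv
  rw [hA0]
  exact Ext_empty_of_RL (h S hS)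

theorem RL_of_extP {p : V3 → Prop} (h : ExtP p (fun _ => False)) (S : Finset V3)
    (hS : ∀ v, v ∈ S ↔ p v) : RL S := by
  apply RL_of_Ext_empty
  apply h S ∅ hS
  intro v
  constructor
  · intro hv
    exact absurd hv (Finset.notMem_empty v)
  · intro hv
    exact hv.elim

/-- the base of the chimney as a finite set -/
theorem exists_base (a b : ℤ) (ha : 1 ≤ a) (hb : 1 ≤ b) :
    ∃ B : Finset (ℤ × ℤ), ∀ v, v ∈ B ↔ 0 ≤ v.1 ∧ b * v.1 ≤ a * v.2 ∧ v.2 ≤ b := by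
  classical
  refine ⟨((Finset.Icc (0 : ℤ) a) ×ˢ (Finset.Icc (0 : ℤ) b)).filter
    (fun v => 0 ≤ v.1 ∧ b * v.1 ≤ a * v.2 ∧ v.2 ≤ b), ?_⟩
  intro v
  rw [Finset.mem_filter]
  constructor
  · intro h
    exact h.2
  · rintro ⟨h1, h2, h3⟩
    refine ⟨?_, h1, h2, h3⟩
    rw [Finset.mem_product, Finset.mem_Icc, Finset.mem_Icc]
    have h4 : 0 ≤ a * v.2 := le_trans (mul_nonneg (by omega) h1) h2
    have h5 : 0 ≤ v.2 := nonneg_of_mul_nonneg_right h4 (by omega)
    have h6 : b * v.1 ≤ b * a := by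
      have : a * v.2 ≤ a * b := mul_le_mul_of_nonneg_left h3 (by omega)
      linarith [mul_comm a b]
    have h7 : v.1 ≤ a := le_of_mul_le_mul_left h6 (by omega)
    exact ⟨⟨h1, h7⟩, h5, h3⟩

theorem diag (hD2L : Stmt_D2L) (a b : ℤ) (ha : 1 ≤ a) (hb : 1 ≤ b) (S : Finset V3)
    (hS : ∀ v, v ∈ S ↔ PP a b b v) : RL S := by
  classical
  obtain ⟨B, hB⟩ := exists_base a b ha hb
  have hRB : RL B := hD2L a b B ha hb hB
  set S' : Finset V3 := (B ×ˢ (Finset.Icc (-b) 0)).filter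
    (fun v => v.1 ∈ B ∧ -((-(AddMonoidHom.snd ℤ ℤ)) v.1 + b) ≤ v.2 ∧ v.2 ≤ 0) with hS'
  have hmem : ∀ v, v ∈ S' ↔ v.1 ∈ B ∧ -((-(AddMonoidHom.snd ℤ ℤ)) v.1 + b) ≤ v.2 ∧ v.2 ≤ 0 := by
    intro v
    rw [hS', Finset.mem_filter]
    constructor
    · intro h
      exact h.2
    · rintro ⟨h1, h2, h3⟩
      refine ⟨?_, h1, h2, h3⟩
      rw [Finset.mem_product, Finset.mem_Icc]
      refine ⟨h1, ?_, h3⟩
      have h4 := (hB v.1).mp h1
      have h5 : (-(AddMonoidHom.snd ℤ ℤ)) v.1 = - v.1.2 := rfl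
      rw [h5] at h2
      have h6 : 0 ≤ a * v.1.2 := le_trans (mul_nonneg (by omega) h4.1) h4.2.1
      have h7 : 0 ≤ v.1.2 := nonneg_of_mul_nonneg_right h6 (by omega)
      omega
  have hRS' : RL S' := by
    apply RL_low B hRB (-(AddMonoidHom.snd ℤ ℤ)) b ?_ S' hmem
    intro y hy
    have h4 := (hB y).mp hy
    have h5 : (-(AddMonoidHom.snd ℤ ℤ)) y = - y.2 := rfl
    rw [h5]
    omega
  apply RL_affine (AddEquiv.refl V3) ((0, 0), b) ?_ hRS'
  intro v
  rw [hS, hmem, hB]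
  have h5 : (-(AddMonoidHom.snd ℤ ℤ)) v.1 = - v.1.2 := rfl
  rw [h5]
  have e1 : (AddEquiv.refl V3 v + ((0, 0), b) : V3).1.1 = v.1.1 := by
    show v.1.1 + 0 = v.1.1
    ring
  have e2 : (AddEquiv.refl V3 v + ((0, 0), b) : V3).1.2 = v.1.2 := by
    show v.1.2 + 0 = v.1.2
    ring
  have e3 : (AddEquiv.refl V3 v + ((0, 0), b) : V3).2 = v.2 + b := rfl
  unfold PP
  rw [e1, e2, e3]
  constructor
  · rintro ⟨h1, h2, h3, h4⟩
    have h6 : v.1.2 ≤ v.2 + b := le_of_mul_le_mul_left h3 (by omega)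
    refine ⟨⟨h1, h2, by omega⟩, by omega, by omega⟩
  · rintro ⟨⟨h1, h2, h3⟩, h6, h7⟩
    refine ⟨h1, h2, mul_le_mul_of_nonneg_left (by omega) (by omega), by omega⟩

theorem main (hIND : Stmt_IND) (hF31 : Stmt_F31) (hF32 : Stmt_F32) (hD2L : Stmt_D2L) :
    ∀ n : ℕ, ∀ (a b c : ℤ) (S : Finset V3), 1 ≤ a → 1 ≤ b → 1 ≤ c → b + c ≤ n →
      (∀ v, v ∈ S ↔ PP a b c v) → RL S := by
  intro n
  induction n with
  | zero =>
    intro a b c S ha hb hc hn _
    exfalso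
    push_cast at hn
    omega
  | succ n ih =>
    intro a b c S ha hb hc hn hS
    push_cast at hn
    rcases lt_trichotomy b c with h | h | h
    · have h1 : ExtP (PP a b (c - b)) (fun _ => False) :=
        extP_of_RL (fun S' hS' => ih a b (c - b) S' ha hb (by omega) (by omega) hS')
      exact RL_of_extP (hF31 a b c (fun _ => False) ha hb h (fun _ h0 => h0.elim) h1) S hS
    · subst h
      exact diag hD2L a b ha hb S hS
    · have h1 : ExtP (PP a (b - c) c) (fun _ => False) :=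
        extP_of_RL (fun S' hS' => ih a (b - c) c S' ha (by omega) hc (by omega) hS')
      exact RL_of_extP (hF32 a b c (fun _ => False) ha hc h (fun _ h0 => h0.elim) h1
        (hIND a c (c - b) ha hc)) S hS

end RL3_

theorem rl3_proof (hIND : Stmt_IND) (hF31 : Stmt_F31) (hF32 : Stmt_F32) (hD2L : Stmt_D2L) :
    Stmt_RL3 := by
  intro a b c S ha hb hc hS
  exact RL3_.main hIND hF31 hF32 hD2L (b + c).toNat a b c S ha hb hc (by omega) hS

end LHR
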