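import Pool.Agent.LHR.Stmts

/-!
Module T3L of squad LHR: the simplex with vertices `0, (h+2,0,0), (0,h+2,0), (1,1,h)` with heights
prescribed on two edges.
-/

namespace LHR

open Pool.Agent.LHT

namespace T3L_

/-- the exchange of the first two coordinates -/
def sw : V3 ≃+ V3 where
  toFun v := ((v.1.2, v.1.1), v.2)
  invFun v := ((v.1.2, v.1.1), v.2)
  left_inv := by
    rintro ⟨⟨x, y⟩, z⟩
    rfl
  right_inv := by
    rintro ⟨⟨x, y⟩, z⟩
    rfl
  map_add' := by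
    rintro ⟨⟨x, y⟩, z⟩ ⟨⟨x', y'⟩, z'⟩
    rfl

theorem sw_apply (v : V3) : sw v = ((v.1.2, v.1.1), v.2) := rfl

theorem sw_sw (v : V3) : sw (sw v) = v := rfl

theorem mem_img (A : Finset V3) (v : V3) : v ∈ A.image sw ↔ sw v ∈ A := by
  rw [Finset.mem_image]
  constructor
  · rintro ⟨w, hw, rfl⟩
    rw [sw_sw]
    exact hw
  · intro h
    exact ⟨sw v, h, sw_sw v⟩

theorem sum_img {M : Type} [AddCommMonoid M] (C : Finset V3) (f : V3 → M) :
    ∑ v ∈ C.image sw, f v = ∑ v ∈ C, f (sw v) := by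
  rw [Finset.sum_image]
  intro x _ y _ h
  exact sw.injective h

theorem card_img (C : Finset V3) : (C.image sw).card = C.card := by
  rw [Finset.card_image_of_injective]
  exact sw.injective

/-- cover of the middle cell -/
theorem covN (h : ℤ) (hh : 1 ≤ h) (N C : Finset V3)
    (hN : ∀ v, v ∈ N ↔ 1 ≤ v.1.1 ∧ 1 ≤ v.1.2 ∧ 0 ≤ v.2 ∧ v.1.1 + v.1.2 + v.2 ≤ h + 2)
    (hr : 0 ≤ ∑ v ∈ C, v.2) (hp : (C.card : ℤ) ≤ ∑ v ∈ C, v.1.1)
    (hq : (C.card : ℤ) ≤ ∑ v ∈ C, v.1.2)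
    (hs : ∑ v ∈ C, v.1.1 + ∑ v ∈ C, v.1.2 + ∑ v ∈ C, v.2 ≤ (h + 2) * (C.card : ℤ)) :
    ∀ (ψ : V3 →+ ℝ) (d : ℝ), (∀ v ∈ N, ψ v + d ≤ 0) → ∑ v ∈ C, (ψ v + d) ≤ 0 := by
  refine cover_simplex N C ![((1, 1), 0), ((h + 1, 1), 0), ((1, h + 1), 0), ((1, 1), h)]
    ![lin (-1) (-1) (-1), lin 1 0 0, lin 0 1 0, lin 0 0 1] ![h + 2, -1, -1, 0] ![h, h, h, h]
    ?_ ?_ ?_ ?_
  · intro j
    fin_cases j
    · show (((1, 1), 0) : V3) ∈ N
      rw [hN]; simp only; omega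
    · show (((h + 1, 1), 0) : V3) ∈ N
      rw [hN]; simp only; omega
    · show (((1, h + 1), 0) : V3) ∈ N
      rw [hN]; simp only; omega
    · show (((1, 1), h) : V3) ∈ N
      rw [hN]; simp only; omega
  · intro j
    have h0 : 0 < h := by omega
    fin_cases j
    · exact h0
    · exact h0
    · exact h0
    · exact h0
  · intro ψ d v
    have h0 : (h : ℝ) ≠ 0 := by
      have : h ≠ 0 := by omega
      exact_mod_cast this
    rw [Fin.sum_univ_four]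
    simp only [Matrix.cons_val_zero, Matrix.cons_val_one, Matrix.cons_val]
    rw [hom3 ψ v, hom3 ψ ((1, 1), 0), hom3 ψ ((h + 1, 1), 0), hom3 ψ ((1, h + 1), 0),
      hom3 ψ ((1, 1), h)]
    simp only [lin_apply]
    push_cast
    field_simp
    ring
  · intro j
    fin_cases j
    · show 0 ≤ ∑ v ∈ C, (lin (-1) (-1) (-1) v + (h + 2))
      have e : ∑ v ∈ C, (lin (-1) (-1) (-1) v + (h + 2))
          = (h + 2) * (C.card : ℤ) - (∑ v ∈ C, v.1.1 + ∑ v ∈ C, v.1.2 + ∑ v ∈ C, v.2) := by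
        rw [← Finset.sum_add_distrib, ← Finset.sum_add_distrib]
        have e1 : (h + 2) * (C.card : ℤ) = ∑ _v ∈ C, (h + 2) := by
          rw [Finset.sum_const, nsmul_eq_mul]; ring
        rw [e1, ← Finset.sum_sub_distrib]
        refine Finset.sum_congr rfl fun v _ => ?_
        rw [lin_apply]; ring
      rw [e]; linarith
    · show 0 ≤ ∑ v ∈ C, (lin 1 0 0 v + -1)
      have e : ∑ v ∈ C, (lin 1 0 0 v + -1) = ∑ v ∈ C, v.1.1 - (C.card : ℤ) := by
        have e1 : (C.card : ℤ) = ∑ _v ∈ C, (1 : ℤ) := by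
          rw [Finset.sum_const, nsmul_eq_mul]; ring
        rw [e1, ← Finset.sum_sub_distrib]
        refine Finset.sum_congr rfl fun v _ => ?_
        rw [lin_apply]; ring
      rw [e]; linarith
    · show 0 ≤ ∑ v ∈ C, (lin 0 1 0 v + -1)
      have e : ∑ v ∈ C, (lin 0 1 0 v + -1) = ∑ v ∈ C, v.1.2 - (C.card : ℤ) := by
        have e1 : (C.card : ℤ) = ∑ _v ∈ C, (1 : ℤ) := by
          rw [Finset.sum_const, nsmul_eq_mul]; ring
        rw [e1, ← Finset.sum_sub_distrib]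
        refine Finset.sum_congr rfl fun v _ => ?_
        rw [lin_apply]; ring
      rw [e]; linarith
    · show 0 ≤ ∑ v ∈ C, (lin 0 0 1 v + 0)
      have e : ∑ v ∈ C, (lin 0 0 1 v + 0) = ∑ v ∈ C, v.2 := by
        refine Finset.sum_congr rfl fun v _ => ?_
        rw [lin_apply]; ring
      rw [e]; exact hr

/-- the mirror image of the cover lemma -/
theorem covM (hCVU : Stmt_CVU) (h : ℤ) (hh : 1 ≤ h) (U C : Finset V3)
    (h0 : (((0, 0), 0) : V3) ∈ U) (h1 : (((h + 2, 0), 0) : V3) ∈ U)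
    (h2 : (((1, 1), 0) : V3) ∈ U) (h3 : (((h + 1, 1), 0) : V3) ∈ U)
    (h4 : (((1, 1), h) : V3) ∈ U)
    (hr : 0 ≤ ∑ v ∈ C, v.2) (hrq : ∑ v ∈ C, v.2 ≤ h * ∑ v ∈ C, v.1.2)
    (hq : ∑ v ∈ C, v.1.2 ≤ (C.card : ℤ)) (hqp : ∑ v ∈ C, v.1.2 ≤ ∑ v ∈ C, v.1.1)
    (hs : ∑ v ∈ C, v.1.1 + ∑ v ∈ C, v.1.2 + ∑ v ∈ C, v.2 ≤ (h + 2) * (C.card : ℤ)) :
    ∀ (ψ : V3 →+ ℝ) (d : ℝ), (∀ v ∈ U, ψ v + d ≤ 0) → ∑ v ∈ C, (ψ v + d) ≤ 0 := by
  intro ψ d hψ
  have key := hCVU h (U.image sw) (C.image sw) hh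
    (by rw [mem_img]; exact h0) (by rw [mem_img]; exact h1) (by rw [mem_img]; exact h2)
    (by rw [mem_img]; exact h3) (by rw [mem_img]; exact h4)
    (by rw [sum_img]; exact hr) (by rw [sum_img, sum_img]; exact hrq)
    (by rw [sum_img, card_img]; exact hq) (by rw [sum_img, sum_img]; exact hqp)
    (by
      rw [sum_img, sum_img, sum_img, card_img]
      have e : ∑ v ∈ C, (sw v).1.1 + ∑ v ∈ C, (sw v).1.2 + ∑ v ∈ C, (sw v).2
          = ∑ v ∈ C, v.1.1 + ∑ v ∈ C, v.1.2 + ∑ v ∈ C, v.2 := by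
        show ∑ v ∈ C, v.1.2 + ∑ v ∈ C, v.1.1 + ∑ v ∈ C, v.2 = _
        ring
      rw [e]; exact hs)
    (ψ.comp sw.toAddMonoidHom) d
    (by
      intro v hv
      rw [mem_img] at hv
      exact hψ _ hv)
  rw [sum_img] at key
  exact key

end T3L_

open T3L_ in
theorem t3l_proof (hCOA : Stmt_COA) (hFA3 : Stmt_FA3) (hUQL : Stmt_UQL) (hUPL : Stmt_UPL)
    (hNLM : Stmt_NLM) (hCVU : Stmt_CVU) : Stmt_T3L := by
  classical
  intro h T Eq Ep ωE hh hT hEq hEp hRq hRp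
  obtain ⟨N, hNdef⟩ : ∃ N : Finset V3, N = T.filter (fun v => 1 ≤ v.1.1 ∧ 1 ≤ v.1.2) := ⟨_, rfl⟩
  have hN : ∀ v, v ∈ N ↔ 1 ≤ v.1.1 ∧ 1 ≤ v.1.2 ∧ 0 ≤ v.2 ∧ v.1.1 + v.1.2 + v.2 ≤ h + 2 := by
    intro v
    rw [hNdef, Finset.mem_filter, hT]
    constructor
    · rintro ⟨⟨_, _, h3, _, _, h6⟩, h7, h8⟩
      exact ⟨h7, h8, h3, h6⟩
    · rintro ⟨h7, h8, h3, h6⟩
      refine ⟨⟨by omega, by omega, h3, ?_, ?_, h6⟩, h7, h8⟩
      · nlinarith
      · nlinarith
  obtain ⟨N1, hN1def⟩ : ∃ N1 : Finset V3, N1 = N.filter (fun v => v.1.1 = 1) := ⟨_, rfl⟩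
  obtain ⟨N2, hN2def⟩ : ∃ N2 : Finset V3, N2 = N.filter (fun v => v.1.2 = 1) := ⟨_, rfl⟩
  have hN1 : ∀ v, v ∈ N1 ↔ v.1.1 = 1 ∧ 1 ≤ v.1.2 ∧ 0 ≤ v.2 ∧ v.1.2 + v.2 ≤ h + 1 := by
    intro v
    rw [hN1def, Finset.mem_filter, hN]
    omega
  have hN2 : ∀ v, v ∈ N2 ↔ v.1.2 = 1 ∧ 1 ≤ v.1.1 ∧ 0 ≤ v.2 ∧ v.1.1 + v.2 ≤ h + 1 := by
    intro v
    rw [hN2def, Finset.mem_filter, hN]
    omega
  obtain ⟨ωN, hRN, hinc1, hinc2⟩ := hNLM h N hh hN
  have hR1 : RF N1 ωN := by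
    refine hFA3 N N1 (lin 1 0 0) (-1) ωN ((1, 1), 0) ((1, h + 1), 0) ((1, 1), h) ((2, 1), 0)
      ?_ ?_ ?_ ?_ ?_ ?_ ?_ hRN
    · intro x hx
      rw [hN] at hx
      rw [lin_apply]
      omega
    · intro x
      rw [hN1def, Finset.mem_filter, lin_apply]
      constructor
      · rintro ⟨h1, h2⟩
        exact ⟨h1, by omega⟩
      · rintro ⟨h1, h2⟩
        exact ⟨h1, by omega⟩
    · exact (hN1 _).2 ⟨rfl, by dsimp only; omega, by dsimp only; omega, by dsimp only; omega⟩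
    · exact (hN1 _).2 ⟨rfl, by dsimp only; omega, by dsimp only; omega, by dsimp only; omega⟩
    · exact (hN1 _).2 ⟨rfl, by dsimp only; omega, by dsimp only; omega, by dsimp only; omega⟩
    · rw [hN]; simp only; omega
    · simp only
      have : h ≠ 0 := by omega
      intro hc
      apply this
      nlinarith
  have hR2 : RF N2 ωN := by
    refine hFA3 N N2 (lin 0 1 0) (-1) ωN ((1, 1), 0) ((h + 1, 1), 0) ((1, 1), h) ((1, 2), 0)
      ?_ ?_ ?_ ?_ ?_ ?_ ?_ hRN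
    · intro x hx
      rw [hN] at hx
      rw [lin_apply]
      omega
    · intro x
      rw [hN2def, Finset.mem_filter, lin_apply]
      constructor
      · rintro ⟨h1, h2⟩
        exact ⟨h1, by omega⟩
      · rintro ⟨h1, h2⟩
        exact ⟨h1, by omega⟩
    · exact (hN2 _).2 ⟨rfl, by dsimp only; omega, by dsimp only; omega, by dsimp only; omega⟩
    · exact (hN2 _).2 ⟨rfl, by dsimp only; omega, by dsimp only; omega, by dsimp only; omega⟩
    · exact (hN2 _).2 ⟨rfl, by dsimp only; omega, by dsimp only; omega, by dsimp only; omega⟩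
    · rw [hN]; simp only; omega
    · simp only
      have : h ≠ 0 := by omega
      intro hc
      apply this
      nlinarith
  obtain ⟨K1, hK1⟩ := hUQL h (N1 ∪ Eq) N1 Eq ωN ωE hh hN1 hEq
    (fun v => Finset.mem_union) hR1
    (by
      intro v hv w hw h1 h2
      have a1 := (hN1 v).1 hv
      have a2 := (hN1 w).1 hw
      have b1 : v ∈ N := by rw [hN1def, Finset.mem_filter] at hv; exact hv.1
      have b2 : w ∈ N := by rw [hN1def, Finset.mem_filter] at hw; exact hw.1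
      exact hinc1 v b1 w b2 (by omega) h1 h2) hRq
  obtain ⟨K2, hK2⟩ := hUPL h (N2 ∪ Ep) N2 Ep ωN ωE hh hN2 hEp
    (fun v => Finset.mem_union) hR2
    (by
      intro v hv w hw h1 h2
      have a1 := (hN2 v).1 hv
      have a2 := (hN2 w).1 hw
      have b1 : v ∈ N := by rw [hN2def, Finset.mem_filter] at hv; exact hv.1
      have b2 : w ∈ N := by rw [hN2def, Finset.mem_filter] at hw; exact hw.1
      exact hinc2 v b1 w b2 (by omega) h1 h2) hRp
  obtain ⟨K, hKdef⟩ : ∃ K : ℝ, K = max (max K1 K2) 1 := ⟨_, rfl⟩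
  have hKK1 : K1 ≤ K := by rw [hKdef]; exact le_trans (le_max_left _ _) (le_max_left _ _)
  have hKK2 : K2 ≤ K := by rw [hKdef]; exact le_trans (le_max_right _ _) (le_max_left _ _)
  have hKpos : 0 < K := by
    rw [hKdef]; exact lt_of_lt_of_le one_pos (le_max_right _ _)
  obtain ⟨ω₁, hω₁def⟩ : ∃ ω₁ : V3 → ℝ, ω₁ = fun v => if v ∈ N then K * ωN v else ωE v :=
    ⟨_, rfl⟩
  have hω₁N : ∀ v ∈ N, ω₁ v = K * ωN v := by
    intro v hv
    rw [hω₁def]
    simp only [if_pos hv]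
  have hω₁E : ∀ v, v ∉ N → ω₁ v = ωE v := by
    intro v hv
    rw [hω₁def]
    simp only [if_neg hv]
  have hEqN : ∀ v ∈ Eq, v ∉ N := by
    intro v hv hv'
    rw [hEq] at hv
    rw [hN] at hv'
    omega
  have hEpN : ∀ v ∈ Ep, v ∉ N := by
    intro v hv hv'
    rw [hEp] at hv
    rw [hN] at hv'
    omega
  have hN1N : ∀ v ∈ N1, v ∈ N := by
    intro v hv
    rw [hN1def, Finset.mem_filter] at hv
    exact hv.1
  have hN2N : ∀ v ∈ N2, v ∈ N := by
    intro v hv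
    rw [hN2def, Finset.mem_filter] at hv
    exact hv.1
  obtain ⟨ω₀, hω₀def⟩ : ∃ ω₀ : V3 → ℝ, ω₀ = fun v =>
      (((max (max (-v.1.1) (-v.1.2)) (-1) : ℤ)) : ℝ) := ⟨_, rfl⟩
  have key := hCOA V3 3 T ![N, N1 ∪ Eq, N2 ∪ Ep]
    ![0, toR (lin (-1) 0 0), toR (lin 0 (-1) 0)] ![-1, 0, 0] ω₀ ω₁ ?_ ?_ ?_ ?_
  · obtain ⟨M₀, hM⟩ := key
    refine ⟨_, hM M₀ le_rfl, ?_, ?_⟩
    · intro v hv
      have h3 : ω₀ v = 0 := by
        rw [hω₀def]
        have h1 := (hEq v).1 hv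
        have : max (max (-v.1.1) (-v.1.2)) (-1) = 0 := by omega
        simp only
        rw [this]
        simp
      show M₀ * ω₀ v + ω₁ v = ωE v
      rw [h3, hω₁E v (hEqN v hv)]
      ring
    · intro v hv
      have h3 : ω₀ v = 0 := by
        rw [hω₀def]
        have h1 := (hEp v).1 hv
        have : max (max (-v.1.1) (-v.1.2)) (-1) = 0 := by omega
        simp only
        rw [this]
        simp
      show M₀ * ω₀ v + ω₁ v = ωE v
      rw [h3, hω₁E v (hEpN v hv)]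
      ring
  · intro i v _
    fin_cases i
    · show (0 : V3 →+ ℝ) v + (-1) ≤ ω₀ v
      rw [hω₀def]
      simp only [AddMonoidHom.zero_apply, zero_add]
      have : (-1 : ℤ) ≤ max (max (-v.1.1) (-v.1.2)) (-1) := by omega
      exact_mod_cast this
    · show toR (lin (-1) 0 0) v + 0 ≤ ω₀ v
      rw [toR_apply, lin_apply, hω₀def, add_zero]
      simp only
      have : -1 * v.1.1 + 0 * v.1.2 + 0 * v.2 ≤ max (max (-v.1.1) (-v.1.2)) (-1) := by omega
      exact_mod_cast this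
    · show toR (lin 0 (-1) 0) v + 0 ≤ ω₀ v
      rw [toR_apply, lin_apply, hω₀def, add_zero]
      simp only
      have : 0 * v.1.1 + -1 * v.1.2 + 0 * v.2 ≤ max (max (-v.1.1) (-v.1.2)) (-1) := by omega
      exact_mod_cast this
  · intro i v
    fin_cases i
    · show v ∈ N ↔ v ∈ T ∧ (0 : V3 →+ ℝ) v + (-1) = ω₀ v
      rw [hω₀def]
      simp only [AddMonoidHom.zero_apply, zero_add]
      have e : ((-1 : ℝ) = ((max (max (-v.1.1) (-v.1.2)) (-1) : ℤ) : ℝ)) ↔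
          (-1 : ℤ) = max (max (-v.1.1) (-v.1.2)) (-1) := by
        constructor
        · intro hc; exact_mod_cast hc
        · intro hc; exact_mod_cast hc
      rw [e, hNdef, Finset.mem_filter]
      constructor
      · rintro ⟨h1, h2⟩
        exact ⟨h1, by omega⟩
      · rintro ⟨h1, h2⟩
        exact ⟨h1, by omega⟩
    · show v ∈ N1 ∪ Eq ↔ v ∈ T ∧ toR (lin (-1) 0 0) v + 0 = ω₀ v
      rw [toR_apply, lin_apply, hω₀def, add_zero, Finset.mem_union, hN1, hEq, hT]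
      simp only
      rw [Int.cast_inj]
      constructor
      · rintro (⟨h1, h2, h3, h4⟩ | ⟨h1, h2, h3, h4⟩)
        · refine ⟨⟨by omega, by omega, h3, ?_, ?_, by omega⟩, by omega⟩
          · rw [h1]; omega
          · nlinarith
        · refine ⟨⟨by omega, h3, by omega, ?_, ?_, by omega⟩, by omega⟩
          · rw [h1, h2]; simp
          · rw [h2]; nlinarith
      · rintro ⟨⟨h1, h2, h3, h4, h5, h6⟩, h7⟩
        have h8 : v.1.1 = 0 ∨ v.1.1 = 1 := by omega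
        rcases h8 with h8 | h8
        · right
          rw [h8] at h4
          refine ⟨h8, by omega, h2, by omega⟩
        · left
          refine ⟨h8, by omega, h3, by omega⟩
    · show v ∈ N2 ∪ Ep ↔ v ∈ T ∧ toR (lin 0 (-1) 0) v + 0 = ω₀ v
      rw [toR_apply, lin_apply, hω₀def, add_zero, Finset.mem_union, hN2, hEp, hT]
      simp only
      rw [Int.cast_inj]
      constructor
      · rintro (⟨h1, h2, h3, h4⟩ | ⟨h1, h2, h3, h4⟩)
        · refine ⟨⟨by omega, by omega, h3, ?_, ?_, by omega⟩, by omega⟩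
          · nlinarith
          · rw [h1]; omega
        · refine ⟨⟨h3, by omega, by omega, ?_, ?_, by omega⟩, by omega⟩
          · rw [h2]; nlinarith
          · rw [h1, h2]; simp
      · rintro ⟨⟨h1, h2, h3, h4, h5, h6⟩, h7⟩
        have h8 : v.1.2 = 0 ∨ v.1.2 = 1 := by omega
        rcases h8 with h8 | h8
        · right
          rw [h8] at h5
          refine ⟨h8, by omega, h1, by omega⟩
        · left
          refine ⟨h8, by omega, h3, by omega⟩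
  · intro C hCT _
    have hC : ∀ v ∈ C, 0 ≤ v.1.1 ∧ 0 ≤ v.1.2 ∧ 0 ≤ v.2 ∧ v.2 ≤ h * v.1.1 ∧ v.2 ≤ h * v.1.2 ∧
        v.1.1 + v.1.2 + v.2 ≤ h + 2 := fun v hv => (hT v).1 (hCT hv)
    have hr : 0 ≤ ∑ v ∈ C, v.2 := Finset.sum_nonneg fun v hv => (hC v hv).2.2.1
    have hrp : ∑ v ∈ C, v.2 ≤ h * ∑ v ∈ C, v.1.1 := by
      rw [Finset.mul_sum]
      exact Finset.sum_le_sum fun v hv => (hC v hv).2.2.2.1
    have hrq : ∑ v ∈ C, v.2 ≤ h * ∑ v ∈ C, v.1.2 := by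
      rw [Finset.mul_sum]
      exact Finset.sum_le_sum fun v hv => (hC v hv).2.2.2.2.1
    have hs : ∑ v ∈ C, v.1.1 + ∑ v ∈ C, v.1.2 + ∑ v ∈ C, v.2 ≤ (h + 2) * (C.card : ℤ) := by
      rw [← Finset.sum_add_distrib, ← Finset.sum_add_distrib]
      have e1 : (h + 2) * (C.card : ℤ) = ∑ _v ∈ C, (h + 2) := by
        rw [Finset.sum_const, nsmul_eq_mul]; ring
      rw [e1]
      exact Finset.sum_le_sum fun v hv => (hC v hv).2.2.2.2.2
    by_cases hPQ : (C.card : ℤ) ≤ ∑ v ∈ C, v.1.1 ∧ (C.card : ℤ) ≤ ∑ v ∈ C, v.1.2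
    · refine ⟨0, ?_⟩
      show ∀ (ψ : V3 →+ ℝ) (d : ℝ), (∀ v ∈ N, ψ v + d ≤ 0) → ∑ v ∈ C, (ψ v + d) ≤ 0
      exact covN h hh N C hN hr hPQ.1 hPQ.2 hs
    · by_cases hle : ∑ v ∈ C, v.1.1 ≤ ∑ v ∈ C, v.1.2
      · refine ⟨1, ?_⟩
        show ∀ (ψ : V3 →+ ℝ) (d : ℝ), (∀ v ∈ N1 ∪ Eq, ψ v + d ≤ 0) → ∑ v ∈ C, (ψ v + d) ≤ 0
        refine hCVU h (N1 ∪ Eq) C hh ?_ ?_ ?_ ?_ ?_ hr hrp ?_ hle hs
        · exact Finset.mem_union.2 (Or.inr ((hEq _).2
            ⟨rfl, rfl, by dsimp only; omega, by dsimp only; omega⟩))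
        · exact Finset.mem_union.2 (Or.inr ((hEq _).2
            ⟨rfl, rfl, by dsimp only; omega, by dsimp only; omega⟩))
        · exact Finset.mem_union.2 (Or.inl ((hN1 _).2
            ⟨rfl, by dsimp only; omega, by dsimp only; omega, by dsimp only; omega⟩))
        · exact Finset.mem_union.2 (Or.inl ((hN1 _).2
            ⟨rfl, by dsimp only; omega, by dsimp only; omega, by dsimp only; omega⟩))
        · exact Finset.mem_union.2 (Or.inl ((hN1 _).2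
            ⟨rfl, by dsimp only; omega, by dsimp only; omega, by dsimp only; omega⟩))
        · by_contra hcon
          exact hPQ ⟨by omega, by omega⟩
      · refine ⟨2, ?_⟩
        show ∀ (ψ : V3 →+ ℝ) (d : ℝ), (∀ v ∈ N2 ∪ Ep, ψ v + d ≤ 0) → ∑ v ∈ C, (ψ v + d) ≤ 0
        refine covM hCVU h hh (N2 ∪ Ep) C ?_ ?_ ?_ ?_ ?_ hr hrq ?_ (by omega) hs
        · exact Finset.mem_union.2 (Or.inr ((hEp _).2
            ⟨rfl, rfl, by dsimp only; omega, by dsimp only; omega⟩))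
        · exact Finset.mem_union.2 (Or.inr ((hEp _).2
            ⟨rfl, rfl, by dsimp only; omega, by dsimp only; omega⟩))
        · exact Finset.mem_union.2 (Or.inl ((hN2 _).2
            ⟨rfl, by dsimp only; omega, by dsimp only; omega, by dsimp only; omega⟩))
        · exact Finset.mem_union.2 (Or.inl ((hN2 _).2
            ⟨rfl, by dsimp only; omega, by dsimp only; omega, by dsimp only; omega⟩))
        · exact Finset.mem_union.2 (Or.inl ((hN2 _).2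
            ⟨rfl, by dsimp only; omega, by dsimp only; omega, by dsimp only; omega⟩))
        · by_contra hcon
          exact hPQ ⟨by omega, by omega⟩
  · intro i
    fin_cases i
    · show RLw N ω₁
      exact (hRN.scale hKpos).congr fun v hv => (hω₁N v hv).symm
    · show RLw (N1 ∪ Eq) ω₁
      exact hK1 K hKK1 ω₁ (fun v hv => hω₁N v (hN1N v hv)) (fun v hv => hω₁E v (hEqN v hv))
    · show RLw (N2 ∪ Ep) ω₁
      exact hK2 K hKK2 ω₁ (fun v hv => hω₁N v (hN2N v hv)) (fun v hv => hω₁E v (hEpN v hv))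

end LHR
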