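import Pool.Agent.LHR.Stmts

namespace LHR

open Pool.Agent.LHT

namespace TFLx_

/-- the three coordinate sums of a linear function -/
theorem sum_lin (C : Finset V3) (α β γ c : ℤ) :
    ∑ v ∈ C, (lin α β γ v + c) = α * ∑ v ∈ C, v.1.1 + β * ∑ v ∈ C, v.1.2 + γ * ∑ v ∈ C, v.2
      + c * (C.card : ℤ) := by
  simp only [lin_apply]
  rw [Finset.mul_sum, Finset.mul_sum, Finset.mul_sum, ← Finset.sum_add_distrib,
    ← Finset.sum_add_distrib]
  rw [Finset.sum_add_distrib, Finset.sum_const, nsmul_eq_mul]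
  ring

theorem sum_nonneg_lin (C : Finset V3) (β : ℤ) (S : Finset V3) (hC : C ⊆ S)
    (hS : ∀ v ∈ S, v.1.1 + v.1.2 + v.2 ≤ β) : 0 ≤ ∑ v ∈ C, (lin (-1) (-1) (-1) v + β) := by
  apply Finset.sum_nonneg
  intro v hv
  rw [lin_apply]
  have := hS v (hC hv)
  linarith

end TFLx_

open TFLx_

theorem tfl_proof' (hCOA : Stmt_COA) (hPYR : Stmt_PYR) (hFAC : Stmt_FAC) (hT3L : Stmt_T3L) :
    Stmt_TFL := by
  classical
  intro β hβ S F F' hS hF hF' ω hωF hωF'
  obtain ⟨h, hh⟩ : ∃ h : ℤ, h = β - 2 := ⟨_, rfl⟩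
  have hβh : β = h + 2 := by linarith
  have hh1 : 1 ≤ h := by linarith
  set X : V3 := ((1, 1), h) with hX
  set Eq : Finset V3 := F.filter (fun v => v.2 = 0) with hEq
  set Ep : Finset V3 := F'.filter (fun v => v.2 = 0) with hEp
  set T : Finset V3 := S.filter (fun v => v.2 ≤ h * v.1.1 ∧ v.2 ≤ h * v.1.2) with hT
  set T0 : Finset V3 := S.filter (fun v => v.1.1 ≤ v.1.2 ∧ h * v.1.1 ≤ v.2) with hT0
  set T1 : Finset V3 := S.filter (fun v => v.1.2 ≤ v.1.1 ∧ h * v.1.2 ≤ v.2) with hT1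
  have mEq : ∀ v : V3, v ∈ Eq ↔ v.1.1 = 0 ∧ v.2 = 0 ∧ 0 ≤ v.1.2 ∧ v.1.2 ≤ h + 2 := by
    intro v
    rw [hEq, Finset.mem_filter, hF, hS]
    constructor
    · rintro ⟨⟨⟨h1, h2, h3, h4⟩, h5⟩, h6⟩
      exact ⟨h5, h6, h2, by linarith⟩
    · rintro ⟨h1, h2, h3, h4⟩
      exact ⟨⟨⟨by linarith, h3, by linarith, by linarith⟩, h1⟩, h2⟩
  have mEp : ∀ v : V3, v ∈ Ep ↔ v.1.2 = 0 ∧ v.2 = 0 ∧ 0 ≤ v.1.1 ∧ v.1.1 ≤ h + 2 := by
    intro v
    rw [hEp, Finset.mem_filter, hF', hS]
    constructor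
    · rintro ⟨⟨⟨h1, h2, h3, h4⟩, h5⟩, h6⟩
      exact ⟨h5, h6, h1, by linarith⟩
    · rintro ⟨h1, h2, h3, h4⟩
      exact ⟨⟨⟨h3, by linarith, by linarith, by linarith⟩, h1⟩, h2⟩
  have mT : ∀ v : V3, v ∈ T ↔ 0 ≤ v.1.1 ∧ 0 ≤ v.1.2 ∧ 0 ≤ v.2 ∧ v.2 ≤ h * v.1.1 ∧
      v.2 ≤ h * v.1.2 ∧ v.1.1 + v.1.2 + v.2 ≤ h + 2 := by
    intro v
    rw [hT, Finset.mem_filter, hS, hβh]
    constructor
    · rintro ⟨⟨h1, h2, h3, h4⟩, h5, h6⟩
      exact ⟨h1, h2, h3, h5, h6, h4⟩
    · rintro ⟨h1, h2, h3, h5, h6, h4⟩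
      exact ⟨⟨h1, h2, h3, h4⟩, h5, h6⟩
  have mT0 : ∀ v : V3, v ∈ T0 ↔ v ∈ F ∨ v = X := by
    intro v
    rw [hT0, Finset.mem_filter, hF]
    constructor
    · rintro ⟨hv, h5, h6⟩
      by_cases h0 : v.1.1 = 0
      · exact Or.inl ⟨hv, h0⟩
      · right
        obtain ⟨h1, h2, h3, h4⟩ := (hS v).mp hv
        have hp : 1 ≤ v.1.1 := by omega
        have e1 : v.1.1 = 1 := by nlinarith
        rw [e1] at h5 h6
        have e2 : v.1.2 = 1 := by linarith
        have e3 : v.2 = h := by linarith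
        exact Prod.ext (Prod.ext e1 e2) e3
    · rintro (⟨hv, h0⟩ | rfl)
      · obtain ⟨h1, h2, h3, h4⟩ := (hS v).mp hv
        exact ⟨hv, by rw [h0]; exact h2, by rw [h0, mul_zero]; exact h3⟩
      · refine ⟨(hS _).mpr ⟨?_, ?_, ?_, ?_⟩, ?_, ?_⟩
        · show (0 : ℤ) ≤ 1
          norm_num
        · show (0 : ℤ) ≤ 1
          norm_num
        · show (0 : ℤ) ≤ h
          linarith
        · show (1 : ℤ) + 1 + h ≤ β
          linarith
        · show (1 : ℤ) ≤ 1
          norm_num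
        · show h * 1 ≤ h
          linarith
  have mT1 : ∀ v : V3, v ∈ T1 ↔ v ∈ F' ∨ v = X := by
    intro v
    rw [hT1, Finset.mem_filter, hF']
    constructor
    · rintro ⟨hv, h5, h6⟩
      by_cases h0 : v.1.2 = 0
      · exact Or.inl ⟨hv, h0⟩
      · right
        obtain ⟨h1, h2, h3, h4⟩ := (hS v).mp hv
        have hp : 1 ≤ v.1.2 := by omega
        have e1 : v.1.2 = 1 := by nlinarith
        rw [e1] at h5 h6
        have e2 : v.1.1 = 1 := by linarith
        have e3 : v.2 = h := by linarith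
        exact Prod.ext (Prod.ext e2 e1) e3
    · rintro (⟨hv, h0⟩ | rfl)
      · obtain ⟨h1, h2, h3, h4⟩ := (hS v).mp hv
        exact ⟨hv, by rw [h0]; exact h1, by rw [h0, mul_zero]; exact h3⟩
      · refine ⟨(hS _).mpr ⟨?_, ?_, ?_, ?_⟩, ?_, ?_⟩
        · show (0 : ℤ) ≤ 1
          norm_num
        · show (0 : ℤ) ≤ 1
          norm_num
        · show (0 : ℤ) ≤ h
          linarith
        · show (1 : ℤ) + 1 + h ≤ β
          linarith
        · show (1 : ℤ) ≤ 1
          norm_num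
        · show h * 1 ≤ h
          linarith
  -- restriction to the edges
  have z00 : (((0, 0), 0) : V3) ∈ S :=
    (hS _).mpr ⟨le_rfl, le_rfl, le_rfl, by show (0 : ℤ) + 0 + 0 ≤ β; linarith⟩
  have z01 : (((0, 1), 0) : V3) ∈ S :=
    (hS _).mpr ⟨le_rfl, by show (0 : ℤ) ≤ 1; norm_num, le_rfl, by
      show (0 : ℤ) + 1 + 0 ≤ β; linarith⟩
  have z10 : (((1, 0), 0) : V3) ∈ S :=
    (hS _).mpr ⟨by show (0 : ℤ) ≤ 1; norm_num, le_rfl, le_rfl, by
      show (1 : ℤ) + 0 + 0 ≤ β; linarith⟩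
  have zr : (((0, 0), 1) : V3) ∈ S :=
    (hS _).mpr ⟨le_rfl, le_rfl, by show (0 : ℤ) ≤ 1; norm_num, by
      show (0 : ℤ) + 0 + 1 ≤ β; linarith⟩
  have hωEq : RF Eq ω := by
    refine hFAC V3 F Eq cz 0 ω ?_ ?_ ?_ ?_ hωF
    · intro v hv
      have := ((hS v).mp ((hF v).mp hv).1).2.2.1
      rw [cz_apply]
      linarith
    · intro v
      rw [hEq, Finset.mem_filter, cz_apply, add_zero]
    · refine ⟨((0, 0), 1), (hF _).mpr ⟨zr, rfl⟩, ?_⟩
      rw [cz_apply]
      norm_num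
    · intro χ d hχ
      have e0 := hχ ((0, 0), 0) ((mEq _).mpr ⟨rfl, rfl, le_rfl, by show (0 : ℤ) ≤ h + 2; linarith⟩)
      have e1 := hχ ((0, 1), 0) ((mEq _).mpr ⟨rfl, rfl, by show (0 : ℤ) ≤ 1; norm_num, by
        show (1 : ℤ) ≤ h + 2; linarith⟩)
      have hz : χ ((0, 0), 0) = 0 := map_zero χ
      have hd : d = 0 := by linarith
      refine ⟨χ ((0, 0), 1), ?_⟩
      intro v hv
      have hv0 := ((hF v).mp hv).2
      rw [hom3 χ v, hv0, cz_apply, hd]
      have e2 : χ ((0, 1), 0) = 0 := by linarith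
      rw [e2]
      push_cast
      ring
  have hωEp : RF Ep ω := by
    refine hFAC V3 F' Ep cz 0 ω ?_ ?_ ?_ ?_ hωF'
    · intro v hv
      have := ((hS v).mp ((hF' v).mp hv).1).2.2.1
      rw [cz_apply]
      linarith
    · intro v
      rw [hEp, Finset.mem_filter, cz_apply, add_zero]
    · refine ⟨((0, 0), 1), (hF' _).mpr ⟨zr, rfl⟩, ?_⟩
      rw [cz_apply]
      norm_num
    · intro χ d hχ
      have e0 := hχ ((0, 0), 0) ((mEp _).mpr ⟨rfl, rfl, le_rfl, by show (0 : ℤ) ≤ h + 2; linarith⟩)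
      have e1 := hχ ((1, 0), 0) ((mEp _).mpr ⟨rfl, rfl, by show (0 : ℤ) ≤ 1; norm_num, by
        show (1 : ℤ) ≤ h + 2; linarith⟩)
      have hz : χ ((0, 0), 0) = 0 := map_zero χ
      have hd : d = 0 := by linarith
      refine ⟨χ ((0, 0), 1), ?_⟩
      intro v hv
      have hv0 := ((hF' v).mp hv).2
      rw [hom3 χ v, hv0, cz_apply, hd]
      have e2 : χ ((1, 0), 0) = 0 := by linarith
      rw [e2]
      push_cast
      ring
  obtain ⟨ωT, hωT, hTq, hTp⟩ := hT3L h T Eq Ep ω hh1 mT mEq mEp hωEq hωEp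
  set ω₁ : V3 → ℝ := fun v => if v.1.1 = 0 then ω v else if v.1.2 = 0 then ω v else ωT v with hω₁
  have ω₁F : ∀ v ∈ F, ω v = ω₁ v := by
    intro v hv
    have := ((hF v).mp hv).2
    show ω v = if v.1.1 = 0 then ω v else if v.1.2 = 0 then ω v else ωT v
    rw [if_pos this]
  have ω₁F' : ∀ v ∈ F', ω v = ω₁ v := by
    intro v hv
    have := ((hF' v).mp hv).2
    show ω v = if v.1.1 = 0 then ω v else if v.1.2 = 0 then ω v else ωT v
    split_ifs
    · rfl
    · rfl
  have ω₁T : ∀ v ∈ T, ωT v = ω₁ v := by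
    intro v hv
    obtain ⟨h1, h2, h3, h4, h5, h6⟩ := (mT v).mp hv
    show ωT v = if v.1.1 = 0 then ω v else if v.1.2 = 0 then ω v else ωT v
    split_ifs with g1 g2
    · rw [g1, mul_zero] at h4
      exact hTq v ((mEq v).mpr ⟨g1, by linarith, h2, by linarith⟩)
    · rw [g2, mul_zero] at h5
      exact hTp v ((mEp v).mpr ⟨g2, by linarith, h1, by linarith⟩)
    · rfl
  have r0 : RLw T0 ω₁ := by
    refine hPYR V3 sep_V3 T0 F X cx 0 ω₁ ?_ ?_ mT0 (hωF.congr ω₁F)
    · intro v hv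
      rw [cx_apply, ((hF v).mp hv).2]
      norm_num
    · rw [cx_apply]
      show (1 : ℤ) + 0 = 1
      norm_num
  have r1 : RLw T1 ω₁ := by
    refine hPYR V3 sep_V3 T1 F' X cy 0 ω₁ ?_ ?_ mT1 (hωF'.congr ω₁F')
    · intro v hv
      rw [cy_apply, ((hF' v).mp hv).2]
      norm_num
    · rw [cy_apply]
      show (1 : ℤ) + 0 = 1
      norm_num
  have r2 : RLw T ω₁ := hωT.congr ω₁T
  have hhr : (0 : ℝ) < (h : ℝ) := by exact_mod_cast hh1
  have hβr : (0 : ℝ) < (β : ℝ) := by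
    have : 0 < β := by linarith
    exact_mod_cast this
  have hβhr : (β : ℝ) = (h : ℝ) + 2 := by
    rw [hβh]
    push_cast
    ring
  set ω₀ : V3 → ℝ := fun v => max (max (-(v.1.1 : ℝ)) (-(v.1.2 : ℝ))) (-((v.2 : ℝ) / h)) with hω₀
  have hω₀v : ∀ v : V3, ω₀ v = max (max (-(v.1.1 : ℝ)) (-(v.1.2 : ℝ))) (-((v.2 : ℝ) / h)) :=
    fun v => rfl
  obtain ⟨M, hM⟩ := hCOA V3 3 S ![T0, T1, T] ![-(toR cx), -(toR cy), (-(1 / (h : ℝ))) • toR cz]
    ![0, 0, 0] ω₀ ω₁ (by
      intro i v _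
      rw [hω₀v]
      fin_cases i
      · show -(v.1.1 : ℝ) + 0 ≤ _
        rw [add_zero]
        exact le_trans (le_max_left _ _) (le_max_left _ _)
      · show -(v.1.2 : ℝ) + 0 ≤ _
        rw [add_zero]
        exact le_trans (le_max_right _ _) (le_max_left _ _)
      · show (-(1 / (h : ℝ))) * (v.2 : ℝ) + 0 ≤ _
        have e : (-(1 / (h : ℝ))) * (v.2 : ℝ) + 0 = -((v.2 : ℝ) / h) := by ring
        rw [e]
        exact le_max_right _ _) (by
      intro i v
      have k1 : ∀ a b : ℤ, (-(a : ℝ) ≤ -(b : ℝ)) ↔ b ≤ a := by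
        intro a b
        rw [neg_le_neg_iff]
        exact_mod_cast Iff.rfl
      have k2 : ∀ a b : ℤ, (-((a : ℝ) / h) ≤ -(b : ℝ)) ↔ h * b ≤ a := by
        intro a b
        rw [neg_le_neg_iff, le_div_iff₀ hhr]
        constructor
        · intro g
          have : b * h ≤ a := by exact_mod_cast g
          linarith
        · intro g
          have : b * h ≤ a := by linarith
          exact_mod_cast this
      have k3 : ∀ a b : ℤ, (-(b : ℝ) ≤ -((a : ℝ) / h)) ↔ a ≤ h * b := by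
        intro a b
        rw [neg_le_neg_iff, div_le_iff₀ hhr]
        constructor
        · intro g
          have : a ≤ b * h := by exact_mod_cast g
          linarith
        · intro g
          have : a ≤ b * h := by linarith
          exact_mod_cast this
      rw [hω₀v]
      fin_cases i
      · show v ∈ T0 ↔ v ∈ S ∧ -(v.1.1 : ℝ) + 0 = _
        rw [hT0, Finset.mem_filter, add_zero]
        apply and_congr_right
        intro _
        rw [← k1 v.1.2 v.1.1, ← k2 v.2 v.1.1]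
        constructor
        · rintro ⟨g1, g2⟩
          rw [max_eq_left g1, max_eq_left g2]
        · intro g
          have g1 : max (-(v.1.1 : ℝ)) (-(v.1.2 : ℝ)) ≤ -(v.1.1 : ℝ) := by
            have := le_max_left (max (-(v.1.1 : ℝ)) (-(v.1.2 : ℝ))) (-((v.2 : ℝ) / h))
            rw [← g] at this
            exact this
          refine ⟨le_trans (le_max_right _ _) g1, ?_⟩
          rw [g]
          exact le_max_right _ _
      · show v ∈ T1 ↔ v ∈ S ∧ -(v.1.2 : ℝ) + 0 = _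
        rw [hT1, Finset.mem_filter, add_zero]
        apply and_congr_right
        intro _
        rw [← k1 v.1.1 v.1.2, ← k2 v.2 v.1.2]
        constructor
        · rintro ⟨g1, g2⟩
          rw [max_eq_right g1, max_eq_left g2]
        · intro g
          have g1 : max (-(v.1.1 : ℝ)) (-(v.1.2 : ℝ)) ≤ -(v.1.2 : ℝ) := by
            have := le_max_left (max (-(v.1.1 : ℝ)) (-(v.1.2 : ℝ))) (-((v.2 : ℝ) / h))
            rw [← g] at this
            exact this
          refine ⟨le_trans (le_max_left _ _) g1, ?_⟩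
          rw [g]
          exact le_max_right _ _
      · show v ∈ T ↔ v ∈ S ∧ (-(1 / (h : ℝ))) * (v.2 : ℝ) + 0 = _
        have e : (-(1 / (h : ℝ))) * (v.2 : ℝ) + 0 = -((v.2 : ℝ) / h) := by ring
        rw [e, hT, Finset.mem_filter]
        apply and_congr_right
        intro _
        rw [← k3 v.2 v.1.1, ← k3 v.2 v.1.2]
        constructor
        · rintro ⟨g1, g2⟩
          rw [max_eq_right (max_le g1 g2)]
        · intro g
          have g1 : max (-(v.1.1 : ℝ)) (-(v.1.2 : ℝ)) ≤ -((v.2 : ℝ) / h) := by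
            rw [g]
            exact le_max_left _ _
          exact ⟨le_trans (le_max_left _ _) g1, le_trans (le_max_right _ _) g1⟩) (by
      intro C hC hCne
      have hsumS := sum_nonneg_lin C β S hC (fun v hv => ((hS v).mp hv).2.2.2)
      have hP : 0 ≤ ∑ v ∈ C, v.1.1 := Finset.sum_nonneg (fun v hv => ((hS v).mp (hC hv)).1)
      have hQ : 0 ≤ ∑ v ∈ C, v.1.2 := Finset.sum_nonneg (fun v hv => ((hS v).mp (hC hv)).2.1)
      have hR : 0 ≤ ∑ v ∈ C, v.2 := Finset.sum_nonneg (fun v hv => ((hS v).mp (hC hv)).2.2.1)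
      have vβx : (((β, 0), 0) : V3) ∈ T := (mT _).mpr ⟨by show 0 ≤ β; linarith, le_rfl, le_rfl, by
        show (0 : ℤ) ≤ h * β
        positivity, by show (0 : ℤ) ≤ h * 0; linarith, by show β + 0 + 0 ≤ h + 2; linarith⟩
      have vβy : (((0, β), 0) : V3) ∈ T := (mT _).mpr ⟨le_rfl, by show 0 ≤ β; linarith, le_rfl, by
        show (0 : ℤ) ≤ h * 0; linarith, by
        show (0 : ℤ) ≤ h * β
        positivity, by show 0 + β + 0 ≤ h + 2; linarith⟩
      have v0T : (((0, 0), 0) : V3) ∈ T := (mT _).mpr ⟨le_rfl, le_rfl, le_rfl, by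
        show (0 : ℤ) ≤ h * 0; linarith, by show (0 : ℤ) ≤ h * 0; linarith, by
        show (0 : ℤ) + 0 + 0 ≤ h + 2; linarith⟩
      have vXT : X ∈ T := (mT _).mpr ⟨by show (0 : ℤ) ≤ 1; norm_num, by show (0 : ℤ) ≤ 1; norm_num,
        by show 0 ≤ h; linarith, by show h ≤ h * 1; linarith, by show h ≤ h * 1; linarith, by
        show 1 + 1 + h ≤ h + 2; linarith⟩
      have sβy : (((0, β), 0) : V3) ∈ F := (hF _).mpr ⟨(hS _).mpr ⟨le_rfl, by show 0 ≤ β; linarith,
        le_rfl, by show 0 + β + 0 ≤ β; linarith⟩, rfl⟩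
      have sβz : (((0, 0), β) : V3) ∈ F := (hF _).mpr ⟨(hS _).mpr ⟨le_rfl, le_rfl, by
        show 0 ≤ β; linarith, by show 0 + 0 + β ≤ β; linarith⟩, rfl⟩
      have s0 : (((0, 0), 0) : V3) ∈ F := (hF _).mpr ⟨z00, rfl⟩
      have sβx' : (((β, 0), 0) : V3) ∈ F' := (hF' _).mpr ⟨(hS _).mpr ⟨by show 0 ≤ β; linarith,
        le_rfl, le_rfl, by show β + 0 + 0 ≤ β; linarith⟩, rfl⟩
      have sβz' : (((0, 0), β) : V3) ∈ F' := (hF' _).mpr ⟨(hS _).mpr ⟨le_rfl, le_rfl, by
        show 0 ≤ β; linarith, by show 0 + 0 + β ≤ β; linarith⟩, rfl⟩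
      have s0' : (((0, 0), 0) : V3) ∈ F' := (hF' _).mpr ⟨z00, rfl⟩
      by_cases c1 : ∑ v ∈ C, v.2 ≤ h * ∑ v ∈ C, v.1.1 ∧ ∑ v ∈ C, v.2 ≤ h * ∑ v ∈ C, v.1.2
      · refine ⟨2, ?_⟩
        show ∀ (ψ : V3 →+ ℝ) (d : ℝ), (∀ v ∈ T, ψ v + d ≤ 0) → ∑ v ∈ C, (ψ v + d) ≤ 0
        refine cover_simplex T C ![X, ((β, 0), 0), ((0, β), 0), ((0, 0), 0)]
          ![lin 0 0 1, lin h 0 (-1), lin 0 h (-1), lin (-1) (-1) (-1)] ![0, 0, 0, β]
          ![h, h * β, h * β, β] ?_ ?_ ?_ ?_
        · intro j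
          fin_cases j
          · exact vXT
          · exact vβx
          · exact vβy
          · exact v0T
        · intro j
          fin_cases j
          · show 0 < h
            linarith
          · show 0 < h * β
            positivity
          · show 0 < h * β
            positivity
          · show 0 < β
            linarith
        · intro ψ d v
          rw [Fin.sum_univ_four]
          show ψ v + d = ((lin 0 0 1 v + 0 : ℤ) : ℝ) / (h : ℝ) * (ψ X + d)
            + ((lin h 0 (-1) v + 0 : ℤ) : ℝ) / ((h * β : ℤ) : ℝ) * (ψ ((β, 0), 0) + d)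
            + ((lin 0 h (-1) v + 0 : ℤ) : ℝ) / ((h * β : ℤ) : ℝ) * (ψ ((0, β), 0) + d)
            + ((lin (-1) (-1) (-1) v + β : ℤ) : ℝ) / (β : ℝ) * (ψ ((0, 0), 0) + d)
          rw [hom3 ψ v, hom3 ψ X, hom3 ψ ((β, 0), 0), hom3 ψ ((0, β), 0), hom3 ψ ((0, 0), 0)]
          simp only [lin_apply, hX]
          push_cast
          rw [hβhr]
          have e2 : (h : ℝ) + 2 ≠ 0 := by linarith
          field_simp
          ring
        · intro j
          fin_cases j
          · show 0 ≤ ∑ v ∈ C, (lin 0 0 1 v + 0)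
            rw [sum_lin]
            linarith
          · show 0 ≤ ∑ v ∈ C, (lin h 0 (-1) v + 0)
            rw [sum_lin]
            linarith [c1.1]
          · show 0 ≤ ∑ v ∈ C, (lin 0 h (-1) v + 0)
            rw [sum_lin]
            linarith [c1.2]
          · exact hsumS
      · by_cases c2 : ∑ v ∈ C, v.1.1 ≤ ∑ v ∈ C, v.1.2
        · have c3 : h * ∑ v ∈ C, v.1.1 ≤ ∑ v ∈ C, v.2 := by
            by_contra hneg
            push Not at hneg
            apply c1
            refine ⟨hneg.le, ?_⟩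
            have : h * ∑ v ∈ C, v.1.1 ≤ h * ∑ v ∈ C, v.1.2 :=
              mul_le_mul_of_nonneg_left c2 (by linarith)
            linarith
          refine ⟨0, ?_⟩
          show ∀ (ψ : V3 →+ ℝ) (d : ℝ), (∀ v ∈ T0, ψ v + d ≤ 0) → ∑ v ∈ C, (ψ v + d) ≤ 0
          refine cover_simplex T0 C ![X, ((0, β), 0), ((0, 0), β), ((0, 0), 0)]
            ![lin 1 0 0, lin (-1) 1 0, lin (-h) 0 1, lin (-1) (-1) (-1)] ![0, 0, 0, β]
            ![1, β, β, β] ?_ ?_ ?_ ?_
          · intro j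
            fin_cases j
            · exact (mT0 _).mpr (Or.inr rfl)
            · exact (mT0 _).mpr (Or.inl sβy)
            · exact (mT0 _).mpr (Or.inl sβz)
            · exact (mT0 _).mpr (Or.inl s0)
          · intro j
            fin_cases j
            · show (0 : ℤ) < 1
              norm_num
            · show 0 < β
              linarith
            · show 0 < β
              linarith
            · show 0 < β
              linarith
          · intro ψ d v
            rw [Fin.sum_univ_four]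
            show ψ v + d = ((lin 1 0 0 v + 0 : ℤ) : ℝ) / ((1 : ℤ) : ℝ) * (ψ X + d)
              + ((lin (-1) 1 0 v + 0 : ℤ) : ℝ) / (β : ℝ) * (ψ ((0, β), 0) + d)
              + ((lin (-h) 0 1 v + 0 : ℤ) : ℝ) / (β : ℝ) * (ψ ((0, 0), β) + d)
              + ((lin (-1) (-1) (-1) v + β : ℤ) : ℝ) / (β : ℝ) * (ψ ((0, 0), 0) + d)
            rw [hom3 ψ v, hom3 ψ X, hom3 ψ ((0, β), 0), hom3 ψ ((0, 0), β), hom3 ψ ((0, 0), 0)]
            simp only [lin_apply, hX]
            push_cast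
            rw [hβhr]
            have e2 : (h : ℝ) + 2 ≠ 0 := by linarith
            field_simp
            ring
          · intro j
            fin_cases j
            · show 0 ≤ ∑ v ∈ C, (lin 1 0 0 v + 0)
              rw [sum_lin]
              linarith
            · show 0 ≤ ∑ v ∈ C, (lin (-1) 1 0 v + 0)
              rw [sum_lin]
              linarith
            · show 0 ≤ ∑ v ∈ C, (lin (-h) 0 1 v + 0)
              rw [sum_lin]
              linarith
            · exact hsumS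
        · push Not at c2
          have c3 : h * ∑ v ∈ C, v.1.2 ≤ ∑ v ∈ C, v.2 := by
            by_contra hneg
            push Not at hneg
            apply c1
            refine ⟨?_, hneg.le⟩
            have : h * ∑ v ∈ C, v.1.2 ≤ h * ∑ v ∈ C, v.1.1 :=
              mul_le_mul_of_nonneg_left c2.le (by linarith)
            linarith
          refine ⟨1, ?_⟩
          show ∀ (ψ : V3 →+ ℝ) (d : ℝ), (∀ v ∈ T1, ψ v + d ≤ 0) → ∑ v ∈ C, (ψ v + d) ≤ 0
          refine cover_simplex T1 C ![X, ((β, 0), 0), ((0, 0), β), ((0, 0), 0)]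
            ![lin 0 1 0, lin 1 (-1) 0, lin 0 (-h) 1, lin (-1) (-1) (-1)] ![0, 0, 0, β]
            ![1, β, β, β] ?_ ?_ ?_ ?_
          · intro j
            fin_cases j
            · exact (mT1 _).mpr (Or.inr rfl)
            · exact (mT1 _).mpr (Or.inl sβx')
            · exact (mT1 _).mpr (Or.inl sβz')
            · exact (mT1 _).mpr (Or.inl s0')
          · intro j
            fin_cases j
            · show (0 : ℤ) < 1
              norm_num
            · show 0 < β
              linarith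
            · show 0 < β
              linarith
            · show 0 < β
              linarith
          · intro ψ d v
            rw [Fin.sum_univ_four]
            show ψ v + d = ((lin 0 1 0 v + 0 : ℤ) : ℝ) / ((1 : ℤ) : ℝ) * (ψ X + d)
              + ((lin 1 (-1) 0 v + 0 : ℤ) : ℝ) / (β : ℝ) * (ψ ((β, 0), 0) + d)
              + ((lin 0 (-h) 1 v + 0 : ℤ) : ℝ) / (β : ℝ) * (ψ ((0, 0), β) + d)
              + ((lin (-1) (-1) (-1) v + β : ℤ) : ℝ) / (β : ℝ) * (ψ ((0, 0), 0) + d)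
            rw [hom3 ψ v, hom3 ψ X, hom3 ψ ((β, 0), 0), hom3 ψ ((0, 0), β), hom3 ψ ((0, 0), 0)]
            simp only [lin_apply, hX]
            push_cast
            rw [hβhr]
            have e2 : (h : ℝ) + 2 ≠ 0 := by linarith
            field_simp
            ring
          · intro j
            fin_cases j
            · show 0 ≤ ∑ v ∈ C, (lin 0 1 0 v + 0)
              rw [sum_lin]
              linarith
            · show 0 ≤ ∑ v ∈ C, (lin 1 (-1) 0 v + 0)
              rw [sum_lin]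
              linarith
            · show 0 ≤ ∑ v ∈ C, (lin 0 (-h) 1 v + 0)
              rw [sum_lin]
              linarith
            · exact hsumS) (by
      intro i
      fin_cases i
      · exact r0
      · exact r1
      · exact r2)
  refine ⟨fun v => M * ω₀ v + ω₁ v, hM M le_rfl, ?_, ?_⟩
  · intro v hv
    obtain ⟨hv1, hv2⟩ := (hF v).mp hv
    obtain ⟨h1, h2, h3, h4⟩ := (hS v).mp hv1
    have e0 : ω₀ v = 0 := by
      rw [hω₀v, hv2]
      have q1 : (0 : ℝ) ≤ (v.1.2 : ℝ) := by exact_mod_cast h2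
      have q2 : (0 : ℝ) ≤ (v.2 : ℝ) / h := div_nonneg (by exact_mod_cast h3) hhr.le
      have e1 : max (0 : ℝ) (-(v.1.2 : ℝ)) = 0 := max_eq_left (by linarith)
      have e2 : max (0 : ℝ) (-((v.2 : ℝ) / h)) = 0 := max_eq_left (by linarith)
      rw [Int.cast_zero, neg_zero, e1, e2]
    show M * ω₀ v + ω₁ v = ω v
    rw [e0, ← ω₁F v hv]
    ring
  · intro v hv
    obtain ⟨hv1, hv2⟩ := (hF' v).mp hv
    obtain ⟨h1, h2, h3, h4⟩ := (hS v).mp hv1
    have e0 : ω₀ v = 0 := by
      rw [hω₀v, hv2]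
      have q1 : (0 : ℝ) ≤ (v.1.1 : ℝ) := by exact_mod_cast h1
      have q2 : (0 : ℝ) ≤ (v.2 : ℝ) / h := div_nonneg (by exact_mod_cast h3) hhr.le
      have e1 : max (-(v.1.1 : ℝ)) (0 : ℝ) = 0 := max_eq_right (by linarith)
      have e2 : max (0 : ℝ) (-((v.2 : ℝ) / h)) = 0 := max_eq_left (by linarith)
      rw [Int.cast_zero, neg_zero, e1, e2]
    show M * ω₀ v + ω₁ v = ω v
    rw [e0, ← ω₁F' v hv]
    ring

end LHR
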