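import Pool.Agent.LHR.Stmts

/-! Module TFS: the cases one and two of `TF`. -/

namespace LHR

open Pool.Agent.LHT

namespace TFS_

theorem tf1 (hCRI : Stmt_CRI) : TF 1 := by
  intro S F F' hS _ _ ω _ _
  refine ⟨ω, ?_, fun _ _ => rfl, fun _ _ => rfl⟩
  intro φ b hle hs
  refine hCRI V3 sep_V3 _ hs ?_
  refine PU.mono ?_ contact_subset
  intro p hp
  have hpS := (hS p).1 hp
  obtain ⟨⟨x, y⟩, z⟩ := p
  simp only at hpS
  obtain ⟨hx, hy, hz, hsum⟩ := hpS
  have hcase : (x = 0 ∧ y = 0 ∧ z = 0) ∨ (x = 1 ∧ y = 0 ∧ z = 0) ∨ (x = 0 ∧ y = 1 ∧ z = 0) ∨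
      (x = 0 ∧ y = 0 ∧ z = 1) := by omega
  rcases hcase with ⟨rfl, rfl, rfl⟩ | ⟨rfl, rfl, rfl⟩ | ⟨rfl, rfl, rfl⟩ | ⟨rfl, rfl, rfl⟩
  · refine ⟨lin (-1) (-1) (-1), 1, by rw [lin_apply]; norm_num, ?_⟩
    intro q hq hne
    have hqS := (hS q).1 hq
    obtain ⟨⟨u, v⟩, w⟩ := q
    simp only at hqS
    rw [lin_apply]
    have : ¬ (u = 0 ∧ v = 0 ∧ w = 0) := by
      rintro ⟨rfl, rfl, rfl⟩; exact hne rfl
    simp only
    omega
  · refine ⟨lin 1 0 0, 0, by rw [lin_apply]; norm_num, ?_⟩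
    intro q hq hne
    have hqS := (hS q).1 hq
    obtain ⟨⟨u, v⟩, w⟩ := q
    simp only at hqS
    rw [lin_apply]
    have : ¬ (u = 1 ∧ v = 0 ∧ w = 0) := by
      rintro ⟨rfl, rfl, rfl⟩; exact hne rfl
    simp only
    omega
  · refine ⟨lin 0 1 0, 0, by rw [lin_apply]; norm_num, ?_⟩
    intro q hq hne
    have hqS := (hS q).1 hq
    obtain ⟨⟨u, v⟩, w⟩ := q
    simp only at hqS
    rw [lin_apply]
    have : ¬ (u = 0 ∧ v = 1 ∧ w = 0) := by
      rintro ⟨rfl, rfl, rfl⟩; exact hne rfl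
    simp only
    omega
  · refine ⟨lin 0 0 1, 0, by rw [lin_apply]; norm_num, ?_⟩
    intro q hq hne
    have hqS := (hS q).1 hq
    obtain ⟨⟨u, v⟩, w⟩ := q
    simp only at hqS
    rw [lin_apply]
    have : ¬ (u = 0 ∧ v = 0 ∧ w = 1) := by
      rintro ⟨rfl, rfl, rfl⟩; exact hne rfl
    simp only
    omega

/-- cover of the first cell -/
theorem cov1 (T C : Finset V3) (h0 : (((1, 1), 0) : V3) ∈ T) (h1 : (((0, 2), 0) : V3) ∈ T)
    (h2 : (((0, 0), 2) : V3) ∈ T) (h3 : (((0, 0), 0) : V3) ∈ T)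
    (hC : ∀ v ∈ C, 0 ≤ v.1.1 ∧ 0 ≤ v.1.2 ∧ 0 ≤ v.2 ∧ v.1.1 + v.1.2 + v.2 ≤ 2)
    (hs : ∑ v ∈ C, v.1.1 ≤ ∑ v ∈ C, v.1.2) :
    ∀ (ψ : V3 →+ ℝ) (d : ℝ), (∀ v ∈ T, ψ v + d ≤ 0) → ∑ v ∈ C, (ψ v + d) ≤ 0 := by
  refine cover_simplex T C ![((1, 1), 0), ((0, 2), 0), ((0, 0), 2), ((0, 0), 0)]
    ![lin 1 0 0, lin (-1) 1 0, lin 0 0 1, lin (-1) (-1) (-1)] ![0, 0, 0, 2] ![1, 2, 2, 2]
    ?_ ?_ ?_ ?_
  · intro j
    fin_cases j
    · exact h0
    · exact h1
    · exact h2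
    · exact h3
  · intro j
    fin_cases j <;> norm_num
  · intro ψ d v
    rw [Fin.sum_univ_four]
    simp only [Matrix.cons_val_zero, Matrix.cons_val_one, Matrix.cons_val]
    rw [hom3 ψ v, hom3 ψ ((1, 1), 0), hom3 ψ ((0, 2), 0), hom3 ψ ((0, 0), 2),
      hom3 ψ ((0, 0), 0)]
    simp only [lin_apply]
    push_cast
    ring
  · intro j
    fin_cases j
    · show 0 ≤ ∑ v ∈ C, (lin 1 0 0 v + 0)
      refine Finset.sum_nonneg fun v hv => ?_
      rw [lin_apply]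
      have := hC v hv
      omega
    · show 0 ≤ ∑ v ∈ C, (lin (-1) 1 0 v + 0)
      have e : ∑ v ∈ C, (lin (-1) 1 0 v + 0) = ∑ v ∈ C, v.1.2 - ∑ v ∈ C, v.1.1 := by
        rw [← Finset.sum_sub_distrib]
        refine Finset.sum_congr rfl fun v _ => ?_
        rw [lin_apply]; ring
      rw [e]; linarith
    · show 0 ≤ ∑ v ∈ C, (lin 0 0 1 v + 0)
      refine Finset.sum_nonneg fun v hv => ?_
      rw [lin_apply]
      have := hC v hv
      omega
    · show 0 ≤ ∑ v ∈ C, (lin (-1) (-1) (-1) v + 2)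
      refine Finset.sum_nonneg fun v hv => ?_
      rw [lin_apply]
      have := hC v hv
      omega

/-- cover of the second cell -/
theorem cov2 (T C : Finset V3) (h0 : (((1, 1), 0) : V3) ∈ T) (h1 : (((2, 0), 0) : V3) ∈ T)
    (h2 : (((0, 0), 2) : V3) ∈ T) (h3 : (((0, 0), 0) : V3) ∈ T)
    (hC : ∀ v ∈ C, 0 ≤ v.1.1 ∧ 0 ≤ v.1.2 ∧ 0 ≤ v.2 ∧ v.1.1 + v.1.2 + v.2 ≤ 2)
    (hs : ∑ v ∈ C, v.1.2 ≤ ∑ v ∈ C, v.1.1) :
    ∀ (ψ : V3 →+ ℝ) (d : ℝ), (∀ v ∈ T, ψ v + d ≤ 0) → ∑ v ∈ C, (ψ v + d) ≤ 0 := by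
  refine cover_simplex T C ![((1, 1), 0), ((2, 0), 0), ((0, 0), 2), ((0, 0), 0)]
    ![lin 0 1 0, lin 1 (-1) 0, lin 0 0 1, lin (-1) (-1) (-1)] ![0, 0, 0, 2] ![1, 2, 2, 2]
    ?_ ?_ ?_ ?_
  · intro j
    fin_cases j
    · exact h0
    · exact h1
    · exact h2
    · exact h3
  · intro j
    fin_cases j <;> norm_num
  · intro ψ d v
    rw [Fin.sum_univ_four]
    simp only [Matrix.cons_val_zero, Matrix.cons_val_one, Matrix.cons_val]
    rw [hom3 ψ v, hom3 ψ ((1, 1), 0), hom3 ψ ((2, 0), 0), hom3 ψ ((0, 0), 2),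
      hom3 ψ ((0, 0), 0)]
    simp only [lin_apply]
    push_cast
    ring
  · intro j
    fin_cases j
    · show 0 ≤ ∑ v ∈ C, (lin 0 1 0 v + 0)
      refine Finset.sum_nonneg fun v hv => ?_
      rw [lin_apply]
      have := hC v hv
      omega
    · show 0 ≤ ∑ v ∈ C, (lin 1 (-1) 0 v + 0)
      have e : ∑ v ∈ C, (lin 1 (-1) 0 v + 0) = ∑ v ∈ C, v.1.1 - ∑ v ∈ C, v.1.2 := by
        rw [← Finset.sum_sub_distrib]
        refine Finset.sum_congr rfl fun v _ => ?_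
        rw [lin_apply]; ring
      rw [e]; linarith
    · show 0 ≤ ∑ v ∈ C, (lin 0 0 1 v + 0)
      refine Finset.sum_nonneg fun v hv => ?_
      rw [lin_apply]
      have := hC v hv
      omega
    · show 0 ≤ ∑ v ∈ C, (lin (-1) (-1) (-1) v + 2)
      refine Finset.sum_nonneg fun v hv => ?_
      rw [lin_apply]
      have := hC v hv
      omega

theorem tf2 (hCOA : Stmt_COA) (hPYR : Stmt_PYR) : TF 2 := by
  classical
  intro S F F' hS hF hF' ω hω hω'
  set X : V3 := ((1, 1), 0) with hX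
  have hXS : X ∈ S := by rw [hS, hX]; norm_num
  set T1 : Finset V3 := insert X F with hT1
  set T2 : Finset V3 := insert X F' with hT2
  have hFS : ∀ v ∈ F, v ∈ S := fun v hv => ((hF v).1 hv).1
  have hFS' : ∀ v ∈ F', v ∈ S := fun v hv => ((hF' v).1 hv).1
  have hr1 : RLw T1 ω := by
    refine hPYR V3 sep_V3 T1 F X (lin 1 0 0) 0 ω ?_ ?_ ?_ hω
    · intro v hv
      rw [lin_apply, ((hF v).1 hv).2]; ring
    · rw [lin_apply, hX]; norm_num
    · intro v
      rw [hT1, Finset.mem_insert, or_comm]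
  have hr2 : RLw T2 ω := by
    refine hPYR V3 sep_V3 T2 F' X (lin 0 1 0) 0 ω ?_ ?_ ?_ hω'
    · intro v hv
      rw [lin_apply, ((hF' v).1 hv).2]; ring
    · rw [lin_apply, hX]; norm_num
    · intro v
      rw [hT2, Finset.mem_insert, or_comm]
  set ω₀ : V3 → ℝ := fun v => max (-(v.1.1 : ℝ)) (-(v.1.2 : ℝ)) with hω₀
  have key := hCOA V3 2 S ![T1, T2] ![toR (lin (-1) 0 0), toR (lin 0 (-1) 0)] ![0, 0] ω₀ ω
    ?_ ?_ ?_ ?_
  · obtain ⟨M₀, hM⟩ := key
    refine ⟨_, hM M₀ le_rfl, ?_, ?_⟩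
    · intro v hv
      have h1 := ((hF v).1 hv).2
      have h2 := ((hS v).1 (hFS v hv)).2.1
      have h3 : ω₀ v = 0 := by
        rw [hω₀]
        simp only
        rw [h1]
        have : (0 : ℝ) ≤ (v.1.2 : ℝ) := by exact_mod_cast h2
        rw [max_eq_left]
        · simp
        · simpa using this
      rw [h3]; ring
    · intro v hv
      have h1 := ((hF' v).1 hv).2
      have h2 := ((hS v).1 (hFS' v hv)).1
      have h3 : ω₀ v = 0 := by
        rw [hω₀]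
        simp only
        rw [h1]
        have : (0 : ℝ) ≤ (v.1.1 : ℝ) := by exact_mod_cast h2
        rw [max_eq_right]
        · simp
        · simpa using this
      rw [h3]; ring
  · intro i v _
    fin_cases i
    · show toR (lin (-1) 0 0) v + 0 ≤ ω₀ v
      rw [toR_apply, lin_apply, hω₀]
      push_cast
      refine le_trans (le_of_eq ?_) (le_max_left _ _)
      ring
    · show toR (lin 0 (-1) 0) v + 0 ≤ ω₀ v
      rw [toR_apply, lin_apply, hω₀]
      push_cast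
      refine le_trans (le_of_eq ?_) (le_max_right _ _)
      ring
  · intro i v
    fin_cases i
    · show v ∈ T1 ↔ v ∈ S ∧ toR (lin (-1) 0 0) v + 0 = ω₀ v
      have e : toR (lin (-1) 0 0) v + 0 = -(v.1.1 : ℝ) := by
        rw [toR_apply, lin_apply]; push_cast; ring
      rw [e, hT1, Finset.mem_insert]
      constructor
      · rintro (rfl | h)
        · refine ⟨hXS, ?_⟩
          rw [hω₀, hX]; norm_num
        · refine ⟨hFS v h, ?_⟩
          rw [hω₀]
          simp only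
          rw [max_eq_left]
          have h1 := ((hF v).1 h).2
          have h2 := ((hS v).1 (hFS v h)).2.1
          have : v.1.1 ≤ v.1.2 := by omega
          have : (v.1.1 : ℝ) ≤ v.1.2 := by exact_mod_cast this
          linarith
      · rintro ⟨h1, h2⟩
        rw [hω₀] at h2
        simp only at h2
        have h3 : -(v.1.2 : ℝ) ≤ -(v.1.1 : ℝ) := by rw [h2]; exact le_max_right _ _
        have h4 : v.1.1 ≤ v.1.2 := by
          have : (v.1.1 : ℝ) ≤ v.1.2 := by linarith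
          exact_mod_cast this
        have h5 := (hS v).1 h1
        by_cases h6 : v.1.1 = 0
        · exact Or.inr ((hF v).2 ⟨h1, h6⟩)
        · left
          obtain ⟨⟨x, y⟩, z⟩ := v
          simp only at h4 h5 h6
          have hx : x = 1 := by omega
          have hy : y = 1 := by omega
          have hz : z = 0 := by omega
          rw [hX, hx, hy, hz]
    · show v ∈ T2 ↔ v ∈ S ∧ toR (lin 0 (-1) 0) v + 0 = ω₀ v
      have e : toR (lin 0 (-1) 0) v + 0 = -(v.1.2 : ℝ) := by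
        rw [toR_apply, lin_apply]; push_cast; ring
      rw [e, hT2, Finset.mem_insert]
      constructor
      · rintro (rfl | h)
        · refine ⟨hXS, ?_⟩
          rw [hω₀, hX]; norm_num
        · refine ⟨hFS' v h, ?_⟩
          rw [hω₀]
          simp only
          rw [max_eq_right]
          have h1 := ((hF' v).1 h).2
          have h2 := ((hS v).1 (hFS' v h)).1
          have : v.1.2 ≤ v.1.1 := by omega
          have : (v.1.2 : ℝ) ≤ v.1.1 := by exact_mod_cast this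
          linarith
      · rintro ⟨h1, h2⟩
        rw [hω₀] at h2
        simp only at h2
        have h3 : -(v.1.1 : ℝ) ≤ -(v.1.2 : ℝ) := by rw [h2]; exact le_max_left _ _
        have h4 : v.1.2 ≤ v.1.1 := by
          have : (v.1.2 : ℝ) ≤ v.1.1 := by linarith
          exact_mod_cast this
        have h5 := (hS v).1 h1
        by_cases h6 : v.1.2 = 0
        · exact Or.inr ((hF' v).2 ⟨h1, h6⟩)
        · left
          obtain ⟨⟨x, y⟩, z⟩ := v
          simp only at h4 h5 h6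
          have hx : x = 1 := by omega
          have hy : y = 1 := by omega
          have hz : z = 0 := by omega
          rw [hX, hx, hy, hz]
  · intro C hC _
    have hC' : ∀ v ∈ C, 0 ≤ v.1.1 ∧ 0 ≤ v.1.2 ∧ 0 ≤ v.2 ∧ v.1.1 + v.1.2 + v.2 ≤ 2 :=
      fun v hv => (hS v).1 (hC hv)
    rcases le_total (∑ v ∈ C, v.1.1) (∑ v ∈ C, v.1.2) with h | h
    · refine ⟨0, ?_⟩
      refine cov1 T1 C ?_ ?_ ?_ ?_ hC' h
      · exact Finset.mem_insert_self _ _
      · refine Finset.mem_insert_of_mem ((hF _).2 ⟨(hS _).2 ?_, rfl⟩)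
        norm_num
      · refine Finset.mem_insert_of_mem ((hF _).2 ⟨(hS _).2 ?_, rfl⟩)
        norm_num
      · refine Finset.mem_insert_of_mem ((hF _).2 ⟨(hS _).2 ?_, rfl⟩)
        norm_num
    · refine ⟨1, ?_⟩
      refine cov2 T2 C ?_ ?_ ?_ ?_ hC' h
      · exact Finset.mem_insert_self _ _
      · refine Finset.mem_insert_of_mem ((hF' _).2 ⟨(hS _).2 ?_, rfl⟩)
        norm_num
      · refine Finset.mem_insert_of_mem ((hF' _).2 ⟨(hS _).2 ?_, rfl⟩)
        norm_num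
      · refine Finset.mem_insert_of_mem ((hF' _).2 ⟨(hS _).2 ?_, rfl⟩)
        norm_num
  · intro i
    fin_cases i
    · exact hr1
    · exact hr2

end TFS_

theorem tfs_proof (hCOA : Stmt_COA) (hPYR : Stmt_PYR) (hCRI : Stmt_CRI) : Stmt_TFS :=
  ⟨TFS_.tf1 hCRI, TFS_.tf2 hCOA hPYR⟩

end LHR
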