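import Pool.Agent.LHR.Stmts

/-!
Module UPL of squad LHR: the mirror image of UQL.
-/

namespace LHR

open Pool.Agent.LHT

namespace UPL_

/-- the exchange of the first two coordinates -/
def sw : V3 ≃+ V3 where
  toFun v := ((v.1.2, v.1.1), v.2)
  invFun v := ((v.1.2, v.1.1), v.2)
  left_inv := by
    rintro ⟨⟨x, y⟩, z⟩
    rfl
  right_inv := by
    rintro ⟨⟨x, y⟩, z⟩
    rfl
  map_add' := by
    rintro ⟨⟨x, y⟩, z⟩ ⟨⟨x', y'⟩, z'⟩
    rfl

theorem sw_apply (v : V3) : sw v = ((v.1.2, v.1.1), v.2) := rfl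

theorem sw_sw (v : V3) : sw (sw v) = v := rfl

theorem mem_img (A : Finset V3) (v : V3) : v ∈ A.image sw ↔ sw v ∈ A := by
  rw [Finset.mem_image]
  constructor
  · rintro ⟨w, hw, rfl⟩
    rw [sw_sw]
    exact hw
  · intro h
    exact ⟨sw v, h, sw_sw v⟩

end UPL_

open UPL_ in
theorem upl_proof (hUQL : Stmt_UQL) (hAFF : Stmt_AFF) : Stmt_UPL := by
  intro h U N1 E ωN ωE hh hN1 hE hU hRN hinc hRE
  have aff : ∀ (A : Finset V3) (ω : V3 → ℝ),
      (RF A ω ↔ RF (A.image sw) (fun v => ω (sw v))) ∧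
      (RLw A ω ↔ RLw (A.image sw) (fun v => ω (sw v))) := by
    intro A ω
    have h1 := hAFF V3 V3 sw 0 (A.image sw) A ω (by
      intro v
      rw [add_zero, mem_img])
    simp only [add_zero] at h1
    exact h1
  obtain ⟨K₀, hK⟩ := hUQL h (U.image sw) (N1.image sw) (E.image sw) (fun v => ωN (sw v))
    (fun v => ωE (sw v)) hh
    (by
      intro v
      rw [mem_img, hN1]
      exact Iff.rfl)
    (by
      intro v
      rw [mem_img, hE]
      exact Iff.rfl)
    (by
      intro v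
      rw [mem_img, mem_img, mem_img, hU])
    ((aff N1 ωN).1.1 hRN)
    (by
      intro v hv w hw h1 h2
      rw [mem_img] at hv hw
      exact hinc _ hv _ hw h1 h2)
    ((aff E ωE).1.1 hRE)
  refine ⟨K₀, fun K hKK ω hω1 hω2 => ?_⟩
  rw [(aff U ω).2]
  refine hK K hKK (fun v => ω (sw v)) ?_ ?_
  · intro v hv
    rw [mem_img] at hv
    exact hω1 _ hv
  · intro v hv
    rw [mem_img] at hv
    exact hω2 _ hv

end LHR
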