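import Pool.Agent.LHR.Stmts

/-!
The part of the simplex over `p ≤ 1`, `p ≤ q` (squad LHR, MP_74b890_co).
-/

namespace LHR

open Pool.Agent.LHT

namespace UQL_

theorem pt_eq {v : V3} {a b c : ℤ} (h1 : v.1.1 = a) (h2 : v.1.2 = b) (h3 : v.2 = c) :
    v = ((a, b), c) := Prod.ext (Prod.ext h1 h2) h3

/-- an affine function which vanishes on a spanning set is zero -/
theorem lin_zero {C : Finset V3} (hs : Spans C) (α β γ c : ℤ)
    (h : ∀ v ∈ C, α * v.1.1 + β * v.1.2 + γ * v.2 + c = 0) :
    α = 0 ∧ β = 0 ∧ γ = 0 ∧ c = 0 := by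
  obtain ⟨h1, h2⟩ := hs (toR (lin α β γ)) (c : ℝ) (by
    intro v hv
    rw [toR_apply, lin_apply]
    exact_mod_cast h v hv)
  have e : ∀ v : V3, (α * v.1.1 + β * v.1.2 + γ * v.2 : ℤ) = 0 := by
    intro v
    have h3 : toR (lin α β γ) v = 0 := by rw [h1]; rfl
    rw [toR_apply, lin_apply] at h3
    exact_mod_cast h3
  have e1 := e ((1, 0), 0)
  have e2 := e ((0, 1), 0)
  have e3 := e ((0, 0), 1)
  have e4 : c = 0 := by exact_mod_cast h2
  simp only at e1 e2 e3
  refine ⟨by linarith, by linarith, by linarith, e4⟩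

theorem hom3Z (φ : V3 →+ ℤ) (v : V3) :
    φ v = v.1.1 * φ ((1, 0), 0) + v.1.2 * φ ((0, 1), 0) + v.2 * φ ((0, 0), 1) := by
  have h : v = v.1.1 • (((1, 0), 0) : V3) + v.1.2 • (((0, 1), 0) : V3)
      + v.2 • (((0, 0), 1) : V3) := by
    ext <;> simp
  nth_rewrite 1 [h]
  rw [map_add, map_add, map_zsmul, map_zsmul, map_zsmul]
  simp only [smul_eq_mul]

end UQL_

open UQL_

theorem uql_proof (_hCRI : Stmt_CRI) (hFAC : Stmt_FAC) (hPYR : Stmt_PYR) (hJN2 : Stmt_JN2) :
    Stmt_UQL := by
  classical
  intro h U N1 E ωN ωE hh hN1 hE hU hRN hmono hRE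
  set ω₀ : V3 → ℝ := fun v => if v.1.1 = 1 then ωN v else 0 with hω₀
  set ω₁ : V3 → ℝ := fun v => if v.1.1 = 0 then ωE v else 0 with hω₁
  have w0N : ∀ v ∈ N1, ω₀ v = ωN v := by
    intro v hv
    have := ((hN1 v).mp hv).1
    simp only [hω₀]
    rw [if_pos this]
  have w0E : ∀ v ∈ E, ω₀ v = 0 := by
    intro v hv
    have := ((hE v).mp hv).1
    simp only [hω₀]
    rw [if_neg (by omega)]
  have w1N : ∀ v ∈ N1, ω₁ v = 0 := by
    intro v hv
    have := ((hN1 v).mp hv).1
    simp only [hω₁]
    rw [if_neg (by omega)]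
  have w1E : ∀ v ∈ E, ω₁ v = ωE v := by
    intro v hv
    have := ((hE v).mp hv).1
    simp only [hω₁]
    rw [if_pos this]
  have hcell : ∀ (φ : V3 →+ ℝ) (b : ℝ), (∀ v ∈ U, φ v + b ≤ ω₀ v) →
      Spans (contact U ω₀ φ b) → RLw (contact U ω₀ φ b) ω₁ := by
    intro φ b hle hs
    set C := contact U ω₀ φ b with hC
    have memC : ∀ v, v ∈ C ↔ v ∈ U ∧ φ v + b = ω₀ v := fun v => mem_contact
    set τ := φ ((0, 1), 0) with hτ
    have hφE : ∀ v ∈ E, φ v = v.1.2 * τ := by
      intro v hv
      obtain ⟨h1, h2, -, -⟩ := (hE v).mp hv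
      rw [hom3, h1, h2, ← hτ]
      push_cast
      ring
    have hleE : ∀ v ∈ E, φ v + b ≤ 0 := by
      intro v hv
      have := hle v ((hU v).mpr (Or.inr hv))
      rwa [w0E v hv] at this
    have hleN : ∀ v ∈ N1, φ v + b ≤ ωN v := by
      intro v hv
      have := hle v ((hU v).mpr (Or.inl hv))
      rwa [w0N v hv] at this
    have hCN : ∀ v ∈ C, v ∈ N1 → φ v + b = ωN v := by
      intro v hv hvN
      rw [← w0N v hvN]
      exact ((memC v).mp hv).2
    have hCE : ∀ v ∈ C, v ∈ E → φ v + b = 0 := by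
      intro v hv hvE
      rw [← w0E v hvE]
      exact ((memC v).mp hv).2
    have h0E : (((0, 0), 0) : V3) ∈ E := by
      rw [hE]
      refine ⟨rfl, rfl, le_refl _, by show (0 : ℤ) ≤ h + 2; omega⟩
    have heE : (((0, h + 2), 0) : V3) ∈ E := by
      rw [hE]
      refine ⟨rfl, rfl, by show (0 : ℤ) ≤ h + 2; omega, le_refl _⟩
    have hb0 : b ≤ 0 := by
      have h1 := hleE _ h0E
      have h2 := hφE _ h0E
      simp only [Int.cast_zero, zero_mul] at h2
      linarith
    -- no point of `C` on `E` is impossible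
    have hCEne : ∃ v ∈ C, v ∈ E := by
      by_contra hcon
      push Not at hcon
      have := (lin_zero hs 1 0 0 (-1) (by
        intro v hv
        rcases (hU v).mp ((memC v).mp hv).1 with h1 | h1
        · have := ((hN1 v).mp h1).1
          omega
        · exact absurd h1 (hcon v hv))).1
      omega
    -- (i)
    have hq1 : τ ≤ 0 → ∀ v ∈ C, v ∈ N1 → v.1.2 = 1 := by
      intro hτ0 v hv hvN
      by_contra hne
      obtain ⟨h1, h2, h3, h4⟩ := (hN1 v).mp hvN
      have hvN' : (((1, v.1.2 - 1), v.2) : V3) ∈ N1 := by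
        rw [hN1]
        refine ⟨rfl, ?_, h3, ?_⟩
        · show 1 ≤ v.1.2 - 1
          omega
        · show v.1.2 - 1 + v.2 ≤ h + 1
          omega
      have h5 := hmono _ hvN' v hvN rfl (by show v.1.2 - 1 < v.1.2; omega)
      have h6 := hleN _ hvN'
      have h7 := hCN v hv hvN
      have h8 : φ (((1, v.1.2 - 1), v.2) : V3) = φ v - τ := by
        rw [hom3 φ (((1, v.1.2 - 1), v.2) : V3), hom3 φ v, h1, ← hτ]
        push_cast
        ring
      linarith
    rcases lt_trichotomy τ 0 with hτ0 | hτ0 | hτ0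
    · -- (ii)
      exfalso
      have h1 := (lin_zero hs (-1) 1 0 0 (by
        intro v hv
        rcases (hU v).mp ((memC v).mp hv).1 with h1 | h1
        · have h2 := hq1 hτ0.le v hv h1
          have h3 := ((hN1 v).mp h1).1
          omega
        · have h2 := hCE v hv h1
          rw [hφE v h1] at h2
          obtain ⟨h3, h4, h5, h6⟩ := (hE v).mp h1
          have h7 : v.1.2 = 0 := by
            by_contra hne
            have h8 : (1 : ℝ) ≤ (v.1.2 : ℝ) := by
              have : (1 : ℤ) ≤ v.1.2 := by omega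
              exact_mod_cast this
            have h9 : (v.1.2 : ℝ) * τ < 0 := mul_neg_of_pos_of_neg (by linarith) hτ0
            linarith
          omega)).1
      omega
    · -- (iii)
      have hb : b = 0 := by
        obtain ⟨v, hv, hvE⟩ := hCEne
        have h1 := hCE v hv hvE
        rw [hφE v hvE, hτ0] at h1
        linarith
      have hEC : ∀ v ∈ E, v ∈ C := by
        intro v hv
        rw [memC]
        refine ⟨(hU v).mpr (Or.inr hv), ?_⟩
        rw [w0E v hv, hφE v hv, hτ0, hb]
        ring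
      have hq := hq1 hτ0.le
      set R := N1.filter (fun v => v.1.2 = 1) with hR
      have memR : ∀ v, v ∈ R ↔ v ∈ N1 ∧ v.1.2 = 1 := fun v => by
        rw [hR, Finset.mem_filter]
      have hR0 : (((1, 1), 0) : V3) ∈ R := by
        rw [memR, hN1]
        refine ⟨⟨rfl, le_refl _, le_refl _, ?_⟩, rfl⟩
        show (1 : ℤ) + 0 ≤ h + 1
        omega
      have hR1 : (((1, 1), 1) : V3) ∈ R := by
        rw [memR, hN1]
        refine ⟨⟨rfl, le_refl _, by norm_num, ?_⟩, rfl⟩
        show (1 : ℤ) + 1 ≤ h + 1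
        omega
      have hRR : RF R ωN := by
        refine hFAC V3 N1 R cy (-1) ωN ?_ ?_ ?_ ?_ hRN
        · intro v hv
          have := ((hN1 v).mp hv).2.1
          rw [cy_apply]
          omega
        · intro v
          rw [memR, cy_apply]
          constructor
          · rintro ⟨h1, h2⟩
            exact ⟨h1, by omega⟩
          · rintro ⟨h1, h2⟩
            exact ⟨h1, by omega⟩
        · refine ⟨((1, 2), 0), ?_, ?_⟩
          · rw [hN1]
            refine ⟨rfl, by norm_num, le_refl _, ?_⟩
            show (2 : ℤ) + 0 ≤ h + 1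
            omega
          · rw [cy_apply]
            norm_num
        · intro χ d hχ
          have e0 := hχ _ hR0
          have e1 := hχ _ hR1
          rw [hom3] at e0 e1
          push_cast at e0 e1
          refine ⟨χ ((0, 1), 0), ?_⟩
          intro v hv
          have h1 := ((hN1 v).mp hv).1
          rw [hom3, cy_apply, h1]
          push_cast
          have e2 : χ ((0, 0), 1) = 0 := by linarith
          rw [e2]
          linarith
      set C1 := contact R ωN φ b with hC1
      have memC1 : ∀ v, v ∈ C1 ↔ v ∈ C ∧ v ∈ N1 := by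
        intro v
        rw [hC1, mem_contact, memR]
        constructor
        · rintro ⟨⟨h1, h2⟩, h3⟩
          refine ⟨?_, h1⟩
          rw [memC]
          refine ⟨(hU v).mpr (Or.inl h1), ?_⟩
          rw [w0N v h1]
          exact h3
        · rintro ⟨h1, h2⟩
          exact ⟨⟨h2, hq v h1 h2⟩, hCN v h1 h2⟩
      have hC1pt : ∀ v ∈ C1, v.1.1 = 1 ∧ v.1.2 = 1 := by
        intro v hv
        have h1 := (memC1 v).mp hv
        exact ⟨((hN1 v).mp h1.2).1, hq v h1.1 h1.2⟩
      -- two points
      have htwo : ∃ v ∈ C1, ∃ w ∈ C1, v.2 < w.2 := by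
        by_contra hcon
        push Not at hcon
        have hall : ∀ v ∈ C1, ∀ w ∈ C1, v.2 = w.2 := by
          intro v hv w hw
          exact le_antisymm (hcon w hw v hv) (hcon v hv w hw)
        have hex : ∃ t : ℤ, ∀ v ∈ C1, v.2 = t := by
          by_cases hne : C1.Nonempty
          · obtain ⟨w, hw⟩ := hne
            exact ⟨w.2, fun v hv => hall v hv w hw⟩
          · exact ⟨0, fun v hv => absurd ⟨v, hv⟩ hne⟩
        obtain ⟨t, ht⟩ := hex
        have h1 := (lin_zero hs (-t) 0 1 0 (by
          intro v hv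
          rcases (hU v).mp ((memC v).mp hv).1 with h1 | h1
          · have h2 := ht v ((memC1 v).mpr ⟨hv, h1⟩)
            have h3 := ((hN1 v).mp h1).1
            rw [h2, h3]
            ring
          · obtain ⟨h3, h4, -, -⟩ := (hE v).mp h1
            rw [h3, h4]
            ring)).2.2.1
        omega
      obtain ⟨v1, hv1, v2, hv2, hlt⟩ := htwo
      have hRSp : RSp C1 R := by
        intro χ d hχ v hv
        have e1 := hχ v1 hv1
        have e2 := hχ v2 hv2
        obtain ⟨a1, a2⟩ := hC1pt v1 hv1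
        obtain ⟨a3, a4⟩ := hC1pt v2 hv2
        have a5 := ((hN1 v).mp ((memR v).mp hv).1).1
        have a6 := ((memR v).mp hv).2
        rw [hom3, a1, a2] at e1
        rw [hom3, a3, a4] at e2
        rw [hom3, a5, a6]
        have hne : (v2.2 : ℝ) - v1.2 ≠ 0 := by
          have : (v1.2 : ℝ) < v2.2 := by exact_mod_cast hlt
          intro h0
          linarith
        have e3 : ((v2.2 : ℝ) - v1.2) * χ ((0, 0), 1) = 0 := by linarith
        have e4 := (mul_eq_zero.mp e3).resolve_left hne
        rw [e4] at e1 ⊢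
        linarith
      have hPU : PU C1 := hRR φ b (fun v hv => hleN v ((memR v).mp hv).1) hRSp
      obtain ⟨ψ, c, hψ1, hψ2⟩ := hPU v1 hv1
      obtain ⟨a1, a2⟩ := hC1pt v1 hv1
      have hv21 : v2 ≠ v1 := by
        rintro rfl
        exact lt_irrefl _ hlt
      have f1 := hψ1
      have f2 := hψ2 v2 hv2 hv21
      obtain ⟨a3, a4⟩ := hC1pt v2 hv2
      rw [hom3Z, a1, a2] at f1
      rw [hom3Z, a3, a4] at f2
      have f3 : (v2.2 - v1.2) * (-ψ ((0, 0), 1)) = 1 := by linarith
      have f4 : v2.2 - v1.2 = 1 := by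
        have h1 : 0 < v2.2 - v1.2 := by omega
        rcases Int.eq_one_or_neg_one_of_mul_eq_one f3 with h2 | h2
        · exact h2
        · omega
      have f5 : ψ ((0, 0), 1) = -1 := by
        rw [f4] at f3
        linarith
      have hC1eq : ∀ v ∈ C1, v = v1 ∨ v = v2 := by
        intro v hv
        by_cases hvv : v = v1
        · exact Or.inl hvv
        · right
          have g1 := hψ2 v hv hvv
          obtain ⟨a5, a6⟩ := hC1pt v hv
          rw [hom3Z, a5, a6] at g1
          rw [f5] at g1 f2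
          have g2 : v.2 = v2.2 := by linarith
          exact Prod.ext (Prod.ext (by rw [a5, a3]) (by rw [a6, a4])) g2
      have e1 : v1 = ((1, 1), v1.2) := pt_eq a1 a2 rfl
      have e2 : v2 = ((1, 1), v1.2 + 1) := pt_eq a3 a4 (by omega)
      refine hJN2 (h + 2) v1.2 E C ωE ω₁ (by omega) hE ?_ hRE w1E
      intro v
      rw [← e1, ← e2]
      constructor
      · intro hv
        rcases (hU v).mp ((memC v).mp hv).1 with h1 | h1
        · exact Or.inr (hC1eq v ((memC1 v).mpr ⟨hv, h1⟩))
        · exact Or.inl h1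
      · rintro (h1 | h1 | h1)
        · exact hEC v h1
        · rw [h1]
          exact ((memC1 v1).mp hv1).1
        · rw [h1]
          exact ((memC1 v2).mp hv2).1
    · -- (iv)
      set e : V3 := ((0, h + 2), 0) with he
      have hEe : ∀ v ∈ C, v ∈ E → v = e := by
        intro v hv hvE
        have h1 := hCE v hv hvE
        rw [hφE v hvE] at h1
        have h2 := hleE _ heE
        rw [hφE _ heE] at h2
        obtain ⟨h3, h4, h5, h6⟩ := (hE v).mp hvE
        have h7 : ((h + 2 : ℤ) : ℝ) * τ ≤ (v.1.2 : ℝ) * τ := by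
          have : ((((0, h + 2), 0) : V3).1.2 : ℝ) = ((h + 2 : ℤ) : ℝ) := rfl
          rw [this] at h2
          linarith
        have h8 : ((h + 2 : ℤ) : ℝ) ≤ (v.1.2 : ℝ) := le_of_mul_le_mul_right h7 hτ0
        have h9 : h + 2 ≤ v.1.2 := by exact_mod_cast h8
        exact pt_eq h3 (le_antisymm h6 h9) h4
      have heC : e ∈ C := by
        obtain ⟨v, hv, hvE⟩ := hCEne
        rw [← hEe v hv hvE]
        exact hv
      set C1 := contact N1 ωN φ b with hC1
      have memC1 : ∀ v, v ∈ C1 ↔ v ∈ C ∧ v ∈ N1 := by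
        intro v
        rw [hC1, mem_contact]
        constructor
        · rintro ⟨h1, h3⟩
          refine ⟨?_, h1⟩
          rw [memC]
          refine ⟨(hU v).mpr (Or.inl h1), ?_⟩
          rw [w0N v h1]
          exact h3
        · rintro ⟨h1, h2⟩
          exact ⟨h2, hCN v h1 h2⟩
      have hRSp : RSp C1 N1 := by
        intro χ d hχ v hv
        obtain ⟨h1, h2⟩ := hs (χ + (χ e + d) • toR cx) (d - (χ e + d)) (by
          intro w hw
          have hev : (χ + (χ e + d) • toR cx) w = χ w + (χ e + d) * (w.1.1 : ℝ) := by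
            show χ w + (χ e + d) * toR cx w = _
            rw [toR_apply, cx_apply]
          rw [hev]
          rcases (hU w).mp ((memC w).mp hw).1 with h1 | h1
          · have h2 := hχ w ((memC1 w).mpr ⟨hw, h1⟩)
            have h3 := ((hN1 w).mp h1).1
            rw [h3]
            push_cast
            linarith
          · rw [hEe w hw h1]
            have h3 : e.1.1 = 0 := rfl
            rw [h3]
            push_cast
            ring)
        have h3 : (χ + (χ e + d) • toR cx) v = 0 := by rw [h1]; rfl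
        have hev : (χ + (χ e + d) • toR cx) v = χ v + (χ e + d) * (v.1.1 : ℝ) := by
          show χ v + (χ e + d) * toR cx v = _
          rw [toR_apply, cx_apply]
        rw [hev, ((hN1 v).mp hv).1] at h3
        push_cast at h3
        linarith
      have hPU : PU C1 := hRN φ b hleN hRSp
      have hRF1 : RF C1 ω₁ := fun φ' b' _ _ => hPU.mono contact_subset
      refine hPYR V3 sep_V3 C C1 e (lin (-1) 0 0) 1 ω₁ ?_ ?_ ?_ hRF1
      · intro v hv
        have := ((hN1 v).mp ((memC1 v).mp hv).2).1
        rw [lin_apply]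
        omega
      · rw [lin_apply]
        have h3 : e.1.1 = 0 := rfl
        rw [h3]
        ring
      · intro v
        constructor
        · intro hv
          rcases (hU v).mp ((memC v).mp hv).1 with h1 | h1
          · exact Or.inl ((memC1 v).mpr ⟨hv, h1⟩)
          · exact Or.inr (hEe v hv h1)
        · rintro (h1 | h1)
          · exact ((memC1 v).mp h1).1
          · rw [h1]
            exact heC
  obtain ⟨M₀, hM₀⟩ := refinement U ω₀ ω₁ hcell
  refine ⟨M₀, fun K hK ω hω1 hω2 => (hM₀ K hK).congr ?_⟩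
  intro v hv
  rcases (hU v).mp hv with h1 | h1
  · show K * ω₀ v + ω₁ v = ω v
    rw [w0N v h1, w1N v h1, hω1 v h1]
    ring
  · show K * ω₀ v + ω₁ v = ω v
    rw [w0E v h1, w1E v h1, hω2 v h1]
    ring

end LHR
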