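import Pool.Agent.LHR.CRI
import Pool.Agent.LHR.FAC
import Pool.Agent.LHR.FA3
import Pool.Agent.LHR.COA
import Pool.Agent.LHR.CUT
import Pool.Agent.LHR.GRF
import Pool.Agent.LHR.EXC
import Pool.Agent.LHR.AFF
import Pool.Agent.LHR.AFE
import Pool.Agent.LHR.PYR
import Pool.Agent.LHR.JN2
import Pool.Agent.LHR.UQL
import Pool.Agent.LHR.UPL
import Pool.Agent.LHR.NLM
import Pool.Agent.LHR.CVU
import Pool.Agent.LHR.T3L
import Pool.Agent.LHR.TFLx
import Pool.Agent.LHR.TFS
import Pool.Agent.LHR.F31
import Pool.Agent.LHR.F3D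
import Pool.Agent.LHR.F32
import Pool.Agent.LHR.GSH
import Pool.Agent.LHR.G00x
import Pool.Agent.LHR.G11
import Pool.Agent.LHR.G22
import Pool.Agent.LHR.IND
import Pool.Agent.LHR.D2L
import Pool.Agent.LHR.RL3
import Pool.Agent.LHR.FIN

/-!
Assembly of squad LHR.
-/

namespace LHR

open Pool.Agent.LHT

theorem all_fac : Stmt_FAC := fac_proof
theorem all_cri : Stmt_CRI := cri_proof
theorem all_aff : Stmt_AFF := aff_proof
theorem all_afe : Stmt_AFE := afe_proof all_aff
theorem all_fa3 : Stmt_FA3 := fa3_proof all_fac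
theorem all_coa : Stmt_COA := coa_proof
theorem all_cut : Stmt_CUT := cut_proof all_fac
theorem all_exc : Stmt_EXC := exc_proof (grf_proof all_cri) all_aff
theorem all_pyr : Stmt_PYR := pyr_proof all_cri
theorem all_uql : Stmt_UQL := uql_proof all_cri all_fac all_pyr (jn2_proof all_cri)
theorem all_upl : Stmt_UPL := upl_proof all_uql all_aff
theorem all_t3l : Stmt_T3L := t3l_proof all_coa all_fa3 all_uql all_upl nlm_proof cvu_proof
theorem all_tfl : Stmt_TFL := tfl_proof' all_coa all_pyr all_fac all_t3l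
theorem all_tfs : Stmt_TFS := tfs_proof all_coa all_pyr all_cri
theorem all_f31 : Stmt_F31 := f31_proof all_cut all_exc all_afe
theorem all_f32 : Stmt_F32 := f32_proof all_cut all_afe
theorem all_ind : Stmt_IND := ind_proof all_f31 (f3d_proof all_exc) all_f32 (gsh_proof all_afe)
  (g00_proof' all_exc) (g11_proof all_cut all_afe) (g22_proof all_coa all_afe all_aff all_fa3)
  all_tfl all_tfs
theorem all_rl3 : Stmt_RL3 := rl3_proof all_ind all_f31 all_f32 d2l_proof
theorem all_fin : Stmt_FIN := fin_proof all_rl3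

end LHR
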