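import Pool.Agent.LHR.Stmts

/-!
CRI: criterion for a unimodular simplex.
-/

namespace LHR

open Pool.Agent.LHT

theorem cri_proof : Stmt_CRI := by
  classical
  intro Λ _ hSep C hS hP
  have hch : ∀ p : Λ, ∃ (ψ : Λ →+ ℤ) (c : ℤ), p ∈ C →
      (ψ p + c = 1 ∧ ∀ q ∈ C, q ≠ p → ψ q + c = 0) := by
    intro p
    by_cases hp : p ∈ C
    · obtain ⟨ψ, c, h⟩ := hP p hp
      exact ⟨ψ, c, fun _ => h⟩
    · exact ⟨0, 0, fun h => absurd h hp⟩
  choose ψ c h using hch
  have h1 : ∀ p ∈ C, ∀ q ∈ C, ψ p q + c p = if p = q then 1 else 0 := by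
    intro p hp q hq
    by_cases hpq : p = q
    · rw [if_pos hpq, ← hpq]
      exact (h p hp).1
    · rw [if_neg hpq]
      exact (h p hp).2 q hq (fun h' => hpq h'.symm)
  refine ⟨ψ, c, h1, ?_, ?_⟩
  · let Φ : Λ →+ ℝ :=
      { toFun := fun v => ∑ p ∈ C, ((ψ p v : ℤ) : ℝ)
        map_zero' := by simp
        map_add' := by
          intro x y
          simp [Finset.sum_add_distrib] }
    have hΦ : ∀ v, Φ v = ∑ p ∈ C, ((ψ p v : ℤ) : ℝ) := fun v => rfl
    have hz := hS Φ (∑ p ∈ C, (c p : ℝ) - 1) (by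
      intro v hv
      rw [hΦ, ← add_sub_assoc, ← Finset.sum_add_distrib]
      have h2 : ∑ p ∈ C, (((ψ p v : ℤ) : ℝ) + (c p : ℝ)) = ∑ p ∈ C, if p = v then (1 : ℝ) else 0 := by
        refine Finset.sum_congr rfl fun p hp => ?_
        have h3 := h1 p hp v hv
        by_cases hpv : p = v
        · rw [if_pos hpv] at h3 ⊢
          exact_mod_cast h3
        · rw [if_neg hpv] at h3 ⊢
          exact_mod_cast h3
      rw [h2, Finset.sum_ite_eq' C v, if_pos hv, sub_self])
    intro v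
    have h4 : Φ v = 0 := by rw [hz.1]; rfl
    rw [hΦ] at h4
    have h5 : ∑ p ∈ C, (((ψ p v : ℤ) : ℝ) + (c p : ℝ)) = 1 := by
      rw [Finset.sum_add_distrib, h4]
      linarith [hz.2]
    exact_mod_cast h5
  · intro v
    rw [← sub_eq_zero]
    apply hSep
    intro φ
    let Φ : Λ →+ ℝ :=
      { toFun := fun v => ∑ p ∈ C, ((ψ p v : ℤ) : ℝ) * φ p - φ v
        map_zero' := by simp
        map_add' := by
          intro x y
          simp only [map_add, Int.cast_add, add_mul, Finset.sum_add_distrib]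
          ring }
    have hΦ : ∀ v, Φ v = ∑ p ∈ C, ((ψ p v : ℤ) : ℝ) * φ p - φ v := fun v => rfl
    have hz := hS Φ (∑ p ∈ C, (c p : ℝ) * φ p) (by
      intro v hv
      rw [hΦ]
      have h2 : ∑ p ∈ C, (((ψ p v : ℤ) : ℝ) + (c p : ℝ)) * φ p =
          ∑ p ∈ C, if p = v then φ p else 0 := by
        refine Finset.sum_congr rfl fun p hp => ?_
        have h3 := h1 p hp v hv
        by_cases hpv : p = v
        · rw [if_pos hpv] at h3 ⊢
          have h3' : ((ψ p v : ℤ) : ℝ) + (c p : ℝ) = 1 := by exact_mod_cast h3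
          rw [h3', one_mul]
        · rw [if_neg hpv] at h3 ⊢
          have h3' : ((ψ p v : ℤ) : ℝ) + (c p : ℝ) = 0 := by exact_mod_cast h3
          rw [h3', zero_mul]
      rw [Finset.sum_ite_eq' C v, if_pos hv] at h2
      simp only [add_mul, Finset.sum_add_distrib] at h2
      linarith)
    have h4 : Φ v = 0 := by rw [hz.1]; rfl
    rw [hΦ] at h4
    have h5 : φ (∑ p ∈ C, (ψ p v + c p) • p) = ∑ p ∈ C, (((ψ p v : ℤ) : ℝ) + (c p : ℝ)) * φ p := by
      rw [map_sum]
      refine Finset.sum_congr rfl fun p _ => ?_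
      rw [map_zsmul, zsmul_eq_mul]
      push_cast
      rfl
    rw [map_sub, h5]
    simp only [add_mul, Finset.sum_add_distrib]
    linarith [hz.2]

end LHR
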