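import Pool.Agent.LHT.Final

/-!
Regular unimodular triangulations with prescribed heights on a face (squad LHR, MP_74b890_co).
Definitions and basic facts.
-/

namespace LHR

open Pool.Agent.LHT

/-- the lattice `ℤ³`, points `((x, y), z)` -/
abbrev V3 := (ℤ × ℤ) × ℤ

/-- the homomorphisms to the reals separate points -/
def Sep (Λ : Type) [AddCommGroup Λ] : Prop := ∀ v : Λ, (∀ φ : Λ →+ ℝ, φ v = 0) → v = 0

/-- every point of `C` has an integral affine function which is `1` there and `0` at the other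
points of `C` (for `ℤ^d`: `C` is part of a unimodular simplex) -/
def PU {Λ : Type} [AddCommGroup Λ] (C : Finset Λ) : Prop :=
  ∀ p ∈ C, ∃ (ψ : Λ →+ ℤ) (c : ℤ), ψ p + c = 1 ∧ ∀ q ∈ C, q ≠ p → ψ q + c = 0

/-- every affine function which vanishes on `C` vanishes on `A` -/
def RSp {Λ : Type} [AddCommGroup Λ] (C A : Finset Λ) : Prop :=
  ∀ (χ : Λ →+ ℝ) (d : ℝ), (∀ v ∈ C, χ v + d = 0) → ∀ v ∈ A, χ v + d = 0

/-- the heights `ω` give a regular unimodular triangulation of `A`, in the affine lattice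
spanned by `A` (`A` may be of smaller dimension) -/
def RF {Λ : Type} [AddCommGroup Λ] (A : Finset Λ) (ω : Λ → ℝ) : Prop :=
  ∀ (φ : Λ →+ ℝ) (b : ℝ), (∀ v ∈ A, φ v + b ≤ ω v) → RSp (contact A ω φ b) A →
    PU (contact A ω φ b)

/-- all heights of regular unimodular triangulations of `A` extend to `S` -/
def Ext {Λ : Type} [AddCommGroup Λ] (S A : Finset Λ) : Prop :=
  ∀ ω : Λ → ℝ, RF A ω → ∃ ω' : Λ → ℝ, RLw S ω' ∧ ∀ v ∈ A, ω' v = ω v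

/-- `Ext` for sets given by predicates -/
def ExtP (p q : V3 → Prop) : Prop :=
  ∀ S A : Finset V3, (∀ v, v ∈ S ↔ p v) → (∀ v, v ∈ A ↔ q v) → Ext S A

/-- the simplex `0 ≤ x/a ≤ y/b ≤ z/c ≤ 1` -/
def PP (a b c : ℤ) : V3 → Prop := fun v =>
  0 ≤ v.1.1 ∧ b * v.1.1 ≤ a * v.1.2 ∧ c * v.1.2 ≤ b * v.2 ∧ v.2 ≤ c

/-- its facet `y/b = z/c` -/
def PF (a b c : ℤ) : V3 → Prop := fun v =>
  0 ≤ v.1.1 ∧ b * v.1.1 ≤ a * v.1.2 ∧ c * v.1.2 = b * v.2 ∧ v.2 ≤ c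

/-- the simplex with vertices `0`, `(0,β,0)`, `(0,0,β)`, `(h,β-p,p)` -/
def GP (h β p : ℤ) : V3 → Prop := fun v =>
  0 ≤ v.1.1 ∧ v.1.2 + v.2 ≤ β ∧ p * v.1.1 ≤ h * v.2 ∧ (β - p) * v.1.1 ≤ h * v.1.2

/-- its facet with vertices `0`, `(0,β,0)`, `(h,β-p,p)` -/
def GF (h β p : ℤ) : V3 → Prop := fun v =>
  0 ≤ v.1.1 ∧ v.1.2 + v.2 ≤ β ∧ p * v.1.1 = h * v.2 ∧ (β - p) * v.1.1 ≤ h * v.1.2

/-- every height on the facet extends -/
def F3 (a b c : ℤ) : Prop := ExtP (PP a b c) (PF a b c)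

/-- every height on the facet extends -/
def GG (h β p : ℤ) : Prop := ExtP (GP h β p) (GF h β p)

/-- `β` times the standard simplex, with heights prescribed on two facets -/
def TF (β : ℤ) : Prop := ∀ S F F' : Finset V3,
  (∀ v : V3, v ∈ S ↔ 0 ≤ v.1.1 ∧ 0 ≤ v.1.2 ∧ 0 ≤ v.2 ∧ v.1.1 + v.1.2 + v.2 ≤ β) →
  (∀ v, v ∈ F ↔ v ∈ S ∧ v.1.1 = 0) → (∀ v, v ∈ F' ↔ v ∈ S ∧ v.1.2 = 0) →
  ∀ ω : V3 → ℝ, RF F ω → RF F' ω → ∃ ω' : V3 → ℝ, RLw S ω' ∧ (∀ v ∈ F, ω' v = ω v) ∧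
    ∀ v ∈ F', ω' v = ω v

section
variable {Λ : Type} [AddCommGroup Λ]

theorem PU.mono {C D : Finset Λ} (h : PU D) (hCD : C ⊆ D) : PU C := by
  intro p hp
  obtain ⟨ψ, c, h1, h2⟩ := h p (hCD hp)
  exact ⟨ψ, c, h1, fun q hq => h2 q (hCD hq)⟩

theorem PU_of_Uni {C : Finset Λ} (h : Uni C) : PU C := by
  classical
  obtain ⟨ψ, c, h1, -, -⟩ := h
  intro p hp
  refine ⟨ψ p, c p, ?_, ?_⟩
  · rw [h1 p hp p hp, if_pos rfl]
  · intro q hq hqp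
    rw [h1 p hp q hq, if_neg (Ne.symm hqp)]

theorem contact_subset {S : Finset Λ} {ω : Λ → ℝ} {φ : Λ →+ ℝ} {b : ℝ} :
    contact S ω φ b ⊆ S := fun _ hv => (mem_contact.mp hv).1

theorem RSp_of_Spans {C : Finset Λ} (h : Spans C) (A : Finset Λ) : RSp C A := by
  intro χ d hχ v _
  obtain ⟨h1, h2⟩ := h χ d hχ
  rw [h1, h2]
  simp

theorem Spans_of_RSp {C A : Finset Λ} (h : RSp C A) (hA : Spans A) : Spans C :=
  fun χ d hχ => hA χ d (h χ d hχ)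

/-- a unimodular triangulation of a spanning set, in the relative form -/
theorem RF_of_RLw {S : Finset Λ} {ω : Λ → ℝ} (h : RLw S ω) (hS : Spans S) : RF S ω := by
  intro φ b hle hs
  exact PU_of_Uni (h φ b hle (Spans_of_RSp hs hS))

/-- nothing to prove for sets of smaller dimension -/
theorem RLw_of_not_Spans {S : Finset Λ} {ω : Λ → ℝ} (h : ¬ Spans S) : RLw S ω := by
  intro φ b _ hs
  exact absurd (hs.mono contact_subset) h

/-- `RF` depends only on the values on `A` -/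
theorem RF.congr {A : Finset Λ} {ω ω' : Λ → ℝ} (h : RF A ω) (he : ∀ v ∈ A, ω v = ω' v) :
    RF A ω' := by
  intro φ b hle hs
  have hc : contact A ω' φ b = contact A ω φ b := by
    ext v
    rw [mem_contact, mem_contact]
    constructor
    · rintro ⟨h1, h2⟩
      exact ⟨h1, by rw [h2, he v h1]⟩
    · rintro ⟨h1, h2⟩
      exact ⟨h1, by rw [h2, he v h1]⟩
  rw [hc] at hs ⊢
  refine h φ b ?_ hs
  intro v hv
  rw [he v hv]
  exact hle v hv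

/-- nothing to prescribe -/
theorem RF_empty (ω : Λ → ℝ) : RF (∅ : Finset Λ) ω := by
  intro φ b _ _ p hp
  exact absurd (contact_subset hp) (Finset.notMem_empty p)

theorem RL_of_Ext_empty {S : Finset Λ} (h : Ext S ∅) : RL S := by
  obtain ⟨ω', h1, -⟩ := h (fun _ => 0) (RF_empty _)
  exact ⟨ω', h1⟩

theorem Ext_empty_of_RL {S : Finset Λ} (h : RL S) : Ext S ∅ := by
  obtain ⟨ω, h1⟩ := h
  intro _ _
  exact ⟨ω, h1, fun v hv => absurd hv (Finset.notMem_empty v)⟩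

/-- a homomorphism to the reals as a real combination: integral affine functions as real ones -/
def toR (ψ : Λ →+ ℤ) : Λ →+ ℝ := (Int.castAddHom ℝ).comp ψ

theorem toR_apply (ψ : Λ →+ ℤ) (v : Λ) : toR ψ v = ((ψ v : ℤ) : ℝ) := rfl

end

/-- the coordinates -/
def cx : V3 →+ ℤ := (AddMonoidHom.fst ℤ ℤ).comp (AddMonoidHom.fst (ℤ × ℤ) ℤ)
def cy : V3 →+ ℤ := (AddMonoidHom.snd ℤ ℤ).comp (AddMonoidHom.fst (ℤ × ℤ) ℤ)
def cz : V3 →+ ℤ := AddMonoidHom.snd (ℤ × ℤ) ℤ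

theorem cx_apply (v : V3) : cx v = v.1.1 := rfl
theorem cy_apply (v : V3) : cy v = v.1.2 := rfl
theorem cz_apply (v : V3) : cz v = v.2 := rfl

/-- the integral linear function `α x + β y + γ z` -/
def lin (α β γ : ℤ) : V3 →+ ℤ := α • cx + β • cy + γ • cz

theorem lin_apply (α β γ : ℤ) (v : V3) : lin α β γ v = α * v.1.1 + β * v.1.2 + γ * v.2 := by
  show α • v.1.1 + β • v.1.2 + γ • v.2 = _
  simp only [smul_eq_mul]

/-- every homomorphism is given by three numbers -/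
theorem hom3 (φ : V3 →+ ℝ) (v : V3) :
    φ v = v.1.1 * φ ((1, 0), 0) + v.1.2 * φ ((0, 1), 0) + v.2 * φ ((0, 0), 1) := by
  have h : v = v.1.1 • (((1, 0), 0) : V3) + v.1.2 • (((0, 1), 0) : V3)
      + v.2 • (((0, 0), 1) : V3) := by
    ext <;> simp
  nth_rewrite 1 [h]
  rw [map_add, map_add, map_zsmul, map_zsmul, map_zsmul]
  simp only [zsmul_eq_mul]

theorem hom2 (φ : ℤ × ℤ →+ ℝ) (v : ℤ × ℤ) : φ v = v.1 * φ (1, 0) + v.2 * φ (0, 1) := by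
  have h : v = v.1 • ((1, 0) : ℤ × ℤ) + v.2 • ((0, 1) : ℤ × ℤ) := by
    ext <;> simp
  nth_rewrite 1 [h]
  rw [map_add, map_zsmul, map_zsmul]
  simp only [zsmul_eq_mul]

theorem sep_V3 : Sep V3 := by
  intro v hv
  have h1 := hv (toR cx)
  have h2 := hv (toR cy)
  have h3 := hv (toR cz)
  rw [toR_apply, cx_apply] at h1
  rw [toR_apply, cy_apply] at h2
  rw [toR_apply, cz_apply] at h3
  have h1' : v.1.1 = 0 := by exact_mod_cast h1
  have h2' : v.1.2 = 0 := by exact_mod_cast h2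
  have h3' : v.2 = 0 := by exact_mod_cast h3
  exact Prod.ext (Prod.ext h1' h2') h3'

theorem sep_V2 : Sep (ℤ × ℤ) := by
  intro v hv
  have h1 := hv (toR (AddMonoidHom.fst ℤ ℤ))
  have h2 := hv (toR (AddMonoidHom.snd ℤ ℤ))
  have h1' : v.1 = 0 := by
    have : ((v.1 : ℤ) : ℝ) = 0 := h1
    exact_mod_cast this
  have h2' : v.2 = 0 := by
    have : ((v.2 : ℤ) : ℝ) = 0 := h2
    exact_mod_cast this
  exact Prod.ext h1' h2'

/-- four affinely independent lattice points span -/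
theorem spans_of_four {S : Finset V3} (u v w t : V3) (hu : u ∈ S) (hv : v ∈ S) (hw : w ∈ S)
    (ht : t ∈ S)
    (hdet : (v.1.1 - u.1.1) * ((w.1.2 - u.1.2) * (t.2 - u.2) - (w.2 - u.2) * (t.1.2 - u.1.2))
      - (v.1.2 - u.1.2) * ((w.1.1 - u.1.1) * (t.2 - u.2) - (w.2 - u.2) * (t.1.1 - u.1.1))
      + (v.2 - u.2) * ((w.1.1 - u.1.1) * (t.1.2 - u.1.2) - (w.1.2 - u.1.2) * (t.1.1 - u.1.1))
      ≠ 0) : Spans S := by
  intro φ d hφ
  set α := φ ((1, 0), 0) with hα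
  set β := φ ((0, 1), 0) with hβ
  set γ := φ ((0, 0), 1) with hγ
  have e1 := hφ u hu
  have e2 := hφ v hv
  have e3 := hφ w hw
  have e4 := hφ t ht
  rw [hom3, ← hα, ← hβ, ← hγ] at e1 e2 e3 e4
  have hdet' : (((v.1.1 - u.1.1) * ((w.1.2 - u.1.2) * (t.2 - u.2) - (w.2 - u.2) * (t.1.2 - u.1.2))
      - (v.1.2 - u.1.2) * ((w.1.1 - u.1.1) * (t.2 - u.2) - (w.2 - u.2) * (t.1.1 - u.1.1))
      + (v.2 - u.2) * ((w.1.1 - u.1.1) * (t.1.2 - u.1.2) - (w.1.2 - u.1.2) * (t.1.1 - u.1.1)) : ℤ)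
      : ℝ) ≠ 0 := by exact_mod_cast hdet
  push_cast at hdet'
  set D := (((v.1.1 : ℝ) - u.1.1) * ((w.1.2 - u.1.2) * (t.2 - u.2) - (w.2 - u.2) * (t.1.2 - u.1.2))
      - (v.1.2 - u.1.2) * ((w.1.1 - u.1.1) * (t.2 - u.2) - (w.2 - u.2) * (t.1.1 - u.1.1))
      + (v.2 - u.2) * ((w.1.1 - u.1.1) * (t.1.2 - u.1.2) - (w.1.2 - u.1.2) * (t.1.1 - u.1.1)))
    with hD
  have f2 : ((v.1.1 : ℝ) - u.1.1) * α + (v.1.2 - u.1.2) * β + (v.2 - u.2) * γ = 0 := by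
    linarith
  have f3 : ((w.1.1 : ℝ) - u.1.1) * α + (w.1.2 - u.1.2) * β + (w.2 - u.2) * γ = 0 := by
    linarith
  have f4 : ((t.1.1 : ℝ) - u.1.1) * α + (t.1.2 - u.1.2) * β + (t.2 - u.2) * γ = 0 := by
    linarith
  have gα : D * α = 0 := by
    rw [hD]
    linear_combination ((w.1.2 - u.1.2) * (t.2 - u.2) - (w.2 - u.2) * (t.1.2 - u.1.2) : ℝ) * f2
      - ((v.1.2 - u.1.2) * (t.2 - u.2) - (v.2 - u.2) * (t.1.2 - u.1.2) : ℝ) * f3
      + ((v.1.2 - u.1.2) * (w.2 - u.2) - (v.2 - u.2) * (w.1.2 - u.1.2) : ℝ) * f4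
  have gβ : D * β = 0 := by
    rw [hD]
    linear_combination (-((w.1.1 - u.1.1) * (t.2 - u.2) - (w.2 - u.2) * (t.1.1 - u.1.1)) : ℝ) * f2
      + ((v.1.1 - u.1.1) * (t.2 - u.2) - (v.2 - u.2) * (t.1.1 - u.1.1) : ℝ) * f3
      - ((v.1.1 - u.1.1) * (w.2 - u.2) - (v.2 - u.2) * (w.1.1 - u.1.1) : ℝ) * f4
  have gγ : D * γ = 0 := by
    rw [hD]
    linear_combination ((w.1.1 - u.1.1) * (t.1.2 - u.1.2) - (w.1.2 - u.1.2) * (t.1.1 - u.1.1) : ℝ)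
        * f2
      - ((v.1.1 - u.1.1) * (t.1.2 - u.1.2) - (v.1.2 - u.1.2) * (t.1.1 - u.1.1) : ℝ) * f3
      + ((v.1.1 - u.1.1) * (w.1.2 - u.1.2) - (v.1.2 - u.1.2) * (w.1.1 - u.1.1) : ℝ) * f4
  have hα0 : α = 0 := (mul_eq_zero.mp gα).resolve_left hdet'
  have hβ0 : β = 0 := (mul_eq_zero.mp gβ).resolve_left hdet'
  have hγ0 : γ = 0 := (mul_eq_zero.mp gγ).resolve_left hdet'
  have hφ0 : φ = 0 := by
    ext1 x
    rw [hom3, ← hα, ← hβ, ← hγ, hα0, hβ0, hγ0]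
    simp
  refine ⟨hφ0, ?_⟩
  rw [hα0, hβ0, hγ0] at e1
  linarith

/-- cover by a simplex: if the sums over `C` of the (scaled) barycentric functions of the simplex
with the vertices `V j` are nonnegative, then the centre of `C` lies in the simplex -/
theorem cover_simplex {Λ : Type} [AddCommGroup Λ] {m : ℕ} (T C : Finset Λ) (V : Fin m → Λ)
    (g : Fin m → Λ →+ ℤ) (c D : Fin m → ℤ) (hV : ∀ j, V j ∈ T) (hD : ∀ j, 0 < D j)
    (hid : ∀ (ψ : Λ →+ ℝ) (d : ℝ) (v : Λ),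
      ψ v + d = ∑ j, ((g j v + c j : ℤ) : ℝ) / (D j : ℝ) * (ψ (V j) + d))
    (hC : ∀ j, 0 ≤ ∑ v ∈ C, (g j v + c j)) :
    ∀ (ψ : Λ →+ ℝ) (d : ℝ), (∀ v ∈ T, ψ v + d ≤ 0) → ∑ v ∈ C, (ψ v + d) ≤ 0 := by
  intro ψ d hψ
  rw [Finset.sum_congr rfl (fun v _ => hid ψ d v), Finset.sum_comm]
  apply Finset.sum_nonpos
  intro j _
  have h1 : ∑ v ∈ C, ((g j v + c j : ℤ) : ℝ) / (D j : ℝ) * (ψ (V j) + d)
      = ((∑ v ∈ C, (g j v + c j) : ℤ) : ℝ) / (D j : ℝ) * (ψ (V j) + d) := by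
    push_cast
    rw [Finset.sum_div, Finset.sum_mul]
  rw [h1]
  apply mul_nonpos_of_nonneg_of_nonpos
  · apply div_nonneg
    · exact_mod_cast hC j
    · exact_mod_cast (hD j).le
  · exact hψ _ (hV j)

end LHR
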