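import Pool.Agent.LHR.Stmts

/-!
Module F3D of squad LHR: the case b = c.
-/

namespace LHR

open Pool.Agent.LHT

namespace F3D_

theorem spans_B {a b : ℤ} (ha : 1 ≤ a) (hb : 1 ≤ b) (B : Finset (ℤ × ℤ))
    (hB : ∀ w, w ∈ B ↔ 0 ≤ w.1 ∧ b * w.1 ≤ a * w.2 ∧ w.2 ≤ b) : Spans B := by
  intro φ d hφ
  have e1 := hφ (0, 0) ((hB _).2 ⟨le_refl _, by simp, by simpa using (by omega : (0 : ℤ) ≤ b)⟩)
  have e2 := hφ (0, b) ((hB _).2 ⟨le_refl _, by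
    show b * 0 ≤ a * b
    nlinarith, le_refl _⟩)
  have e3 := hφ (a, b) ((hB _).2 ⟨by
    show 0 ≤ a
    omega, by
    show b * a ≤ a * b
    rw [mul_comm], le_refl _⟩)
  rw [hom2] at e1 e2 e3
  simp only at e1 e2 e3
  push_cast at e1 e2 e3
  have hd : d = 0 := by linarith
  have hb' : (b : ℝ) ≠ 0 := by
    have : b ≠ 0 := by omega
    exact_mod_cast this
  have ha' : (a : ℝ) ≠ 0 := by
    have : a ≠ 0 := by omega
    exact_mod_cast this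
  have h2 : φ (0, 1) = 0 := by
    have : (b : ℝ) * φ (0, 1) = 0 := by linarith
    exact (mul_eq_zero.mp this).resolve_left hb'
  have h1 : φ (1, 0) = 0 := by
    rw [h2, hd] at e3
    have : (a : ℝ) * φ (1, 0) = 0 := by linarith
    exact (mul_eq_zero.mp this).resolve_left ha'
  refine ⟨?_, hd⟩
  ext1 v
  rw [hom2, h1, h2]
  simp

end F3D_

theorem f3d_proof (hEXC : Stmt_EXC) : Stmt_F3D := by
  intro a b ha hb S A hS hA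
  have hB : ∀ w : ℤ × ℤ, w ∈ S.image Prod.fst ↔ 0 ≤ w.1 ∧ b * w.1 ≤ a * w.2 ∧ w.2 ≤ b := by
    intro w
    rw [Finset.mem_image]
    constructor
    · rintro ⟨v, hv, rfl⟩
      rw [hS] at hv
      obtain ⟨h1, h2, h3, h4⟩ := hv
      exact ⟨h1, h2, (le_of_mul_le_mul_left h3 (by omega)).trans h4⟩
    · rintro ⟨h1, h2, h3⟩
      refine ⟨(w, b), ?_, rfl⟩
      rw [hS]
      refine ⟨h1, h2, ?_, le_refl _⟩
      show b * w.2 ≤ b * b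
      exact mul_le_mul_of_nonneg_left h3 (by omega)
  refine hEXC (ℤ × ℤ) sep_V2 (S.image Prod.fst) S A (AddMonoidHom.snd ℤ ℤ) 0 0 b
    (F3D_.spans_B ha hb _ hB) ?_ ?_ ?_
  · intro y hy
    rw [hB] at hy
    show y.2 + 0 ≤ 0 + b
    linarith [hy.2.2]
  · intro v
    rw [hS, hB]
    show (0 ≤ v.1.1 ∧ b * v.1.1 ≤ a * v.1.2 ∧ b * v.1.2 ≤ b * v.2 ∧ v.2 ≤ b) ↔
      (0 ≤ v.1.1 ∧ b * v.1.1 ≤ a * v.1.2 ∧ v.1.2 ≤ b) ∧ v.1.2 + 0 ≤ v.2 ∧ v.2 ≤ 0 + b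
    constructor
    · rintro ⟨h1, h2, h3, h4⟩
      have h5 := le_of_mul_le_mul_left h3 (by omega)
      exact ⟨⟨h1, h2, h5.trans h4⟩, by linarith, by linarith⟩
    · rintro ⟨⟨h1, h2, h3⟩, h4, h5⟩
      exact ⟨h1, h2, mul_le_mul_of_nonneg_left (by linarith) (by omega), by linarith⟩
  · intro v
    rw [hA, hB]
    show (0 ≤ v.1.1 ∧ b * v.1.1 ≤ a * v.1.2 ∧ b * v.1.2 = b * v.2 ∧ v.2 ≤ b) ↔
      (0 ≤ v.1.1 ∧ b * v.1.1 ≤ a * v.1.2 ∧ v.1.2 ≤ b) ∧ v.2 = v.1.2 + 0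
    constructor
    · rintro ⟨h1, h2, h3, h4⟩
      have h5 : v.1.2 = v.2 := mul_left_cancel₀ (by omega : b ≠ 0) h3
      exact ⟨⟨h1, h2, by linarith⟩, by linarith⟩
    · rintro ⟨⟨h1, h2, h3⟩, h4⟩
      exact ⟨h1, h2, by rw [h4, add_zero], by linarith⟩

end LHR
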