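import Pool.Agent.LHR.Defs

/-!
Statements of the modules of squad LHR (MP_74b890_co, lecture hall simplices of dimension 3).
Paper proofs: /team-store/MP_74b890_LHR.md
-/

namespace LHR

open Pool.Agent.LHT

/-- criterion for a unimodular simplex -/
def Stmt_CRI : Prop := ∀ (Λ : Type) [AddCommGroup Λ], Sep Λ → ∀ C : Finset Λ,
  Spans C → PU C → Uni C

/-- restriction of the heights to a face -/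
def Stmt_FAC : Prop := ∀ (Λ : Type) [AddCommGroup Λ] (A A' : Finset Λ) (l : Λ →+ ℤ) (c : ℤ)
  (ω : Λ → ℝ), (∀ v ∈ A, 0 ≤ l v + c) → (∀ v, v ∈ A' ↔ v ∈ A ∧ l v + c = 0) →
  (∃ v ∈ A, 0 < l v + c) →
  (∀ (χ : Λ →+ ℝ) (d : ℝ), (∀ v ∈ A', χ v + d = 0) →
    ∃ r : ℝ, ∀ v ∈ A, χ v + d = r * ((l v + c : ℤ) : ℝ)) →
  RF A ω → RF A' ω

/-- restriction to a facet, three dimensions: `u, v, w` on the facet, `t` not -/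
def Stmt_FA3 : Prop := ∀ (S A : Finset V3) (l : V3 →+ ℤ) (c : ℤ) (ω : V3 → ℝ) (u v w t : V3),
  (∀ x ∈ S, 0 ≤ l x + c) → (∀ x, x ∈ A ↔ x ∈ S ∧ l x + c = 0) →
  u ∈ A → v ∈ A → w ∈ A → t ∈ S →
  (v.1.1 - u.1.1) * ((w.1.2 - u.1.2) * (t.2 - u.2) - (w.2 - u.2) * (t.1.2 - u.1.2))
      - (v.1.2 - u.1.2) * ((w.1.1 - u.1.1) * (t.2 - u.2) - (w.2 - u.2) * (t.1.1 - u.1.1))
      + (v.2 - u.2) * ((w.1.1 - u.1.1) * (t.1.2 - u.1.2) - (w.1.2 - u.1.2) * (t.1.1 - u.1.1))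
      ≠ 0 →
  RLw S ω → RF A ω

/-- a subdivision given by a convex piecewise affine function, refined on its cells -/
def Stmt_COA : Prop := ∀ (Λ : Type) [AddCommGroup Λ] (n : ℕ) (S : Finset Λ)
  (T : Fin n → Finset Λ) (φ : Fin n → Λ →+ ℝ) (b : Fin n → ℝ) (ω₀ ω₁ : Λ → ℝ),
  (∀ i, ∀ v ∈ S, φ i v + b i ≤ ω₀ v) → (∀ i v, v ∈ T i ↔ v ∈ S ∧ φ i v + b i = ω₀ v) →
  (∀ C ⊆ S, C.Nonempty → ∃ i, ∀ (ψ : Λ →+ ℝ) (d : ℝ), (∀ v ∈ T i, ψ v + d ≤ 0) →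
    ∑ v ∈ C, (ψ v + d) ≤ 0) →
  (∀ i, RLw (T i) ω₁) → ∃ M₀ : ℝ, ∀ M : ℝ, M₀ ≤ M → RLw S (fun v => M * ω₀ v + ω₁ v)

/-- cutting along a hyperplane whose section is a lattice triangle (with the vertices `V j` and
barycentric functions `g j + e j`) -/
def Stmt_CUT : Prop := ∀ (Λ : Type) [AddCommGroup Λ] (S A S₁ S₂ W : Finset Λ) (f : Λ →+ ℤ) (c : ℤ)
  (V : Fin 3 → Λ) (g : Fin 3 → Λ →+ ℤ) (e D : Fin 3 → ℤ),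
  (∀ v, v ∈ S₁ ↔ v ∈ S ∧ f v + c ≤ 0) → (∀ v, v ∈ S₂ ↔ v ∈ S ∧ 0 ≤ f v + c) →
  (∀ v, v ∈ W ↔ v ∈ S ∧ f v + c = 0) →
  (∀ j, V j ∈ W) → (∀ j, ∀ v ∈ S, 0 ≤ g j v + e j) → (∀ j, 0 < D j) →
  (∀ (ψ : Λ →+ ℝ) (d : ℝ), ∃ r : ℝ, ∀ v, ψ v + d =
    ∑ j, ((g j v + e j : ℤ) : ℝ) / (D j : ℝ) * (ψ (V j) + d) + r * ((f v + c : ℤ) : ℝ)) →
  A ⊆ S₁ → (∃ v ∈ S, f v + c < 0) → Ext S₁ A → Ext S₂ W → Ext S A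

/-- heights on a graph are heights on the base -/
def Stmt_GRF : Prop := ∀ (Y : Type) [AddCommGroup Y], Sep Y → ∀ (B : Finset Y)
  (A : Finset (Y × ℤ)) (lo : Y →+ ℤ) (l0 : ℤ) (ω : Y × ℤ → ℝ), Spans B →
  (∀ v, v ∈ A ↔ v.1 ∈ B ∧ v.2 = lo v.1 + l0) → RF A ω → RLw B (fun y => ω (y, lo y + l0))

/-- chimney: all heights on the floor extend -/
def Stmt_EXC : Prop := ∀ (Y : Type) [AddCommGroup Y], Sep Y → ∀ (B : Finset Y)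
  (S A : Finset (Y × ℤ)) (lo hi : Y →+ ℤ) (l0 h0 : ℤ), Spans B →
  (∀ y ∈ B, lo y + l0 ≤ hi y + h0) →
  (∀ v, v ∈ S ↔ v.1 ∈ B ∧ lo v.1 + l0 ≤ v.2 ∧ v.2 ≤ hi v.1 + h0) →
  (∀ v, v ∈ A ↔ v.1 ∈ B ∧ v.2 = lo v.1 + l0) → Ext S A

/-- affine invariance of `RF` and `RLw` -/
def Stmt_AFF : Prop := ∀ (Λ Λ' : Type) [AddCommGroup Λ] [AddCommGroup Λ'] (e : Λ ≃+ Λ') (v0 : Λ')
  (A : Finset Λ) (A' : Finset Λ') (ω : Λ' → ℝ), (∀ v, e v + v0 ∈ A' ↔ v ∈ A) →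
  (RF A' ω ↔ RF A (fun v => ω (e v + v0))) ∧ (RLw A' ω ↔ RLw A (fun v => ω (e v + v0)))

/-- affine invariance of `ExtP` -/
def Stmt_AFE : Prop := ∀ (e : V3 ≃+ V3) (v0 : V3) (p q p' q' : V3 → Prop),
  (∀ v, p' (e v + v0) ↔ p v) → (∀ v, q' (e v + v0) ↔ q v) → ExtP p q → ExtP p' q'

/-- pyramid of height one -/
def Stmt_PYR : Prop := ∀ (Λ : Type) [AddCommGroup Λ], Sep Λ → ∀ (S A : Finset Λ) (X : Λ)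
  (l : Λ →+ ℤ) (c : ℤ) (ω : Λ → ℝ), (∀ v ∈ A, l v + c = 0) → l X + c = 1 →
  (∀ v, v ∈ S ↔ v ∈ A ∨ v = X) → RF A ω → RLw S ω

/-- join of a segment with two points -/
def Stmt_JN2 : Prop := ∀ (m r : ℤ) (E C : Finset V3) (ωE ω : V3 → ℝ), 1 ≤ m →
  (∀ v, v ∈ E ↔ v.1.1 = 0 ∧ v.2 = 0 ∧ 0 ≤ v.1.2 ∧ v.1.2 ≤ m) →
  (∀ v, v ∈ C ↔ v ∈ E ∨ v = ((1, 1), r) ∨ v = ((1, 1), r + 1)) →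
  RF E ωE → (∀ v ∈ E, ω v = ωE v) → RLw C ω

/-- the part of `T3` over `p ≤ 1`, `p ≤ q` (points are `((p, q), r)`) -/
def Stmt_UQL : Prop := ∀ (h : ℤ) (U N1 E : Finset V3) (ωN ωE : V3 → ℝ), 1 ≤ h →
  (∀ v, v ∈ N1 ↔ v.1.1 = 1 ∧ 1 ≤ v.1.2 ∧ 0 ≤ v.2 ∧ v.1.2 + v.2 ≤ h + 1) →
  (∀ v, v ∈ E ↔ v.1.1 = 0 ∧ v.2 = 0 ∧ 0 ≤ v.1.2 ∧ v.1.2 ≤ h + 2) →
  (∀ v, v ∈ U ↔ v ∈ N1 ∨ v ∈ E) → RF N1 ωN →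
  (∀ v ∈ N1, ∀ w ∈ N1, v.2 = w.2 → v.1.2 < w.1.2 → ωN v < ωN w) → RF E ωE →
  ∃ K₀ : ℝ, ∀ K, K₀ ≤ K → ∀ ω : V3 → ℝ, (∀ v ∈ N1, ω v = K * ωN v) →
    (∀ v ∈ E, ω v = ωE v) → RLw U ω

/-- the mirror image of `UQL` -/
def Stmt_UPL : Prop := ∀ (h : ℤ) (U N1 E : Finset V3) (ωN ωE : V3 → ℝ), 1 ≤ h →
  (∀ v, v ∈ N1 ↔ v.1.2 = 1 ∧ 1 ≤ v.1.1 ∧ 0 ≤ v.2 ∧ v.1.1 + v.2 ≤ h + 1) →
  (∀ v, v ∈ E ↔ v.1.2 = 0 ∧ v.2 = 0 ∧ 0 ≤ v.1.1 ∧ v.1.1 ≤ h + 2) →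
  (∀ v, v ∈ U ↔ v ∈ N1 ∨ v ∈ E) → RF N1 ωN →
  (∀ v ∈ N1, ∀ w ∈ N1, v.2 = w.2 → v.1.1 < w.1.1 → ωN v < ωN w) → RF E ωE →
  ∃ K₀ : ℝ, ∀ K, K₀ ≤ K → ∀ ω : V3 → ℝ, (∀ v ∈ N1, ω v = K * ωN v) →
    (∀ v ∈ E, ω v = ωE v) → RLw U ω

/-- heights on the small simplex, increasing in the directions of `p` and `q` -/
def Stmt_NLM : Prop := ∀ (h : ℤ) (N : Finset V3), 1 ≤ h →
  (∀ v, v ∈ N ↔ 1 ≤ v.1.1 ∧ 1 ≤ v.1.2 ∧ 0 ≤ v.2 ∧ v.1.1 + v.1.2 + v.2 ≤ h + 2) →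
  ∃ ω : V3 → ℝ, RLw N ω ∧
    (∀ v ∈ N, ∀ w ∈ N, v.1.1 = w.1.1 → v.2 = w.2 → v.1.2 < w.1.2 → ω v < ω w) ∧
    (∀ v ∈ N, ∀ w ∈ N, v.1.2 = w.1.2 → v.2 = w.2 → v.1.1 < w.1.1 → ω v < ω w)

/-- cover lemma for the polytope of `UQL` -/
def Stmt_CVU : Prop := ∀ (h : ℤ) (U C : Finset V3), 1 ≤ h →
  ((0, 0), 0) ∈ U → ((0, h + 2), 0) ∈ U → ((1, 1), 0) ∈ U → ((1, h + 1), 0) ∈ U →
  ((1, 1), h) ∈ U →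
  0 ≤ ∑ v ∈ C, v.2 → ∑ v ∈ C, v.2 ≤ h * ∑ v ∈ C, v.1.1 → ∑ v ∈ C, v.1.1 ≤ (C.card : ℤ) →
  ∑ v ∈ C, v.1.1 ≤ ∑ v ∈ C, v.1.2 →
  ∑ v ∈ C, v.1.1 + ∑ v ∈ C, v.1.2 + ∑ v ∈ C, v.2 ≤ (h + 2) * (C.card : ℤ) →
  ∀ (ψ : V3 →+ ℝ) (d : ℝ), (∀ v ∈ U, ψ v + d ≤ 0) → ∑ v ∈ C, (ψ v + d) ≤ 0

/-- the simplex with vertices `0, (h+2,0,0), (0,h+2,0), (1,1,h)`, heights prescribed on two
edges -/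
def Stmt_T3L : Prop := ∀ (h : ℤ) (T Eq Ep : Finset V3) (ωE : V3 → ℝ), 1 ≤ h →
  (∀ v, v ∈ T ↔ 0 ≤ v.1.1 ∧ 0 ≤ v.1.2 ∧ 0 ≤ v.2 ∧ v.2 ≤ h * v.1.1 ∧ v.2 ≤ h * v.1.2 ∧
    v.1.1 + v.1.2 + v.2 ≤ h + 2) →
  (∀ v, v ∈ Eq ↔ v.1.1 = 0 ∧ v.2 = 0 ∧ 0 ≤ v.1.2 ∧ v.1.2 ≤ h + 2) →
  (∀ v, v ∈ Ep ↔ v.1.2 = 0 ∧ v.2 = 0 ∧ 0 ≤ v.1.1 ∧ v.1.1 ≤ h + 2) →
  RF Eq ωE → RF Ep ωE →
  ∃ ω : V3 → ℝ, RLw T ω ∧ (∀ v ∈ Eq, ω v = ωE v) ∧ ∀ v ∈ Ep, ω v = ωE v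

/-- two prescribed facets, large case -/
def Stmt_TFL : Prop := ∀ β : ℤ, 3 ≤ β → TF β

/-- two prescribed facets, small cases -/
def Stmt_TFS : Prop := TF 1 ∧ TF 2

/-- chimney over the last facet -/
def Stmt_F31 : Prop := ∀ (a b c : ℤ) (q : V3 → Prop), 1 ≤ a → 1 ≤ b → b < c →
  (∀ v, q v → PP a b (c - b) v) → ExtP (PP a b (c - b)) q →
  ExtP (PP a b c) (fun v => q (v.1, v.2 - v.1.2))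

/-- `b = c` -/
def Stmt_F3D : Prop := ∀ a b : ℤ, 1 ≤ a → 1 ≤ b → F3 a b b

/-- the cut for `c < b` -/
def Stmt_F32 : Prop := ∀ (a b c : ℤ) (q : V3 → Prop), 1 ≤ a → 1 ≤ c → c < b →
  (∀ v, q v → PP a (b - c) c v) → ExtP (PP a (b - c) c) q → GG a c (c - b) →
  ExtP (PP a b c) (fun v => q ((v.1.1, v.1.2 - v.2), v.2))

/-- periodicity -/
def Stmt_GSH : Prop := ∀ h β p k : ℤ, GG h β p → GG h β (p + k * h)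

/-- `p = 0` -/
def Stmt_G00 : Prop := ∀ h β : ℤ, 1 ≤ h → 1 ≤ β → GG h β 0

/-- `0 < p ≤ β` -/
def Stmt_G11 : Prop := ∀ h β p : ℤ, 1 ≤ h → 1 ≤ p → p ≤ β → F3 β p h →
  (p < β → F3 h (β - p) β) → GG h β p

/-- `β < p < h` -/
def Stmt_G22 : Prop := ∀ h β p : ℤ, 1 ≤ β → β < p → p < h → GG (h - p) β p →
  GG (p - β) β (β - h) → TF β → GG h β p

/-- the induction -/
def Stmt_IND : Prop := ∀ h β p : ℤ, 1 ≤ h → 1 ≤ β → GG h β p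

/-- dimension two -/
def Stmt_D2L : Prop := ∀ (a b : ℤ) (B : Finset (ℤ × ℤ)), 1 ≤ a → 1 ≤ b →
  (∀ v, v ∈ B ↔ 0 ≤ v.1 ∧ b * v.1 ≤ a * v.2 ∧ v.2 ≤ b) → RL B

/-- dimension three, coordinates in `V3` -/
def Stmt_RL3 : Prop := ∀ (a b c : ℤ) (S : Finset V3), 1 ≤ a → 1 ≤ b → 1 ≤ c →
  (∀ v, v ∈ S ↔ PP a b c v) → RL S

/-- lecture hall simplices of dimension three -/
def Stmt_FIN : Prop := ∀ s : Fin 3 → ℕ, (∀ i, 0 < s i) → RL (LH s)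

end LHR
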