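import Pool.Agent.LHR.Stmts

/-!
Squad LHR: `β` times the standard simplex with heights prescribed on two facets, `β ≥ 3`.
-/

namespace LHR

open Pool.Agent.LHT

namespace TFL_

theorem cover4 (T C : Finset V3) (V0 V1 V2 V4 : V3) (g0 g1 g2 g3 : V3 →+ ℤ) (c3 : ℤ)
    (D0 D1 D2 D3 : ℤ) (hV0 : V0 ∈ T) (hV1 : V1 ∈ T) (hV2 : V2 ∈ T) (hV4 : V4 ∈ T)
    (hD0 : 0 < D0) (hD1 : 0 < D1) (hD2 : 0 < D2) (hD3 : 0 < D3)
    (hid : ∀ (ψ : V3 →+ ℝ) (d : ℝ) (v : V3), ψ v + d =
      ((g0 v : ℤ) : ℝ) / D0 * (ψ V0 + d) + ((g1 v : ℤ) : ℝ) / D1 * (ψ V1 + d) +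
      ((g2 v : ℤ) : ℝ) / D2 * (ψ V2 + d) + ((g3 v + c3 : ℤ) : ℝ) / D3 * (ψ V4 + d))
    (h0 : 0 ≤ ∑ v ∈ C, g0 v) (h1 : 0 ≤ ∑ v ∈ C, g1 v) (h2 : 0 ≤ ∑ v ∈ C, g2 v)
    (h3 : 0 ≤ ∑ v ∈ C, (g3 v + c3)) :
    ∀ (ψ : V3 →+ ℝ) (d : ℝ), (∀ v ∈ T, ψ v + d ≤ 0) → ∑ v ∈ C, (ψ v + d) ≤ 0 := by
  intro ψ d hψ
  rw [Finset.sum_congr rfl (fun v _ => hid ψ d v)]
  simp only [Finset.sum_add_distrib, ← Finset.sum_mul, ← Finset.sum_div]
  have e0 : ((∑ v ∈ C, ((g0 v : ℤ) : ℝ)) / D0 * (ψ V0 + d)) ≤ 0 := by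
    apply mul_nonpos_of_nonneg_of_nonpos
    · apply div_nonneg
      · exact_mod_cast h0
      · exact_mod_cast hD0.le
    · exact hψ _ hV0
  have e1 : ((∑ v ∈ C, ((g1 v : ℤ) : ℝ)) / D1 * (ψ V1 + d)) ≤ 0 := by
    apply mul_nonpos_of_nonneg_of_nonpos
    · apply div_nonneg
      · exact_mod_cast h1
      · exact_mod_cast hD1.le
    · exact hψ _ hV1
  have e2 : ((∑ v ∈ C, ((g2 v : ℤ) : ℝ)) / D2 * (ψ V2 + d)) ≤ 0 := by
    apply mul_nonpos_of_nonneg_of_nonpos
    · apply div_nonneg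
      · exact_mod_cast h2
      · exact_mod_cast hD2.le
    · exact hψ _ hV2
  have e3 : ((∑ v ∈ C, ((g3 v + c3 : ℤ) : ℝ)) / D3 * (ψ V4 + d)) ≤ 0 := by
    apply mul_nonpos_of_nonneg_of_nonpos
    · apply div_nonneg
      · exact_mod_cast h3
      · exact_mod_cast hD3.le
    · exact hψ _ hV4
  linarith

end TFL_

open TFL_ in
theorem tfl_proof (hCOA : Stmt_COA) (hPYR : Stmt_PYR) (hFAC : Stmt_FAC) (hT3L : Stmt_T3L) :
    Stmt_TFL := by
  classical
  intro β hβ S F F' hS hF hF' ω hRF hRF'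
  set h : ℤ := β - 2 with hh
  have h1 : 1 ≤ h := by omega
  have hβh : β = h + 2 := by omega
  set X : V3 := ((1, 1), h) with hX
  set T : Finset V3 := S.filter fun v => v.2 ≤ h * v.1.1 ∧ v.2 ≤ h * v.1.2 with hT
  set Eq : Finset V3 := F.filter fun v => v.2 = 0 with hEq
  set Ep : Finset V3 := F'.filter fun v => v.2 = 0 with hEp
  have mS : ∀ v : V3, v ∈ S ↔ 0 ≤ v.1.1 ∧ 0 ≤ v.1.2 ∧ 0 ≤ v.2 ∧ v.1.1 + v.1.2 + v.2 ≤ β := hS
  have mT : ∀ v : V3, v ∈ T ↔ 0 ≤ v.1.1 ∧ 0 ≤ v.1.2 ∧ 0 ≤ v.2 ∧ v.2 ≤ h * v.1.1 ∧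
      v.2 ≤ h * v.1.2 ∧ v.1.1 + v.1.2 + v.2 ≤ h + 2 := by
    intro v
    rw [hT, Finset.mem_filter, mS, ← hβh]
    tauto
  have mEq : ∀ v : V3, v ∈ Eq ↔ v.1.1 = 0 ∧ v.2 = 0 ∧ 0 ≤ v.1.2 ∧ v.1.2 ≤ h + 2 := by
    intro v
    rw [hEq, Finset.mem_filter, hF, mS, ← hβh]
    constructor
    · rintro ⟨⟨⟨a1, a2, a3, a4⟩, a5⟩, a6⟩
      exact ⟨a5, a6, a2, by omega⟩
    · rintro ⟨a1, a2, a3, a4⟩
      exact ⟨⟨⟨by omega, a3, by omega, by omega⟩, a1⟩, a2⟩
  have mEp : ∀ v : V3, v ∈ Ep ↔ v.1.2 = 0 ∧ v.2 = 0 ∧ 0 ≤ v.1.1 ∧ v.1.1 ≤ h + 2 := by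
    intro v
    rw [hEp, Finset.mem_filter, hF', mS, ← hβh]
    constructor
    · rintro ⟨⟨⟨a1, a2, a3, a4⟩, a5⟩, a6⟩
      exact ⟨a5, a6, a1, by omega⟩
    · rintro ⟨a1, a2, a3, a4⟩
      exact ⟨⟨⟨a3, by omega, by omega, by omega⟩, a1⟩, a2⟩
  -- heights on the two edges
  have rEq : RF Eq ω := by
    refine hFAC V3 F Eq cz 0 ω ?_ ?_ ?_ ?_ hRF
    · intro v hv
      rw [cz_apply, add_zero]
      exact ((mS v).1 ((hF v).1 hv).1).2.2.1
    · intro v
      rw [hEq, Finset.mem_filter, cz_apply, add_zero]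
    · refine ⟨((0, 0), 1), ?_, ?_⟩
      · rw [hF, mS]
        refine ⟨⟨?_, ?_, ?_, ?_⟩, ?_⟩ <;> simp
        omega
      · rw [cz_apply]
        norm_num
    · intro χ d hχ
      refine ⟨χ ((0, 0), 1), fun v hv => ?_⟩
      have e0 := hχ ((0, 0), 0) ((mEq _).2 ⟨rfl, rfl, le_rfl, by simp; omega⟩)
      have e1 := hχ ((0, 1), 0) ((mEq _).2 ⟨rfl, rfl, by simp, by simp; omega⟩)
      have hd : d = 0 := by
        rw [hom3] at e0
        simpa using e0
      rw [hd, add_zero] at e1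
      have hv0 : v.1.1 = 0 := ((hF v).1 hv).2
      rw [hom3 χ v, e1, hd, hv0, cz_apply, add_zero]
      push_cast
      ring
  have rEp : RF Ep ω := by
    refine hFAC V3 F' Ep cz 0 ω ?_ ?_ ?_ ?_ hRF'
    · intro v hv
      rw [cz_apply, add_zero]
      exact ((mS v).1 ((hF' v).1 hv).1).2.2.1
    · intro v
      rw [hEp, Finset.mem_filter, cz_apply, add_zero]
    · refine ⟨((0, 0), 1), ?_, ?_⟩
      · rw [hF', mS]
        refine ⟨⟨?_, ?_, ?_, ?_⟩, ?_⟩ <;> simp
        omega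
      · rw [cz_apply]
        norm_num
    · intro χ d hχ
      refine ⟨χ ((0, 0), 1), fun v hv => ?_⟩
      have e0 := hχ ((0, 0), 0) ((mEp _).2 ⟨rfl, rfl, le_rfl, by simp; omega⟩)
      have e1 := hχ ((1, 0), 0) ((mEp _).2 ⟨rfl, rfl, by simp, by simp; omega⟩)
      have hd : d = 0 := by
        rw [hom3] at e0
        simpa using e0
      rw [hd, add_zero] at e1
      have hv0 : v.1.2 = 0 := ((hF' v).1 hv).2
      rw [hom3 χ v, e1, hd, hv0, cz_apply, add_zero]
      push_cast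
      ring
  obtain ⟨ωT, rT, tq, tp⟩ := hT3L h T Eq Ep ω h1 mT mEq mEp rEq rEp
  set ω₁ : V3 → ℝ := fun v => if v ∈ F ∨ v ∈ F' then ω v else ωT v with hω₁
  have w1F : ∀ v ∈ F, ω₁ v = ω v := fun v hv => if_pos (Or.inl hv)
  have w1F' : ∀ v ∈ F', ω₁ v = ω v := fun v hv => if_pos (Or.inr hv)
  have w1T : ∀ v ∈ T, ωT v = ω₁ v := by
    intro v hv
    by_cases hc : v ∈ F ∨ v ∈ F'
    · rw [hω₁]
      simp only [hc, if_true]
      obtain ⟨a1, a2, a3, a4, a5, a6⟩ := (mT v).1 hv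
      rcases hc with hc | hc
      · have b1 := ((hF v).1 hc).2
        rw [b1, mul_zero] at a4
        exact tq v ((mEq v).2 ⟨b1, by omega, a2, by omega⟩)
      · have b1 := ((hF' v).1 hc).2
        rw [b1, mul_zero] at a5
        exact tp v ((mEp v).2 ⟨b1, by omega, a1, by omega⟩)
    · rw [hω₁]
      simp only [hc, if_false]
  set ω₀ : V3 → ℝ := fun v => max (max (-(h : ℝ) * v.1.1) (-(h : ℝ) * v.1.2)) (-(v.2 : ℝ)) with hω₀
  set U0 : Finset V3 := insert X F with hU0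
  set U1 : Finset V3 := insert X F' with hU1
  have hhR : (0 : ℝ) < h := by exact_mod_cast (by omega : 0 < h)
  have lo0 : ∀ v : V3, toR (lin (-h) 0 0) v = -(h : ℝ) * v.1.1 := by
    intro v
    rw [toR_apply, lin_apply]
    push_cast
    ring
  have lo1 : ∀ v : V3, toR (lin 0 (-h) 0) v = -(h : ℝ) * v.1.2 := by
    intro v
    rw [toR_apply, lin_apply]
    push_cast
    ring
  have lo2 : ∀ v : V3, toR (lin 0 0 (-1)) v = -(v.2 : ℝ) := by
    intro v
    rw [toR_apply, lin_apply]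
    push_cast
    ring
  have XS : X ∈ S := by
    rw [mS]
    refine ⟨?_, ?_, ?_, ?_⟩
    · simp [hX]
    · simp [hX]
    · simp only [hX]
      omega
    · simp only [hX]
      omega
  have cell0 : ∀ v : V3, v ∈ U0 ↔ v ∈ S ∧ -(h : ℝ) * v.1.1 = ω₀ v := by
    intro v
    rw [hU0, Finset.mem_insert, hF]
    have key : -(h : ℝ) * v.1.1 = ω₀ v ↔ v.1.1 ≤ v.1.2 ∧ h * v.1.1 ≤ v.2 := by
      rw [hω₀]
      simp only
      constructor
      · intro he
        have c1 : -(h : ℝ) * v.1.2 ≤ -(h : ℝ) * v.1.1 := by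
          rw [he]
          exact (le_max_right _ _).trans (le_max_left _ _)
        have c2 : -(v.2 : ℝ) ≤ -(h : ℝ) * v.1.1 := by
          rw [he]
          exact le_max_right _ _
        constructor
        · have c3 : (h : ℝ) * v.1.1 ≤ h * v.1.2 := by linarith
          have c4 : (v.1.1 : ℝ) ≤ v.1.2 := le_of_mul_le_mul_left c3 hhR
          exact_mod_cast c4
        · have c3 : (h : ℝ) * v.1.1 ≤ v.2 := by linarith
          exact_mod_cast c3
      · rintro ⟨c1, c2⟩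
        have c1' : (v.1.1 : ℝ) ≤ v.1.2 := by exact_mod_cast c1
        have c2' : (h : ℝ) * v.1.1 ≤ v.2 := by exact_mod_cast c2
        have c3 : (h : ℝ) * v.1.1 ≤ h * v.1.2 := mul_le_mul_of_nonneg_left c1' hhR.le
        rw [max_eq_left (a := -(h : ℝ) * v.1.1) (by linarith), max_eq_left (by linarith)]
    rw [key]
    constructor
    · rintro (hv | ⟨hv, h0⟩)
      · rw [hv]
        refine ⟨XS, ?_, ?_⟩
        · simp [hX]
        · simp [hX]
      · obtain ⟨a1, a2, a3, a4⟩ := (mS v).1 hv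
        refine ⟨hv, by omega, ?_⟩
        rw [h0, mul_zero]
        exact a3
    · rintro ⟨hv, c1, c2⟩
      obtain ⟨a1, a2, a3, a4⟩ := (mS v).1 hv
      by_cases h0 : v.1.1 = 0
      · exact Or.inr ⟨hv, h0⟩
      · left
        have d1 : 1 ≤ v.1.1 := by omega
        have d2 : h * 1 ≤ h * v.1.1 := mul_le_mul_of_nonneg_left d1 (by omega)
        have d3 : v.1.1 = 1 := by omega
        rw [d3] at c2
        have d4 : v.1.2 = 1 := by omega
        have d5 : v.2 = h := by omega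
        rw [hX]
        exact Prod.ext (Prod.ext d3 d4) d5
  have cell1 : ∀ v : V3, v ∈ U1 ↔ v ∈ S ∧ -(h : ℝ) * v.1.2 = ω₀ v := by
    intro v
    rw [hU1, Finset.mem_insert, hF']
    have key : -(h : ℝ) * v.1.2 = ω₀ v ↔ v.1.2 ≤ v.1.1 ∧ h * v.1.2 ≤ v.2 := by
      rw [hω₀]
      simp only
      constructor
      · intro he
        have c1 : -(h : ℝ) * v.1.1 ≤ -(h : ℝ) * v.1.2 := by
          rw [he]
          exact (le_max_left _ _).trans (le_max_left _ _)
        have c2 : -(v.2 : ℝ) ≤ -(h : ℝ) * v.1.2 := by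
          rw [he]
          exact le_max_right _ _
        constructor
        · have c3 : (h : ℝ) * v.1.2 ≤ h * v.1.1 := by linarith
          have c4 : (v.1.2 : ℝ) ≤ v.1.1 := le_of_mul_le_mul_left c3 hhR
          exact_mod_cast c4
        · have c3 : (h : ℝ) * v.1.2 ≤ v.2 := by linarith
          exact_mod_cast c3
      · rintro ⟨c1, c2⟩
        have c1' : (v.1.2 : ℝ) ≤ v.1.1 := by exact_mod_cast c1
        have c2' : (h : ℝ) * v.1.2 ≤ v.2 := by exact_mod_cast c2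
        have c3 : (h : ℝ) * v.1.2 ≤ h * v.1.1 := mul_le_mul_of_nonneg_left c1' hhR.le
        rw [max_eq_right (a := -(h : ℝ) * v.1.1) (by linarith), max_eq_left (by linarith)]
    rw [key]
    constructor
    · rintro (hv | ⟨hv, h0⟩)
      · rw [hv]
        refine ⟨XS, ?_, ?_⟩
        · simp [hX]
        · simp [hX]
      · obtain ⟨a1, a2, a3, a4⟩ := (mS v).1 hv
        refine ⟨hv, by omega, ?_⟩
        rw [h0, mul_zero]
        exact a3
    · rintro ⟨hv, c1, c2⟩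
      obtain ⟨a1, a2, a3, a4⟩ := (mS v).1 hv
      by_cases h0 : v.1.2 = 0
      · exact Or.inr ⟨hv, h0⟩
      · left
        have d1 : 1 ≤ v.1.2 := by omega
        have d2 : h * 1 ≤ h * v.1.2 := mul_le_mul_of_nonneg_left d1 (by omega)
        have d3 : v.1.2 = 1 := by omega
        rw [d3] at c2
        have d4 : v.1.1 = 1 := by omega
        have d5 : v.2 = h := by omega
        rw [hX]
        exact Prod.ext (Prod.ext d4 d3) d5
  have cell2 : ∀ v : V3, v ∈ T ↔ v ∈ S ∧ -(v.2 : ℝ) = ω₀ v := by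
    intro v
    have key : -(v.2 : ℝ) = ω₀ v ↔ v.2 ≤ h * v.1.1 ∧ v.2 ≤ h * v.1.2 := by
      rw [hω₀]
      simp only
      constructor
      · intro he
        have c1 : -(h : ℝ) * v.1.1 ≤ -(v.2 : ℝ) := by
          rw [he]
          exact (le_max_left _ _).trans (le_max_left _ _)
        have c2 : -(h : ℝ) * v.1.2 ≤ -(v.2 : ℝ) := by
          rw [he]
          exact (le_max_right _ _).trans (le_max_left _ _)
        constructor
        · have c3 : (v.2 : ℝ) ≤ h * v.1.1 := by linarith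
          exact_mod_cast c3
        · have c3 : (v.2 : ℝ) ≤ h * v.1.2 := by linarith
          exact_mod_cast c3
      · rintro ⟨c1, c2⟩
        have c1' : (v.2 : ℝ) ≤ h * v.1.1 := by exact_mod_cast c1
        have c2' : (v.2 : ℝ) ≤ h * v.1.2 := by exact_mod_cast c2
        rw [max_eq_right]
        exact max_le (by linarith) (by linarith)
    rw [key, hT, Finset.mem_filter]
  have memX0 : X ∈ U0 := Finset.mem_insert_self _ _
  have memX1 : X ∈ U1 := Finset.mem_insert_self _ _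
  have XT : X ∈ T := by
    rw [mT]
    refine ⟨?_, ?_, ?_, ?_, ?_, ?_⟩
    · simp [hX]
    · simp [hX]
    · simp only [hX]
      omega
    · simp [hX]
    · simp [hX]
    · simp only [hX]
      omega
  have hβR : (β : ℝ) = h + 2 := by exact_mod_cast hβh
  have hβ0 : (0 : ℝ) < h + 2 := by linarith
  obtain ⟨M₀, hM⟩ := hCOA V3 3 S ![U0, U1, T] ![toR (lin (-h) 0 0), toR (lin 0 (-h) 0),
    toR (lin 0 0 (-1))] ![0, 0, 0] ω₀ ω₁ (by
      intro i v hv
      fin_cases i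
      · show toR (lin (-h) 0 0) v + 0 ≤ ω₀ v
        rw [lo0, add_zero, hω₀]
        exact (le_max_left _ _).trans (le_max_left _ _)
      · show toR (lin 0 (-h) 0) v + 0 ≤ ω₀ v
        rw [lo1, add_zero, hω₀]
        exact (le_max_right _ _).trans (le_max_left _ _)
      · show toR (lin 0 0 (-1)) v + 0 ≤ ω₀ v
        rw [lo2, add_zero, hω₀]
        exact le_max_right _ _) (by
      intro i v
      fin_cases i
      · show v ∈ U0 ↔ v ∈ S ∧ toR (lin (-h) 0 0) v + 0 = ω₀ v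
        rw [lo0, add_zero]
        exact cell0 v
      · show v ∈ U1 ↔ v ∈ S ∧ toR (lin 0 (-h) 0) v + 0 = ω₀ v
        rw [lo1, add_zero]
        exact cell1 v
      · show v ∈ T ↔ v ∈ S ∧ toR (lin 0 0 (-1)) v + 0 = ω₀ v
        rw [lo2, add_zero]
        exact cell2 v) (by
      intro C hC _
      have sp : 0 ≤ ∑ v ∈ C, v.1.1 := Finset.sum_nonneg fun v hv => ((mS v).1 (hC hv)).1
      have sq : 0 ≤ ∑ v ∈ C, v.1.2 := Finset.sum_nonneg fun v hv => ((mS v).1 (hC hv)).2.1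
      have sr : 0 ≤ ∑ v ∈ C, v.2 := Finset.sum_nonneg fun v hv => ((mS v).1 (hC hv)).2.2.1
      have s4 : 0 ≤ ∑ v ∈ C, (lin (-1) (-1) (-1) v + β) := by
        refine Finset.sum_nonneg fun v hv => ?_
        have := ((mS v).1 (hC hv)).2.2.2
        rw [lin_apply]
        linarith
      have linsum : ∀ α₁ α₂ α₃ : ℤ, ∑ v ∈ C, lin α₁ α₂ α₃ v =
          α₁ * ∑ v ∈ C, v.1.1 + α₂ * ∑ v ∈ C, v.1.2 + α₃ * ∑ v ∈ C, v.2 := by
        intro α₁ α₂ α₃
        rw [Finset.mul_sum, Finset.mul_sum, Finset.mul_sum, ← Finset.sum_add_distrib,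
          ← Finset.sum_add_distrib]
        exact Finset.sum_congr rfl fun v _ => lin_apply _ _ _ v
      by_cases hc : ∑ v ∈ C, v.2 ≤ h * ∑ v ∈ C, v.1.1 ∧ ∑ v ∈ C, v.2 ≤ h * ∑ v ∈ C, v.1.2
      · refine ⟨2, ?_⟩
        show ∀ (ψ : V3 →+ ℝ) (d : ℝ), (∀ v ∈ T, ψ v + d ≤ 0) → ∑ v ∈ C, (ψ v + d) ≤ 0
        refine cover4 T C X ((β, 0), 0) ((0, β), 0) ((0, 0), 0) (lin 0 0 1) (lin h 0 (-1))
          (lin 0 h (-1)) (lin (-1) (-1) (-1)) β h (h * β) (h * β) β XT ?_ ?_ ?_ (by omega)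
          (mul_pos (by omega) (by omega)) (mul_pos (by omega) (by omega)) (by omega) ?_ ?_ ?_ ?_ s4
        · rw [mT]
          refine ⟨?_, ?_, ?_, ?_, ?_, ?_⟩ <;> simp only [mul_zero, le_refl]
          · omega
          · exact mul_nonneg (by omega) (by omega)
          · omega
        · rw [mT]
          refine ⟨?_, ?_, ?_, ?_, ?_, ?_⟩ <;> simp only [mul_zero, le_refl]
          · omega
          · exact mul_nonneg (by omega) (by omega)
          · omega
        · rw [mT]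
          refine ⟨?_, ?_, ?_, ?_, ?_, ?_⟩ <;> simp only [mul_zero, le_refl]
          omega
        · intro ψ d v
          rw [hom3 ψ v, hom3 ψ X, hom3 ψ ((β, 0), 0), hom3 ψ ((0, β), 0), hom3 ψ ((0, 0), 0)]
          rw [lin_apply, lin_apply, lin_apply, lin_apply]
          simp only [hX]
          push_cast
          rw [hβR]
          field_simp
          ring
        · rw [linsum]
          linarith
        · rw [linsum]
          linarith [hc.1]
        · rw [linsum]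
          linarith [hc.2]
      · by_cases hPQ : ∑ v ∈ C, v.1.1 ≤ ∑ v ∈ C, v.1.2
        · have hhPQ : h * ∑ v ∈ C, v.1.1 ≤ h * ∑ v ∈ C, v.1.2 :=
            mul_le_mul_of_nonneg_left hPQ (by omega)
          have hR : h * ∑ v ∈ C, v.1.1 ≤ ∑ v ∈ C, v.2 := by
            by_contra hcon
            push Not at hcon
            exact hc ⟨hcon.le, hcon.le.trans hhPQ⟩
          refine ⟨0, ?_⟩
          show ∀ (ψ : V3 →+ ℝ) (d : ℝ), (∀ v ∈ U0, ψ v + d ≤ 0) → ∑ v ∈ C, (ψ v + d) ≤ 0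
          refine cover4 U0 C X ((0, β), 0) ((0, 0), β) ((0, 0), 0) (lin 1 0 0) (lin (-1) 1 0)
            (lin (-h) 0 1) (lin (-1) (-1) (-1)) β 1 β β β memX0 ?_ ?_ ?_ (by omega)
            (by omega) (by omega) (by omega) ?_ ?_ ?_ ?_ s4
          · refine Finset.mem_insert_of_mem ((hF _).2 ⟨(mS _).2 ⟨?_, ?_, ?_, ?_⟩, rfl⟩) <;> simp
            omega
          · refine Finset.mem_insert_of_mem ((hF _).2 ⟨(mS _).2 ⟨?_, ?_, ?_, ?_⟩, rfl⟩) <;> simp
            omega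
          · refine Finset.mem_insert_of_mem ((hF _).2 ⟨(mS _).2 ⟨?_, ?_, ?_, ?_⟩, rfl⟩) <;> simp
            omega
          · intro ψ d v
            rw [hom3 ψ v, hom3 ψ X, hom3 ψ ((0, β), 0), hom3 ψ ((0, 0), β), hom3 ψ ((0, 0), 0)]
            rw [lin_apply, lin_apply, lin_apply, lin_apply]
            simp only [hX]
            push_cast
            rw [hβR]
            field_simp
            ring
          · rw [linsum]
            linarith
          · rw [linsum]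
            linarith
          · rw [linsum]
            linarith
        · push Not at hPQ
          have hhPQ : h * ∑ v ∈ C, v.1.2 ≤ h * ∑ v ∈ C, v.1.1 :=
            mul_le_mul_of_nonneg_left hPQ.le (by omega)
          have hR : h * ∑ v ∈ C, v.1.2 ≤ ∑ v ∈ C, v.2 := by
            by_contra hcon
            push Not at hcon
            exact hc ⟨hcon.le.trans hhPQ, hcon.le⟩
          refine ⟨1, ?_⟩
          show ∀ (ψ : V3 →+ ℝ) (d : ℝ), (∀ v ∈ U1, ψ v + d ≤ 0) → ∑ v ∈ C, (ψ v + d) ≤ 0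
          refine cover4 U1 C X ((β, 0), 0) ((0, 0), β) ((0, 0), 0) (lin 0 1 0) (lin 1 (-1) 0)
            (lin 0 (-h) 1) (lin (-1) (-1) (-1)) β 1 β β β memX1 ?_ ?_ ?_ (by omega)
            (by omega) (by omega) (by omega) ?_ ?_ ?_ ?_ s4
          · refine Finset.mem_insert_of_mem ((hF' _).2 ⟨(mS _).2 ⟨?_, ?_, ?_, ?_⟩, rfl⟩) <;> simp
            omega
          · refine Finset.mem_insert_of_mem ((hF' _).2 ⟨(mS _).2 ⟨?_, ?_, ?_, ?_⟩, rfl⟩) <;> simp
            omega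
          · refine Finset.mem_insert_of_mem ((hF' _).2 ⟨(mS _).2 ⟨?_, ?_, ?_, ?_⟩, rfl⟩) <;> simp
            omega
          · intro ψ d v
            rw [hom3 ψ v, hom3 ψ X, hom3 ψ ((β, 0), 0), hom3 ψ ((0, 0), β), hom3 ψ ((0, 0), 0)]
            rw [lin_apply, lin_apply, lin_apply, lin_apply]
            simp only [hX]
            push_cast
            rw [hβR]
            field_simp
            ring
          · rw [linsum]
            linarith
          · rw [linsum]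
            linarith
          · rw [linsum]
            linarith) (by
      intro i
      fin_cases i
      · show RLw U0 ω₁
        refine hPYR V3 sep_V3 U0 F X cx 0 ω₁ ?_ ?_ ?_ (hRF.congr fun v hv => (w1F v hv).symm)
        · intro v hv
          rw [cx_apply, add_zero]
          exact ((hF v).1 hv).2
        · rw [cx_apply, hX]
          norm_num
        · intro v
          rw [hU0, Finset.mem_insert]
          exact Or.comm
      · show RLw U1 ω₁
        refine hPYR V3 sep_V3 U1 F' X cy 0 ω₁ ?_ ?_ ?_ (hRF'.congr fun v hv => (w1F' v hv).symm)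
        · intro v hv
          rw [cy_apply, add_zero]
          exact ((hF' v).1 hv).2
        · rw [cy_apply, hX]
          norm_num
        · intro v
          rw [hU1, Finset.mem_insert]
          exact Or.comm
      · show RLw T ω₁
        exact rT.congr w1T)
  refine ⟨fun v => M₀ * ω₀ v + ω₁ v, hM M₀ le_rfl, ?_, ?_⟩
  · intro v hv
    obtain ⟨hvS, hv0⟩ := (hF v).1 hv
    obtain ⟨a1, a2, a3, a4⟩ := (mS v).1 hvS
    have hz : ω₀ v = 0 := by
      have a2' : (0 : ℝ) ≤ v.1.2 := by exact_mod_cast a2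
      have a3' : (0 : ℝ) ≤ v.2 := by exact_mod_cast a3
      have a5 : (0 : ℝ) ≤ (h : ℝ) * v.1.2 := mul_nonneg hhR.le a2'
      rw [hω₀]
      simp only [hv0, Int.cast_zero, mul_zero]
      rw [max_eq_left (a := (0 : ℝ)) (by linarith), max_eq_left (by linarith)]
    simp only
    rw [hz, w1F v hv]
    ring
  · intro v hv
    obtain ⟨hvS, hv0⟩ := (hF' v).1 hv
    obtain ⟨a1, a2, a3, a4⟩ := (mS v).1 hvS
    have hz : ω₀ v = 0 := by
      have a2' : (0 : ℝ) ≤ v.1.1 := by exact_mod_cast a1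
      have a3' : (0 : ℝ) ≤ v.2 := by exact_mod_cast a3
      have a5 : (0 : ℝ) ≤ (h : ℝ) * v.1.1 := mul_nonneg hhR.le a2'
      rw [hω₀]
      simp only [hv0, Int.cast_zero, mul_zero]
      rw [max_eq_right (b := (0 : ℝ)) (by linarith), max_eq_left (by linarith)]
    simp only
    rw [hz, w1F' v hv]
    ring

end LHR
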